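import Pool.Agent.MP_05b4bd_ag.esc.Bx

/-! Escaping centres in every degree at least three: the statements of the blocks. -/

namespace Pool.Agent.MP_05b4bd_ag.ES

open PowerSeries LaurentSeries HC

def EscStmt3 : Prop := ∀ (k : Type) [Field k] [CharZero k] [IsAlgClosed k] (d : ℕ), 3 ≤ d →
  ∀ (o : Ob k d) (p : Fin 2 → k⸨X⸩), CenP o.P o.Q p → ∀ i, ∃ c, p i = coeL k c

def FraStmt3 : Prop := ∀ (k : Type) [Field k] [CharZero k] [IsAlgClosed k] (d : ℕ), 3 ≤ d →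
  ∀ (P Q : R2 k⟦X⟧) (f : R2 k), Gen d f → DL (d + 1) P → DL (d + 1) Q →
  MvPolynomial.map cc P = MvPolynomial.pderiv 1 f → MvPolynomial.map cc Q = -MvPolynomial.pderiv 0 f →
  (∃ o : Ob k d, o.P = P ∧ o.Q = Q) ∨ ∃ p : Fin 2 → k⟦X⟧, tr p P ∈ mm k⟦X⟧ ^ 1 ∧
    tr p Q ∈ mm k⟦X⟧ ^ 1 ∧
    FI (MvPolynomial.map (coeL k) (tr p P)) (MvPolynomial.map (coeL k) (tr p Q))

def S1bStmt3 : Prop := ∀ (k L U : Type) [Field k] [CharZero k] [IsAlgClosed k] [Field L] [Field U]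
  (d : ℕ) (I : Inf k d L) (D1 : U →+ U) (i : L →+* U) (J : AA U) (ν : ℕ), 3 ≤ d →
  ¬ I.a ∣ X * I.b → DExt I.D D1 i → Cst (i.comp I.κ) D1 →
  IIF (cw D1) (mA i I.a) (X * mA i I.b) J → OrdIs ν J →
  (∀ (U' : Type) [Field U'] (D2 : U' →+ U') (i' : L →+* U') (I' : AA U'), DExt I.D D2 i' →
    IIF (cw D2) (mA i' I.a) (X * mA i' I.b) I' → ∃ j ≤ ν, coeff j I' ≠ 0) → False

def InvStmt3 : Prop := ∀ (k L : Type) [Field k] [CharZero k] [IsAlgClosed k] [Field L] (d : ℕ)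
  (I : Inf k d L) (ν : ℕ) (σ : k⟦X⟧) (φ : L⸨X⸩ →+* L⸨X⸩) (η : L⸨X⸩), 3 ≤ d → 1 ≤ ν →
  (∀ m : ℤ, m < -d → ∃ z, (cc I.Xi).coeff m = I.D z) → cc σ = 0 → coeff 1 σ ^ ν = 1 →
  coeff 1 σ ≠ 1 → (∀ c, φ (coeL L c) = coeL L (sb (map I.κ σ) c)) →
  (∀ c, cwL I.D (φ c) = φ (cwL I.D c)) →
  cwL I.D η = φ (cc I.Xi) - dh d (φ (wL L (-(d : ℤ)))) * cc I.Xi → False

def S1aStmt3 : Prop := ∀ (k L U : Type) [Field k] [CharZero k] [Field L] [Field U]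
  (d : ℕ) (I : Inf k d L) (D1 : U →+ U) (i : L →+* U) (r : AA U), 3 ≤ d → ¬ I.a ∣ X * I.b →
  DExt I.D D1 i → r ≠ 0 → cc r = 0 → FIe (cw D1) (mA i I.a) (X * mA i I.b) r → False

def S1Stmt3 : Prop := ∀ (k U : Type) [Field k] [CharZero k] [Field U] (d : ℕ) (κ : k →+* U)
  (D : U →+ U) (x y : U) (a b I : AA U), 3 ≤ d → Obs k d κ D x y a b → ¬ a ∣ X * b →
  ¬ IIF (cw D) a (X * b) I

def KillStmt3 : Prop := ∀ (k U : Type) [Field k] [CharZero k] [Field U] (d : ℕ) (κ : k →+* U)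
  (D δ : U →+ U) (x y : U) (a b Wt lam : AA U) (G0 G1 : U⟦X⟧), 3 ≤ d → Obs k d κ D x y a b →
  LD X (cw D) a b Wt lam G0 G1 → cw D G0 ≠ 0 → IsDer δ → (∀ c, D (δ c) = δ (D c)) →
  cw (cw δ) a = 0 → cw (cw δ) b = 0 → cw δ G0 * cw D G1 = cw δ G1 * cw D G0 →
  cw δ G0 = 0 ∧ cw δ G1 = 0 ∧ cw (cw δ) Wt = 0

def SymaStmt3 : Prop := ∀ (k L U : Type) [Field k] [CharZero k] [Field L] [Field U]
  (d : ℕ) (I : Inf k d L) (D1 : U →+ U) (i : L →+* U) (φ : L →+* U⟦X⟧) (s : U⟦X⟧) (W l : AA U),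
  3 ≤ d → ¬ I.a ∣ X * I.b → DExt I.D D1 i → (∀ c, φ (I.κ c) = C (i (I.κ c))) →
  (∀ c, cw D1 (φ c) = s * φ (I.D c)) → C X ∣ W - X → IsUnit l →
  ev ((C : U⟦X⟧ →+* AA U).comp (hat φ)) W I.a * dX _ W = l * mA i I.a →
  ev ((C : U⟦X⟧ →+* AA U).comp (hat φ)) W I.a * cw (cw D1) W +
    C s * ev ((C : U⟦X⟧ →+* AA U).comp (hat φ)) W (X * I.b) = l * (X * mA i I.b) →
  ∀ δ : U →+ U, IsDer δ → (∀ c, δ (i c) = 0) →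
    cw (cw δ) W = 0 ∧ cw δ s = 0 ∧ ∀ c, cw δ (φ c) = 0

def SymbStmt3 : Prop := ∀ (k L E : Type) [Field k] [CharZero k] [IsAlgClosed k] [Field L] [Field E]
  (d : ℕ) (I : Inf k d L) (D1 : E →+ E) (i : L →+* E) (φ : L →+* E⟦X⟧) (s : E⟦X⟧) (W : AA E),
  3 ≤ d → DExt I.D D1 i → (∀ e : E, IsAlgebraic i.fieldRange e) → (∀ c, φ (I.κ c) = C (i (I.κ c))) →
  (∀ c, cw D1 (φ c) = s * φ (I.D c)) → C X ∣ W - X →
  mA i I.a * (ev ((C : E⟦X⟧ →+* AA E).comp (hat φ)) W I.a * cw (cw D1) W +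
    C s * ev ((C : E⟦X⟧ →+* AA E).comp (hat φ)) W (X * I.b)) =
    ev ((C : E⟦X⟧ →+* AA E).comp (hat φ)) W I.a * dX _ W * (X * mA i I.b) →
  cc s = 1 ∧ (4 ≤ d → cc (φ (cc I.x0)) = i (cc I.x0) ∧ cc (φ (cc I.y0)) = i (cc I.y0))

def S2aStmt3 : Prop := ∀ (k U : Type) [Field k] [CharZero k] [IsAlgClosed k] [Field U] (d : ℕ)
  (κ : k →+* U) (D : U →+ U) (x y : U) (a b Wt lam : AA U) (G0 G1 : U⟦X⟧) (φ : U →+* U⟦X⟧)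
  (s : U⟦X⟧), 3 ≤ d → Obs k d κ D x y a b → LD X (cw D) a b Wt lam G0 G1 → cw D G0 ≠ 0 →
  (∀ c, φ (κ c) = C (κ c)) → (∀ c, cw D (φ c) = s * φ (D c)) → hat φ G0 = G0 → hat φ G1 = G1 →
  cc (φ y) * D (cc (φ x)) - cc (φ x) * D (cc (φ y)) = y * D x - x * D y ∧
    (4 ≤ d → cc (φ x) = x ∧ cc (φ y) = y)

def S2bStmt3 : Prop := ∀ (k U : Type) [Field k] [CharZero k] [IsAlgClosed k] [Field U] (d : ℕ)
  (κ : k →+* U) (D : U →+ U) (x y : U) (a b Wt lam : AA U) (g0 g1 : AA k) (Φ : AA k →+* U⟦X⟧),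
  3 ≤ d → Obs k d κ D x y a b → LD X (cw D) a b Wt lam (Φ g0) (Φ g1) → cw D (Φ g0) ≠ 0 →
  PolyP g0 → PolyP g1 → tA k 1 ∣ g0 → tA k 1 ∣ g1 → (∀ r, Φ (CC r) = C (κ r)) →
  IsUnit (Φ (C X)) → Φ (C X) * Φ X = X → D (cc (Φ (C X))) = 0

def S2cStmt3 : Prop := ∀ (k L E : Type) [Field k] [CharZero k] [IsAlgClosed k] [Field L] [Field E]
  (d : ℕ) (I : Inf k d L) (D1 : E →+ E) (i : L →+* E) (W : TT E) (p : E⟦X⟧) (g0 g1 : (Polynomial k)⟦X⟧)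
  (φ : (Polynomial k)⟦X⟧ →+* E⟦X⟧), 3 ≤ d → DExt I.D D1 i → (∀ e : E, IsAlgebraic i.fieldRange e) →
  cc W = wL E 1 → IsUnit p → (∀ r, φ (C (Polynomial.C r)) = C (i (I.κ r))) →
  φ (C Polynomial.X) = p → p * φ X = X → C Polynomial.X * X ∣ g0 → C Polynomial.X * X ∣ g1 →
  W * VT D1 (mT i I.vb) W = map (cL E) (cw D1 (φ g0)) + W * map (cL E) (cw D1 (φ g1)) →
  D1 (cc p) = 0

def Case8Stmt3 : Prop := ∀ (k : Type) [Field k] [CharZero k] [IsAlgClosed k] (d : ℕ), 3 ≤ d →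
  ∀ (o : Ob k d) (r : ℕ) (x y : k⟦X⟧), 1 ≤ r →
  CenP o.P o.Q ![wL k (-(r : ℤ)) * coeL k x, wL k (-(r : ℤ)) * coeL k y] →
  evp (RingHom.id k) (cc x) (cc y) (hc d o.f) = 0

def DfinStmt3 : Prop := ∀ (k : Type) [Field k] [CharZero k] [IsAlgClosed k] (d : ℕ), 3 ≤ d →
  ∀ (x y : k⟦X⟧) (a b : AA k⟦X⟧) (u W : k⟦X⟧),
  Obs k d (cL k) (dL k) (coeL k x) (coeL k y) (map iT a) (map iT b) → cc u = 0 → cc W = 0 →
  CenN (coeL k) (X * b) a u W → ∃ σ, cc σ = 0 ∧ coeff 1 σ ≠ 0 ∧ σ ≠ X ∧ sb σ x = x ∧ sb σ y = y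

def PmkStmt3 : Prop := ∀ (k : Type) [Field k] [CharZero k] [IsAlgClosed k] (d : ℕ), 3 ≤ d →
  ∀ (o : Ob k d) (r : ℕ) (x y : k⟦X⟧), 1 ≤ r → (cc x ≠ 0 ∨ cc y ≠ 0) →
  CenP o.P o.Q ![wL k (-(r : ℤ)) * coeL k x, wL k (-(r : ℤ)) * coeL k y] →
  evp (RingHom.id k) (cc x) (cc y) (hc d o.f) = 0 → Nonempty (PD k d)

def AfinStmt3 : Prop := ∀ (k : Type) [Field k] [CharZero k] (d : ℕ) (o : PD k d), 3 ≤ d →
  (∀ i, 1 ≤ i → X * o.zs ∣ co2 i 0 o.b * o.Us) → (∀ i, 2 ≤ i → X * o.zs ∣ co2 i 0 o.e * o.Us) → False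

def Log1Stmt3 : Prop := ∀ (k : Type) [Field k] [CharZero k] [IsAlgClosed k] (m : ℤ) (M : ℕ)
  (β j : k⟦X⟧), ¬ (M : ℤ) ∣ m → (∀ c : k, c ≠ 1 → rescale c β ≠ β) → cc j = 0 → coeff 1 j ≠ 1 → sb j β = β → dX k β ≠ 0 →
  dX k β ∈ ExpCl k m M → ∃ δ : k⸨X⸩ →+ k⸨X⸩, IsDer δ ∧ (∀ r, δ (cL k r) = 0) ∧
    δ (coeL k (exp k)) = 0 ∧ δ (coeL k (sb j (exp k))) = 0 ∧ δ (coeL k X) = 1 ∧ δ (coeL k j) = 0

def Log2Stmt3 : Prop := ∀ (k : Type) [Field k] [CharZero k] [IsAlgClosed k] (d ε N n : ℕ)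
  (ps qs : k⟦X⟧) (a0 b0 : AA k) (G0 G1 : AA (Polynomial k)) (S : Type) [CommRing S] [IsDomain S]
  (ψ1 ψ2 : AA k →+* S), 3 ≤ d → ε ≤ 1 → 1 ≤ N → 1 ≤ n → cc ps = 0 → cc qs = 0 → qs ≠ 0 →
  ps * qs ^ ε = X ^ n → Supp ε (-N) (d * N) a0 → Supp ε (-N) (d * N) b0 → (a0 ≠ 0 ∨ b0 ≠ 0) →
  Lead (-(d : AA (Polynomial k))) (tA _ ε) (DG k ε) (mA Polynomial.C a0) (mA Polynomial.C b0) G0 G1 → Refl ψ1 ψ2 →
  ψ1 X ≠ ψ2 X → ψ1 (psiL ε ps qs G0) = ψ2 (psiL ε ps qs G0) →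
  ψ1 (psiL ε ps qs G1) = ψ2 (psiL ε ps qs G1) →
  dl2 k G0 * DG k ε G1 = dl2 k G1 * DG k ε G0

def BlogStmt3 : Prop := ∀ (k : Type) [Field k] [CharZero k] [IsAlgClosed k] (d ε N e : ℕ)
  (a b : (AA k)⟦X⟧) (a0 b0 : AA k) (y : k⸨X⸩) (n : ℕ) (ps qs W : k⟦X⟧), 3 ≤ d →
  BD d ε N e a b a0 b0 y n ps qs W → ∃ Wt lam G0 G1, LD (tA k ε) (DA k ε) a b Wt lam G0 G1 ∧
    Lead (-(d : AA k)) (tA k ε) (DA k ε) (cc a) (cc b) G0 G1 ∧ SS ε N G0 ∧ SS ε N G1 ∧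
    tA k ε ^ (2 * e) ∣ G0 ∧ tA k ε ^ e ∣ G1 ∧ DA k ε G0 ≠ 0 ∧
    ∃ (S : Type) (_ : CommRing S) (_ : IsDomain S) (ψ1 ψ2 : AA k →+* S), Refl ψ1 ψ2 ∧
      (∀ v, coeff 1 v ≠ 0 → ψ1 v ≠ ψ2 v) ∧ ψ1 (psi0 ε ps qs G0) = ψ2 (psi0 ε ps qs G0) ∧
      ψ1 (psi0 ε ps qs G1) = ψ2 (psi0 ε ps qs G1)

def BfinStmt3 : Prop := ∀ (k : Type) [Field k] [CharZero k] [IsAlgClosed k] (d ε N e : ℕ)
  (a b : (AA k)⟦X⟧) (a0 b0 : AA k) (y : k⸨X⸩) (n : ℕ) (ps qs W : k⟦X⟧), 3 ≤ d →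
  BD d ε N e a b a0 b0 y n ps qs W → False

/-! ### New blocks -/

/-- All degrees `e` that occur satisfy `d ∣ e + m + 2`. -/
def Cls {k : Type} [Field k] (d : ℕ) (m : ℤ) (r : R2 k) : Prop :=
  ∀ e : Fin 2 →₀ ℕ, MvPolynomial.coeff e r ≠ 0 → (d : ℤ) ∣ e.degree + m + 2

/-- A second non-zero class, separation of the classes, and the class of `1`. -/
def NzcStmt : Prop := ∀ (k : Type) [Field k] [CharZero k] (d : ℕ) (F : R2 k), 3 ≤ d →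
  F.IsHomogeneous d → CI (MvPolynomial.pderiv 0 F) (MvPolynomial.pderiv 1 F) →
  (∃ (n : ℕ) (r : R2 k), r.IsHomogeneous n ∧ ¬ d ∣ n + 2 ∧ ¬ d ∣ n ∧ ¬ Bt F r) ∧ ¬ Bt F 1 ∧
  ∀ (m : ℤ) (r s : R2 k), Cls d m r →
    (∀ e : Fin 2 →₀ ℕ, MvPolynomial.coeff e s ≠ 0 → ¬ (d : ℤ) ∣ e.degree + m + 2) →
    Bt F (r + s) → Bt F r ∧ Bt F s

/-- Two different non-zero classes occur. -/
def TwoStmt : Prop := ∀ (k L : Type) [Field k] [CharZero k] [IsAlgClosed k] [Field L] (d : ℕ)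
  (I : Inf k d L) (r : ℤ → R2 k), 3 ≤ d →
  (∀ m, ∃ η, (cc I.Xi).coeff m = I.D η + evp I.κ (cc I.x0) (cc I.y0) (r m)) →
  (∀ m, Cls d m (r m)) → ∃ m1 m2 : ℤ, ¬ (d : ℤ) ∣ m1 ∧ ¬ (d : ℤ) ∣ m2 ∧ ¬ (d : ℤ) ∣ m1 - m2 ∧
    ¬ Bt (hc d I.f) (r m1) ∧ ¬ Bt (hc d I.f) (r m2)

/-- The coefficients of the Gelfand-Leray form are pure. -/
def WtStmt : Prop := ∀ (k L : Type) [Field k] [CharZero k] [Field L] (d : ℕ) (I : Inf k d L),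
  1 ≤ d → ∃ r : ℤ → R2 k,
    (∀ m, ∃ η, (cc I.Xi).coeff m = I.D η + evp I.κ (cc I.x0) (cc I.y0) (r m)) ∧
    ∀ m, Cls d m (r m)

/-- A primitive in an algebraic extension gives a primitive. -/
def TraceStmt : Prop := ∀ (L E : Type) [Field L] [CharZero L] [Field E] (D : L →+ L) (D1 : E →+ E)
  (i : L →+* E), DExt D D1 i → ∀ (η : E) (z : L), IsAlgebraic i.fieldRange η → D1 η = i z →
  ∃ η0, z = D η0

/-- Two discs on the curve with the same centre and the same differential. -/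
def Loc0Stmt : Prop := ∀ (k : Type) [Field k] [CharZero k] (d : ℕ) (F : R2 k) (x y x' y' : k⟦X⟧),
  1 ≤ d → F.IsHomogeneous d → evp (cL k) (coeL k x) (coeL k y) F = 1 →
  evp (cL k) (coeL k x') (coeL k y') F = 1 → cc x' = cc x → cc y' = cc y →
  y' * dX k x' - x' * dX k y' = y * dX k x - x * dX k y → x' = x ∧ y' = y

/-- The same at a point at infinity of a cubic. -/
def LocIStmt : Prop := ∀ (k : Type) [Field k] [CharZero k] (F : R2 k) (N : ℕ) (y : k⸨X⸩)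
  (σ : k⟦X⟧) (φ : k⸨X⸩ →+* k⸨X⸩), 1 ≤ N → F.IsHomogeneous 3 →
  CI (MvPolynomial.pderiv 0 F) (MvPolynomial.pderiv 1 F) → HC.co 0 3 F ≠ 0 →
  evp (cL k) (wL k (-(N : ℤ))) y F = 1 → cc σ = 0 → (∀ c, φ (coeL k c) = coeL k (sb σ c)) →
  φ y * thL k (φ (wL k (-(N : ℤ)))) - φ (wL k (-(N : ℤ))) * thL k (φ y) =
    y * thL k (wL k (-(N : ℤ))) - wL k (-(N : ℤ)) * thL k y →
  σ ^ N = X ^ N

/-- The subspace `Bt` specialises. -/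
def SatStmt : Prop := ∀ (O K L : Type) [CommRing O] [IsDomain O] [ValuationRing O] [Field K]
  [Field L] [CharZero K] [CharZero L] (ι : O →+* K) (ρ : O →+* L) (d : ℕ) (F r : R2 O), 2 ≤ d → Function.Injective ι →
  (∀ c : K, (∃ a, ι a = c) ∨ ∃ a, ρ a = 0 ∧ ι a * c = 1) → F.IsHomogeneous d →
  CI (MvPolynomial.pderiv 0 (MvPolynomial.map ι F)) (MvPolynomial.pderiv 1 (MvPolynomial.map ι F)) →
  CI (MvPolynomial.pderiv 0 (MvPolynomial.map ρ F)) (MvPolynomial.pderiv 1 (MvPolynomial.map ρ F)) →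
  ρ (HC.co 0 d F) ≠ 0 → Bt (MvPolynomial.map ι F) (MvPolynomial.map ι r) →
  Bt (MvPolynomial.map ρ F) (MvPolynomial.map ρ r)

/-- The Fermat form. -/
noncomputable def Fer (k : Type) [Field k] (d : ℕ) : R2 k :=
  MvPolynomial.X 0 ^ d + MvPolynomial.X 1 ^ d

/-- The special polynomial `x ^ d + y ^ d + x ^ p y ^ q + c x ^ r y ^ s`. -/
noncomputable def fs (k : Type) [Field k] (d p q r s c : ℕ) : R2 k :=
  Fer k d + MvPolynomial.X 0 ^ p * MvPolynomial.X 1 ^ q +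
    (c : R2 k) * (MvPolynomial.X 0 ^ r * MvPolynomial.X 1 ^ s)

/-- The two lowest equations of the invariance in every class. -/
def Eqs {k : Type} [Field k] (d : ℕ) (F : R2 k) (ψ : ℕ → R2 k) (z t : k) : Prop :=
  ∀ n < d, Bt F (MvPolynomial.C (z ^ n - 1) * ψ n) ∧
    Bt F (MvPolynomial.C (z * (z ^ (n + d) - 1)) * ψ (n + d) +
      MvPolynomial.C (((n + 1) * z ^ n - (d + 1)) * t) * ψ n)

/-- Specialisation of all the coefficients of `f`. -/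
def BspecStmt3 : Prop := ∀ (k : Type) [Field k] [CharZero k] [IsAlgClosed k] (d : ℕ) (f g1 : R2 k)
  (σ : k⟦X⟧) (ν : ℕ), 3 ≤ d → Gen d f → DL (d - 1) g1 → cc σ = 0 → 1 ≤ ν → coeff 1 σ ^ ν = 1 →
  coeff 1 σ ≠ 1 →
  (∀ m, Bt (hc d f) (∑ n ∈ Finset.range (m + 1),
    MvPolynomial.C (coeff m (σ ^ (n + 1)) - ((m - n : ℕ) : k) * coeff (m - n) σ) * psi d f g1 n)) →
  (∃ n n', ¬ n ≡ n' [MOD d] ∧ ¬ Bt (hc d f) (psi d f g1 n) ∧ ¬ Bt (hc d f) (psi d f g1 n')) →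
  ∀ p q r s c : ℕ, p + q + 1 = d → r + s + 2 = d →
  ∃ (k' : Type) (_ : Field k') (_ : CharZero k') (g : R2 k') (z t : k'),
    DL (d - 1) g ∧ g ≠ 0 ∧ z ≠ 0 ∧ z ≠ 1 ∧ Eqs d (Fer k' d) (psi d (fs k' d p q r s c) g) z t

/-- The finite checks. -/
def ChkStmt (d p q r s c : ℕ) : Prop := ∀ (k : Type) [Field k] [CharZero k] (g : R2 k) (z t : k),
  DL (d - 1) g → z ≠ 0 → z ≠ 1 → Eqs d (Fer k d) (psi d (fs k d p q r s c) g) z t → g = 0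

end Pool.Agent.MP_05b4bd_ag.ES
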