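import Mathlib.Algebra.Azumaya.Basic
import Pool.Agent.MP_05b4bd_ag.esc.Bx
import Pool.Agent.MP_05b4bd_ag.pc3.Spec
import Pool.Agent.MP_05b4bd_ag.esc.Symb
import Pool.Agent.MP_05b4bd_ag.esc3.Spec

-- ======== part 0: formerly Pool.Agent.MP_05b4bd_ag.esc.S1b
section MrgPart0

-- ======== part 0: formerly Pool.Agent.MP_05b4bd_ag.esc.Bspec
section MrgPart0

namespace Pool.Agent.MP_05b4bd_ag.ES.Bs

open MvPolynomial HC

section Ser
variable {A B : Type} [CommRing A] [CommRing B]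

noncomputable def T (σ : PowerSeries A) (m n : ℕ) : A :=
  PowerSeries.coeff m (σ ^ (n + 1)) - ((m - n : ℕ) : A) * PowerSeries.coeff (m - n) σ

theorem T_map (φ : A →+* B) (σ : PowerSeries A) (m n : ℕ) :
    T (PowerSeries.map φ σ) m n = φ (T σ m n) := by
  simp only [T, ← map_pow, PowerSeries.coeff_map, map_sub, map_mul, map_natCast]

theorem T_le {σ : PowerSeries A} (h : cc σ = 0) {m n : ℕ} (hm : m ≤ n) : T σ m n = 0 := by
  rw [T, show m - n = 0 by omega, PowerSeries.X_pow_dvd_iff.1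
    (pow_dvd_pow_of_dvd (PowerSeries.X_dvd_iff.2 h) (n + 1)) m (by omega)]
  simp

theorem T_eq (τ : PowerSeries A) (n i : ℕ) : T (PowerSeries.X * τ) (n + 1 + i) n =
    PowerSeries.coeff i (τ ^ (n + 1)) - (i + 1) * PowerSeries.coeff i τ := by
  rw [T, show n + 1 + i - n = i + 1 by omega, mul_pow, add_comm (n + 1) i,
    PowerSeries.coeff_X_pow_mul, PowerSeries.coeff_succ_X_mul]
  push_cast
  rfl

theorem T_one {σ : PowerSeries A} (h : cc σ = 0) (n : ℕ) : T σ (n + 1) n =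
    PowerSeries.coeff 1 σ ^ (n + 1) - PowerSeries.coeff 1 σ := by
  obtain ⟨τ, rfl⟩ := PowerSeries.X_dvd_iff.2 h
  have := T_eq τ n 0
  rw [PowerSeries.coeff_succ_X_mul]
  simpa using this

theorem T_diff {σ σ' : PowerSeries A} (h : cc σ = 0) {i : ℕ} (hi : 1 ≤ i)
    (hd : PowerSeries.X ^ (i + 1) ∣ σ - σ') (n : ℕ) : T σ (n + 1 + i) n = T σ' (n + 1 + i) n +
      ((n + 1) * PowerSeries.coeff 1 σ ^ n - (i + 1)) *
        (PowerSeries.coeff (i + 1) σ - PowerSeries.coeff (i + 1) σ') := by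
  obtain ⟨τ, rfl⟩ := PowerSeries.X_dvd_iff.2 h
  obtain ⟨r, hr⟩ := hd
  obtain rfl : σ' = PowerSeries.X * (τ - PowerSeries.X ^ i * r) := by linear_combination -hr
  have h1 := congrArg (PowerSeries.coeff i)
    ((Commute.all τ (τ - PowerSeries.X ^ i * r)).geom_sum₂_mul (n + 1))
  have h2 : ∀ u : PowerSeries A, PowerSeries.coeff i (PowerSeries.X ^ i * u) = cc u := fun u => by
    simpa using PowerSeries.coeff_X_pow_mul u i 0
  have h3 : cc (τ - PowerSeries.X ^ i * r) = cc τ := by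
    simp [zero_pow (by omega : i ≠ 0)]
  rw [sub_sub_cancel, mul_left_comm, h2, map_mul, map_sum, map_sub] at h1
  simp only [map_mul, map_pow, h3] at h1
  rw [geom_sum₂_self] at h1
  simp only [T_eq, PowerSeries.coeff_succ_X_mul, map_sub, h2,
    PowerSeries.coeff_zero_eq_constantCoeff]
  push_cast at h1
  linear_combination -h1

theorem T_congr {σ σ' : PowerSeries A} (h : cc σ = 0) {i m n : ℕ} (hi : 1 ≤ i)
    (hd : PowerSeries.X ^ (i + 1) ∣ σ - σ') (hm : m ≤ n + i) : T σ m n = T σ' m n := by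
  have h0 : ∀ j ≤ i, PowerSeries.coeff j σ = PowerSeries.coeff j σ' := fun j hj => by
    rw [← sub_eq_zero, ← map_sub]
    exact PowerSeries.X_pow_dvd_iff.1 hd j (by omega)
  have h' : cc σ' = 0 := by simpa [h] using (h0 0 (by omega)).symm
  by_cases h1 : m ≤ n
  · rw [T_le h h1, T_le h' h1]
  obtain ⟨j, rfl⟩ : ∃ j, m = n + 1 + j := ⟨m - (n + 1), by omega⟩
  rcases Nat.eq_zero_or_pos j with rfl | hj
  · rw [add_zero, T_one h, T_one h', h0 1 hi]
  · rw [T_diff h hj ((pow_dvd_pow _ (by omega)).trans hd), h0 (j + 1) (by omega), sub_self, mul_zero,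
      add_zero]

end Ser

section Bt
variable {k : Type} [Field k] {F r s : R2 k}

theorem bt_zero : Bt F 0 := ⟨0, 0, by simp [br]⟩

theorem bt_add (h1 : Bt F r) (h2 : Bt F s) : Bt F (r + s) := by
  obtain ⟨a, b, rfl⟩ := h1
  obtain ⟨a', b', rfl⟩ := h2
  exact ⟨a + a', b + b', by rw [Esc.br_add]; ring⟩

theorem bt_C (c : k) (h : Bt F r) : Bt F (C c * r) := by
  obtain ⟨a, b, rfl⟩ := h
  exact ⟨C c * a, C c * b, by rw [Esc.br_mul, Esc.br_C]; ring⟩

theorem bt_of_C {c : k} (hc : c ≠ 0) (h : Bt F (C c * r)) : Bt F r := by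
  have := bt_C c⁻¹ h
  rwa [← mul_assoc, ← C_mul, inv_mul_cancel₀ hc, C_1, one_mul] at this

theorem bt_sub (h1 : Bt F r) (h2 : Bt F s) : Bt F (r - s) := by
  have := bt_add h1 (bt_C (-1) h2)
  rwa [C_neg, C_1, neg_one_mul, ← sub_eq_add_neg] at this

theorem bt_left (h1 : Bt F (r + s)) (h2 : Bt F s) : Bt F r := by
  simpa using bt_sub h1 h2

theorem bt_sum {ι : Type} (t : Finset ι) {g : ι → R2 k} (h : ∀ i ∈ t, Bt F (g i)) :
    Bt F (∑ i ∈ t, g i) :=
  Finset.sum_induction g (Bt F) (fun _ _ => bt_add) bt_zero h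

def Inv (F : R2 k) (σ : PowerSeries k) (p : ℕ → R2 k) : Prop :=
  ∀ m, Bt F (∑ n ∈ Finset.range (m + 1), C (T σ m n) * p n)

variable {d : ℕ} {f g : R2 k} {σ : PowerSeries k}

theorem CR_C (d : ℕ) (f : R2 k) (c : k) (j w : ℕ) (g : R2 k) :
    CR d f j w (C c * g) = C c * CR d f j w g := by
  induction j using Nat.strong_induction_on generalizing w g with
  | _ j ih =>
  cases j with
  | zero => rw [CR, CR]
  | succ j =>
    rw [CR, CR, mul_left_comm (C c), Finset.mul_sum _ _ (C c)]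
    congr 1
    refine Finset.sum_congr rfl fun e _ => ?_
    rw [mul_left_comm _ (C c), ih _ (by omega), mul_left_comm]

theorem psi_C (d : ℕ) (f : R2 k) (c : k) (g : R2 k) (n : ℕ) :
    psi d f (C c * g) n = C c * psi d f g n := by
  rw [psi, psi, Finset.mul_sum]
  refine Finset.sum_congr rfl fun w _ => ?_
  split_ifs
  · rw [hc_C_mul]
    cases n + w - d with
    | zero => rw [PR, PR, mul_left_comm]
    | succ j =>
      rw [PR, PR, mul_neg, mul_left_comm (C c), Finset.mul_sum _ _ (C c)]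
      congr 2
      refine Finset.sum_congr rfl fun e _ => ?_
      rw [mul_left_comm _ (C c), CR_C, mul_left_comm]
  · rw [mul_zero]

theorem Inv.sep (hG : GradeStmt) (hF : F.IsHomogeneous d) (h0 : coeff 0 f = 0)
    (H : Inv F σ (psi d f g)) {m n0 : ℕ} (hm : n0 ≤ m) :
    Bt F (C (T σ m n0) * psi d f g n0 + ∑ n ∈ (Finset.range (m + 1)).erase n0,
      if n ≡ n0 [MOD d] then C (T σ m n) * psi d f g n else 0) := by
  obtain ⟨h1, h2, h3⟩ := hG k d n0
  have h4 := h2 F _ hF (H m)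
  have h5 : cl d n0 (∑ n ∈ Finset.range (m + 1), C (T σ m n) * psi d f g n) =
      ∑ n ∈ Finset.range (m + 1), C (T σ m n) * cl d n0 (psi d f g n) := by
    ext e
    simp only [h1, coeff_sum, coeff_C_mul]
    split_ifs <;> simp
  simp only [h5, h3 f g _ h0, mul_ite, mul_zero] at h4
  rwa [← Finset.add_sum_erase _ _ (Finset.mem_range.2 (by omega : n0 < m + 1)),
    if_pos (Nat.ModEq.refl _)] at h4

theorem Inv.first (hG : GradeStmt) (hF : F.IsHomogeneous d) (h0 : coeff 0 f = 0) (hσ : cc σ = 0)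
    (H : Inv F σ (psi d f g)) {n : ℕ} (hn : ¬ Bt F (psi d f g n))
    (hl : ∀ n' < n, n' ≡ n [MOD d] → Bt F (psi d f g n')) {i : ℕ} (hi : i < d) :
    T σ (n + 1 + i) n = 0 := by
  by_contra h
  refine hn (bt_of_C h
    (bt_left (H.sep hG hF h0 (by omega : n ≤ n + 1 + i)) (bt_sum _ fun n' hn' => ?_)))
  split_ifs with h2
  · rcases lt_or_gt_of_ne (Finset.mem_erase.1 hn').1 with h3 | h3
    · exact bt_C _ (hl n' h3 h2)
    · have := Nat.le_of_dvd (by omega) ((Nat.modEq_iff_dvd' h3.le).1 h2.symm)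
      rw [T_le hσ (by omega), C_0, zero_mul]
      exact bt_zero
  · exact bt_zero

theorem exists_first {p : ℕ → R2 k} {n : ℕ} (hn : ¬ Bt F (p n)) :
    ∃ n0, n0 ≡ n [MOD d] ∧ ¬ Bt F (p n0) ∧ ∀ n' < n0, n' ≡ n0 [MOD d] → Bt F (p n') := by
  classical
  have h : ∃ n0, n0 ≡ n [MOD d] ∧ ¬ Bt F (p n0) := ⟨n, Nat.ModEq.refl _, hn⟩
  refine ⟨Nat.find h, (Nat.find_spec h).1, (Nat.find_spec h).2, fun n' h1 h2 => ?_⟩
  by_contra h3
  exact Nat.find_min h h1 ⟨h2.trans (Nat.find_spec h).1, h3⟩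

theorem pow_eq_one_of_T (hσ : cc σ = 0) (hz : PowerSeries.coeff 1 σ ≠ 0) {n : ℕ}
    (h : T σ (n + 1 + 0) n = 0) : PowerSeries.coeff 1 σ ^ n = 1 := by
  rw [add_zero, T_one hσ] at h
  exact mul_right_cancel₀ hz (by linear_combination h)

theorem Inv.low [CharZero k] (hG : GradeStmt) (hF : F.IsHomogeneous d) (h0 : coeff 0 f = 0)
    (hσ : cc σ = 0) (hz : PowerSeries.coeff 1 σ ≠ 0) (H : Inv F σ (psi d f g)) {n n' : ℕ}
    (h : ¬ n ≡ n' [MOD d]) (hn : ¬ Bt F (psi d f g n)) (hn' : ¬ Bt F (psi d f g n')) {i : ℕ}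
    (h1 : 1 ≤ i) (hi : i < d) : PowerSeries.coeff (i + 1) σ = 0 := by
  obtain ⟨a, a1, a2, a3⟩ := exists_first (d := d) hn
  obtain ⟨b, b1, b2, b3⟩ := exists_first (d := d) hn'
  have hab : (a : k) ≠ b := fun e => h (a1.symm.trans (Nat.cast_injective e ▸ b1))
  induction i using Nat.strong_induction_on with
  | _ i ih =>
  have hd : PowerSeries.X ^ (i + 1) ∣
      σ - PowerSeries.X * PowerSeries.C (PowerSeries.coeff 1 σ) := by
    refine PowerSeries.X_pow_dvd_iff.2 fun j hj => ?_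
    rcases j with _ | _ | j
    · simpa using hσ
    · simp
    · rw [map_sub, ih (j + 1) (by omega) (by omega) (by omega), PowerSeries.coeff_succ_X_mul]
      simp
  have key : ∀ a, ¬ Bt F (psi d f g a) → (∀ n' < a, n' ≡ a [MOD d] → Bt F (psi d f g n')) →
      ((a : k) - i) * PowerSeries.coeff (i + 1) σ = 0 := fun a a2 a3 => by
    have e1 := H.first hG hF h0 hσ a2 a3 hi
    rw [T_diff hσ h1 hd, pow_eq_one_of_T hσ hz (H.first hG hF h0 hσ a2 a3 (by omega)), T_eq,
      PowerSeries.coeff_succ_X_mul, ← map_pow, PowerSeries.coeff_C, PowerSeries.coeff_C,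
      if_neg (by omega), if_neg (by omega)] at e1
    linear_combination e1
  exact (mul_eq_zero.1 (by linear_combination key a a2 a3 - key b b2 b3 :
    ((a : k) - b) * PowerSeries.coeff (i + 1) σ = 0)).resolve_left (sub_ne_zero.2 hab)

theorem psi_top {w : ℕ} (h2 : w + 2 ≤ d) (hg : DL (w + 1) g) :
    psi d f g (d - (w + 2)) = C ((d : k) / (w + 2 : ℕ)) * hc w g := by
  rw [psi, Finset.sum_eq_single (w + 2), if_pos (by omega),
    show d - (w + 2) + (w + 2) - d = 0 by omega, PR, Nat.add_sub_cancel]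
  · intro v _ hv
    split_ifs with h
    · rw [hg.hc_eq (by omega)]
      cases d - (w + 2) + v - d with
      | zero => rw [PR, mul_zero]
      | succ j =>
        rw [PR, Finset.sum_eq_zero, mul_zero, neg_zero]
        intro e _
        rw [mul_zero, Esc.CR_zero, mul_zero]
    · rfl
  · intro h
    exact (h (Finset.mem_Icc.2 ⟨by omega, h2⟩)).elim

end Bt

section Val
variable {O K L : Type} [CommRing O] [Field K] [Field L] [CharZero K] [CharZero L]
  {ι : O →+* K} {ρ : O →+* L}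

def Rel (ι : O →+* K) (ρ : O →+* L) (u : R2 K) (v : R2 L) : Prop :=
  ∃ w : R2 O, map ι w = u ∧ map ρ w = v

omit [CharZero K] [CharZero L] in
theorem Rel.mul {u u' : R2 K} {v v' : R2 L} (h : Rel ι ρ u v) (h' : Rel ι ρ u' v') :
    Rel ι ρ (u * u') (v * v') := by
  obtain ⟨a, rfl, rfl⟩ := h
  obtain ⟨b, rfl, rfl⟩ := h'
  exact ⟨a * b, map_mul _ _ _, map_mul _ _ _⟩

omit [CharZero K] [CharZero L] in
theorem Rel.sum {α : Type} (t : Finset α) {u : α → R2 K} {v : α → R2 L}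
    (h : ∀ i ∈ t, Rel ι ρ (u i) (v i)) : Rel ι ρ (∑ i ∈ t, u i) (∑ i ∈ t, v i) := by
  choose! w h1 h2 using h
  exact ⟨∑ i ∈ t, w i, by rw [map_sum]; exact Finset.sum_congr rfl h1,
    by rw [map_sum]; exact Finset.sum_congr rfl h2⟩

omit [CharZero K] [CharZero L] in
theorem Rel.hc {u : R2 K} {v : R2 L} (h : Rel ι ρ u v) (n : ℕ) : Rel ι ρ (hc n u) (hc n v) := by
  obtain ⟨a, rfl, rfl⟩ := h
  exact ⟨HC.hc n a, (hc_map _ _ _).symm, (hc_map _ _ _).symm⟩

omit [CharZero K] [CharZero L] in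
theorem rel_C (a : O) : Rel ι ρ (C (ι a)) (C (ρ a)) := ⟨C a, map_C _ _, map_C _ _⟩

omit [CharZero K] in
theorem rel_rat (hu : ∀ a, ρ a ≠ 0 → IsUnit a) (q : ℚ) : Rel ι ρ (C (q : K)) (C (q : L)) := by
  obtain ⟨b, hb⟩ := (hu (q.den : O) (by simp)).exists_right_inv
  have h1 := congrArg ι hb
  have h2 := congrArg ρ hb
  rw [map_mul, map_natCast, map_one] at h1 h2
  convert rel_C (ι := ι) (ρ := ρ) (q.num * b) using 2
  · rw [map_mul, map_intCast, Rat.cast_def, div_eq_mul_inv, eq_inv_of_mul_eq_one_right h1]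
  · rw [map_mul, map_intCast, Rat.cast_def, div_eq_mul_inv, eq_inv_of_mul_eq_one_right h2]

theorem rel_CR (hu : ∀ a, ρ a ≠ 0 → IsUnit a) {f : R2 K} {f' : R2 L} (hf : Rel ι ρ f f') (d j w : ℕ)
    {g : R2 K} {g' : R2 L} (hg : Rel ι ρ g g') : Rel ι ρ (CR d f j w g) (CR d f' j w g') := by
  induction j using Nat.strong_induction_on generalizing w g g' with
  | _ j ih =>
  cases j with
  | zero => rwa [CR, CR]
  | succ j =>
    rw [CR, CR]
    refine Rel.mul ?_ (Rel.sum _ fun e _ => Rel.mul ?_ (ih _ (by omega) _ ((hf.hc _).mul hg)))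
    · exact_mod_cast rel_rat (ι := ι) hu (((j + 1 : ℚ) - w) / (d * (j + 1)))
    · exact_mod_cast rel_rat (ι := ι) hu (e + 1 : ℚ)

theorem rel_psi (hu : ∀ a, ρ a ≠ 0 → IsUnit a) {f : R2 K} {f' : R2 L} (hf : Rel ι ρ f f') (d n : ℕ)
    {g : R2 K} {g' : R2 L} (hg : Rel ι ρ g g') : Rel ι ρ (psi d f g n) (psi d f' g' n) := by
  refine Rel.sum _ fun w _ => ?_
  split_ifs
  · cases n + w - d with
    | zero =>
      rw [PR, PR]
      refine Rel.mul ?_ (hg.hc _)
      simpa using rel_rat (ι := ι) hu ((d : ℚ) / w)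
    | succ j =>
      rw [PR, PR, ← neg_mul, ← neg_mul, ← C_neg, ← C_neg]
      refine Rel.mul ?_ (Rel.sum _ fun e _ => Rel.mul ?_ (rel_CR hu hf _ _ _ ((hf.hc _).mul (hg.hc _))))
      · have := rel_rat (ι := ι) hu (-(1 / (j + 1 : ℚ)))
        push_cast at this
        exact this
      · exact_mod_cast rel_rat (ι := ι) hu (e + 1 : ℚ)
  · exact ⟨0, map_zero _, map_zero _⟩

theorem core (hG : GradeStmt) (hι : Function.Injective ι) (hu : ∀ a, ρ a ≠ 0 → IsUnit a)
    (hv : ∀ c : K, (∃ a, ι a = c) ∨ ∃ a, ρ a = 0 ∧ ι a * c = 1) {d ν : ℕ} {f g F : R2 K}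
    {f' g' F' : R2 L} {σ : PowerSeries K} (hb : ∀ r r', Rel ι ρ r r' → Bt F r → Bt F' r')
    (hF : F.IsHomogeneous d) (hF' : F'.IsHomogeneous d) (h0 : coeff 0 f = 0) (h0' : coeff 0 f' = 0)
    (hf : Rel ι ρ f f') (hg : Rel ι ρ g g') (hσ : cc σ = 0) (hν : 1 ≤ ν)
    (hz : PowerSeries.coeff 1 σ ^ ν = 1) (H : Inv F σ (psi d f g))
    (hl : ∀ i, 1 ≤ i → i < d → PowerSeries.coeff (i + 1) σ = 0) {n0 : ℕ} (hn : n0 < d)
    (hn' : ¬ Bt F' (psi d f' g' n0)) : Rule d (orderOf (PowerSeries.coeff 1 σ)) F' (psi d f' g') := by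
  have hψ := fun n => rel_psi hu hf d n hg
  have hz0 : PowerSeries.coeff 1 σ ≠ 0 := fun h => by
    rw [h, zero_pow (by omega)] at hz
    exact zero_ne_one hz
  have hz1 := pow_eq_one_of_T hσ hz0 (H.first hG hF h0 hσ (fun h => hn' (hb _ _ (hψ n0) h))
    (fun n' h1 h2 => absurd (Nat.ModEq.eq_of_lt_of_lt h2 (by omega) hn) h1.ne) (by omega : 0 < d))
  have hint : ∀ i, ∃ a, ι a = PowerSeries.coeff i σ := by
    intro i
    induction i using Nat.strong_induction_on with
    | _ i ih =>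
    rcases i with _ | _ | i
    · exact ⟨0, by simpa using hσ.symm⟩
    · rcases hv (PowerSeries.coeff 1 σ) with h | ⟨a, h1, h2⟩
      · exact h
      have h3 : a ^ ν = 1 := hι (by
        have := congrArg (· ^ ν) h2
        simpa only [mul_pow, hz, mul_one, one_pow, map_pow, map_one] using this)
      have h4 := congrArg ρ h3
      rw [map_pow, h1, zero_pow (by omega), map_one] at h4
      exact absurd h4 zero_ne_one
    by_cases hi : i + 1 = n0
    · exact ⟨0, by rw [hl _ (by omega) (by omega), map_zero]⟩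
    choose! s hs using ih
    let σ0 : PowerSeries O := PowerSeries.mk fun j => if j < i + 1 + 1 then s j else 0
    have hd : PowerSeries.X ^ (i + 1 + 1) ∣ σ - PowerSeries.map ι σ0 :=
      PowerSeries.X_pow_dvd_iff.2 fun j hj => by
        rw [map_sub, PowerSeries.coeff_map, PowerSeries.coeff_mk, if_pos hj, hs j hj, sub_self]
    have h1 := H.sep hG hF h0 (by omega : n0 ≤ n0 + 1 + (i + 1))
    obtain ⟨r', hr⟩ : ∃ r', Rel ι ρ (∑ n ∈ (Finset.range (n0 + 1 + (i + 1) + 1)).erase n0,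
        if n ≡ n0 [MOD d] then C (T σ (n0 + 1 + (i + 1)) n) * psi d f g n else 0) r' :=
      ⟨_, Rel.sum _ (v := fun n => if n ≡ n0 [MOD d] then
        C (ρ (T σ0 (n0 + 1 + (i + 1)) n)) * psi d f' g' n else 0) fun n h2 => by
          split_ifs with h3
          · have h4 : n0 < n := by
              by_contra h5
              exact (Finset.mem_erase.1 h2).1 (h3.eq_of_lt_of_lt (by omega) hn)
            rw [T_congr hσ (by omega) hd (by omega), T_map]
            exact (rel_C _).mul (hψ n)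
          · exact ⟨0, map_zero _, map_zero _⟩⟩
    obtain ⟨a, ha⟩ : ∃ a, ι a = T σ (n0 + 1 + (i + 1)) n0 := by
      refine (hv _).resolve_right fun ⟨a, h2, h3⟩ => hn' ?_
      have h4 := bt_C (ι a) h1
      rw [mul_add, ← mul_assoc, ← C_mul, h3, C_1, one_mul] at h4
      obtain ⟨u, u1, u2⟩ := hψ n0
      obtain ⟨v, v1, -⟩ := hr
      exact hb _ _ ⟨u + C a * v, by rw [map_add, map_mul, map_C, u1, v1],
        by rw [map_add, map_mul, map_C, u2, h2, C_0, zero_mul, add_zero]⟩ h4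
    rw [T_diff hσ (by omega) hd, T_map, hz1, PowerSeries.coeff_map, PowerSeries.coeff_mk,
      if_neg (by omega), map_zero] at ha
    obtain ⟨b, hb⟩ := (hu ((n0 : O) - (i + 1 : ℕ)) (by
      rw [map_sub, map_natCast, map_natCast, sub_ne_zero]
      exact fun e => hi (Nat.cast_injective e).symm)).exists_right_inv
    have h5 := congrArg ι hb
    rw [map_mul, map_sub, map_natCast, map_natCast, map_one] at h5
    refine ⟨(a - T σ0 (n0 + 1 + (i + 1)) n0) * b, ?_⟩
    rw [map_mul, map_sub, ha]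
    linear_combination PowerSeries.coeff (i + 1 + 1) σ * h5
  choose s hs using hint
  obtain ⟨σ0, rfl⟩ : ∃ σ0, σ = PowerSeries.map ι σ0 := ⟨PowerSeries.mk s, by ext; simp [hs]⟩
  have H' : Inv F' (PowerSeries.map ρ σ0) (psi d f' g') := fun m => hb _ _ (Rel.sum _ fun n _ => by
    rw [T_map, T_map]
    exact (rel_C _).mul (hψ n)) (H m)
  have hσ0 : cc σ0 = 0 := hι (hσ.trans (map_zero ι).symm)
  have hσ1 : cc (PowerSeries.map ρ σ0) = 0 := (congrArg ρ hσ0).trans (map_zero ρ)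
  rw [PowerSeries.coeff_map] at hz ⊢
  set z := PowerSeries.coeff 1 σ0 with hzd
  have h1 : z ^ ν = 1 := hι (by rw [map_pow, hz, map_one])
  intro n h2 h3
  have h4 := pow_eq_one_of_T (σ := PowerSeries.map ρ σ0) hσ1 (fun h => by
    have := congrArg ρ h1
    rw [PowerSeries.coeff_map] at h
    rw [map_pow, h, zero_pow (by omega), map_one] at this
    exact zero_ne_one this) (H'.first hG hF' h0' hσ1 h2 h3 (by omega : 0 < d))
  rw [PowerSeries.coeff_map, ← map_pow] at h4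
  have h5 := mul_geom_sum (z ^ n) ν
  rw [← pow_mul, mul_comm n ν, pow_mul, h1, one_pow, sub_self] at h5
  have h6 := (hu (∑ i ∈ Finset.range ν, (z ^ n) ^ i) (by
    rw [map_sum, Finset.sum_congr rfl fun i _ => (map_pow ρ (z ^ n) i).trans (by rw [h4, one_pow])]
    simp
    omega)).mul_left_eq_zero.1 h5
  rw [orderOf_dvd_iff_pow_eq_one, ← map_pow, sub_eq_zero.1 h6, map_one]

omit [CharZero K] [CharZero L] in
theorem bt_red (hι : Function.Injective ι) {E : Type} [Field E] (φ : E →+* O) (F : R2 E)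
    {r : R2 K} {r' : R2 L} (h : Rel ι ρ r r') (hr : Bt (map (ι.comp φ) F) r) :
    Bt (map (ρ.comp φ) F) r' := by
  classical
  obtain ⟨r, rfl, rfl⟩ := h
  obtain ⟨u, w, h⟩ := hr
  let := φ.toAlgebra
  let := (ι.comp φ).toAlgebra
  let l : O →ₗ[E] K := { ι with map_smul' := fun c a => map_mul ι (φ c) a }
  obtain ⟨π, hπ⟩ := l.exists_leftInverse_of_injective (LinearMap.ker_eq_bot.2 hι)
  have h1 : ∀ a, π (ι a) = a := fun a => LinearMap.congr_fun hπ a
  have h2 : ∀ c a, π (a * ι (φ c)) = π a * φ c := fun c a => by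
    rw [mul_comm, mul_comm (π a)]
    exact π.map_smul c a
  have h3 : ∀ (u : R2 K) (v : R2 E), cm π.toAddMonoidHom (u * map (ι.comp φ) v) =
      cm π.toAddMonoidHom u * map φ v := fun u v => by
    ext m
    simp only [coeff_cm, coeff_mul, map_sum, coeff_map]
    exact Finset.sum_congr rfl fun _ _ => h2 _ _
  have h4 := congrArg (cm π.toAddMonoidHom) h
  have h5 : cm π.toAddMonoidHom (map ι r) = r := by
    ext m
    rw [coeff_cm, coeff_map]
    exact h1 _
  have h6 : map (ι.comp φ) F - 1 = map (ι.comp φ) (F - 1) := by rw [map_sub, map_one]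
  rw [h5, h6, mul_comm _ w, cm_add, br, pderiv_map, pderiv_map, cm_sub, h3, h3, h3, cm_pderiv,
    cm_pderiv] at h4
  refine ⟨map ρ (cm π.toAddMonoidHom u), map ρ (cm π.toAddMonoidHom w), ?_⟩
  rw [h4]
  simp only [br, map_add, map_sub, map_mul, map_one, pderiv_map, map_map]
  ring

omit [CharZero K] [CharZero L] in
theorem clear (hv : ∀ c : K, (∃ a, ι a = c) ∨ ∃ a, ρ a = 0 ∧ ι a * c = 1) (u : R2 K) :
    ∃ b, ι b ≠ 0 ∧ ∃ v, map ι v = C (ι b) * u := by
  induction u using MvPolynomial.induction_on' with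
  | monomial m c =>
    rcases hv c with ⟨a, rfl⟩ | ⟨a, -, h⟩
    · exact ⟨1, by simp, monomial m a, by simp⟩
    · exact ⟨a, left_ne_zero_of_mul_eq_one h, monomial m 1, by simp [C_mul_monomial, h]⟩
  | add u v hu hv =>
    obtain ⟨a, ha, u', hu⟩ := hu
    obtain ⟨b, hb, v', hv⟩ := hv
    refine ⟨a * b, by simp [ha, hb], C b * u' + C a * v', ?_⟩
    simp only [map_add, map_mul, map_C, hu, hv]
    ring

end Val

end Pool.Agent.MP_05b4bd_ag.ES.Bs

namespace Pool.Agent.MP_05b4bd_ag.ES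

open MvPolynomial HC Bs

theorem bspecS (hG : GradeStmt) : BspecStmt := by
  intro k _ _ _ d f g1 σ ν hd H hg hσ hν hz hI ⟨n, n', h1, h2, h3⟩ a b hab hab'
  classical
  have hz0 : PowerSeries.coeff 1 σ ≠ 0 := fun h => by
    rw [h, zero_pow (by omega)] at hz
    exact zero_ne_one hz
  have hl := fun i => Inv.low (i := i) hG (hc_hom d f) H.1 hσ hz0 hI h1 h2 h3
  let m0 : Fin 2 →₀ ℕ := Finsupp.single 0 a + Finsupp.single 1 b
  have hm0 : m0.degree = a + b := by simp [m0]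
  let s : Mo1 d → MvPolynomial (Mo1 d) ℚ := fun m =>
    if m.1.degree = d then X m else if m0 = m.1 then 1 else 0
  have := RingHom.ker_isPrime (aeval s : MvPolynomial (Mo1 d) ℚ →ₐ[ℚ] _)
  obtain ⟨O, τ, t1, t2⟩ := exists_val (K := k) (ψ := (aeval fun m : Mo1 d => coeff m.1 f).toRingHom)
    (algebraicIndependent_iff_injective_aeval.1 H.2.2) (RingHom.ker (aeval s : MvPolynomial (Mo1 d) ℚ →ₐ[ℚ] _))
  simp only [RingHom.mem_ker] at t2
  let L := IsLocalRing.ResidueField O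
  let ρ := IsLocalRing.residue O
  let ι := algebraMap O k
  have hι : Function.Injective ι := Subtype.val_injective
  have hu : ∀ c, ρ c ≠ 0 → IsUnit c := fun c => (IsLocalRing.residue_ne_zero_iff_isUnit c).1
  have hv : ∀ c : k, (∃ a, ι a = c) ∨ ∃ a, ρ a = 0 ∧ ι a * c = 1 := fun c => by
    by_cases h : c ∈ O
    · exact .inl ⟨⟨c, h⟩, rfl⟩
    have h0 : c ≠ 0 := fun e => h (e ▸ zero_mem O)
    refine .inr ⟨⟨c⁻¹, (O.mem_or_inv_mem c).resolve_left h⟩, ?_, inv_mul_cancel₀ h0⟩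
    by_contra h4
    obtain ⟨e, he⟩ := (hu _ h4).exists_right_inv
    have : c⁻¹ * e = 1 := congrArg ι he
    exact h (by rw [show c = e by field_simp at this; exact this.symm]; exact e.2)
  have : CharZero L := ⟨fun x y h => by
    have : ρ (τ ((x : MvPolynomial (Mo1 d) ℚ) - y)) = 0 := by
      rw [map_sub, map_sub, map_natCast, map_natCast, map_natCast, map_natCast, h, sub_self]
    rw [t2, map_sub, map_natCast, map_natCast, sub_eq_zero] at this
    exact Nat.cast_injective this⟩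
  let e : Fin (d + 1) → Mo1 d := fun j => ⟨Finsupp.single (0 : Fin 2) (d - (j : ℕ)) +
    Finsupp.single 1 (j : ℕ), by rw [deg2]; simp; omega⟩
  have hed : ∀ j, (e j).1.degree = d := fun j => by rw [deg2]; simp [e]; omega
  have he : Function.Injective e := fun i j h => Fin.ext (by
    simpa [e] using DFunLike.congr_fun (congrArg Subtype.val h) 1)
  have hre : ∀ p : MvPolynomial (Fin (d + 1)) ℚ, ρ (τ (rename e p)) = 0 → p = 0 := fun p hp => by
    rw [t2, aeval_rename, show s ∘ e = X ∘ e from funext fun j => if_pos (hed j)] at hp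
    exact rename_injective e he (by rw [map_zero, rename_eq_aeval]; exact hp)
  let E := FractionRing (MvPolynomial (Fin (d + 1)) ℚ)
  have hU : ∀ y : nonZeroDivisors (MvPolynomial (Fin (d + 1)) ℚ),
      IsUnit ((τ.comp (rename e).toRingHom) y) := fun y =>
    hu _ fun h => nonZeroDivisors.ne_zero y.2 (hre _ h)
  let φ : E →+* O := IsLocalization.lift hU
  let F0 : R2 E := ∑ j : Fin (d + 1), monomial (e j).1 (algebraMap (MvPolynomial (Fin (d + 1)) ℚ) E (X j))
  let f0 : R2 O := syn O d fun m => τ (X m)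
  have hf0 : map ι f0 = f := by
    rw [eq_syn H.2.1 (mem_mm_one.2 H.1)]
    ext m
    rw [coeff_map, coeff_syn, coeff_syn]
    split_ifs
    · exact (t1 _).trans (aeval_X _ _)
    · exact map_zero _
  have hF0 : map φ F0 = hc d f0 := by
    conv_rhs => rw [hom_eq_sum (hc_hom d f0), Finset.sum_range]
    rw [map_sum]
    refine Finset.sum_congr rfl fun j _ => ?_
    have h4 := co_hc (d - j) j f0
    rw [show d - j + j = d by omega] at h4
    rw [map_monomial, IsLocalization.lift_eq, h4, HC.co, coeff_syn, dif_pos (e j).2,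
      X_pow_eq_monomial, X_pow_eq_monomial, monomial_mul, C_mul_monomial]
    simp [e]
  have hF1 : map (ι.comp φ) F0 = hc d f := by rw [← map_map, hF0, ← hc_map, hf0]
  have hF2 : map (ρ.comp φ) F0 = hc d (map ρ f0) := by rw [← map_map, hF0, ← hc_map]
  have hf1 : map ρ f0 = hc d (map ρ f0) + X 0 ^ a * X 1 ^ b := by
    ext m
    rw [coeff_add, coeff_hc, X_pow_eq_monomial, X_pow_eq_monomial, monomial_mul, coeff_monomial,
      mul_one]
    change _ = _ + if m0 = m then 1 else 0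
    by_cases h4 : m.degree = d
    · rw [if_pos h4, if_neg fun h => by rw [← h] at h4; omega, add_zero]
    rw [if_neg h4, zero_add, coeff_map, coeff_syn]
    by_cases h5 : m0 = m
    · rw [if_pos h5, dif_pos (by rw [← h5]; omega), ← sub_eq_zero, ← map_one ρ, ← map_one τ,
        ← map_sub, ← map_sub, t2, map_sub, aeval_X, map_one]
      simp [s, h4, h5]
    · rw [if_neg h5]
      split_ifs
      · rw [t2, aeval_X]
        simp [s, h4, h5]
      · exact map_zero _
  have hI' : IndF d (hc d (map ρ f0)) := ⟨hc_hom _ _, algebraicIndependent_iff.2 fun p hp =>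
    hre p (by
      rw [← hp]
      refine congrFun (congrArg DFunLike.coe (?_ : (ρ.comp τ).comp (rename e).toRingHom =
        (aeval _).toRingHom)) p
      refine ringHom_ext' (RingHom.ext_rat _ _) fun j => ?_
      have h4 := co_hc (d - j) j (map ρ f0)
      rw [show d - j + j = d by omega] at h4
      simp only [AlgHom.toRingHom_eq_coe, RingHom.coe_coe, aeval_X, h4, RingHom.comp_apply, rename_X]
      rw [co_map, HC.co, coeff_syn, dif_pos (e j).2])⟩
  obtain ⟨β, hβ, v, hv1⟩ := clear hv g1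
  obtain ⟨ε, g0, rfl, hg0⟩ := content ρ v
  rw [map_mul, map_C] at hv1
  have hε : ι ε ≠ 0 := fun h => h2 (bt_of_C hβ (by
    rw [← psi_C, ← hv1, psi_C, h, C_0, zero_mul]; exact bt_zero))
  have hg1 : DL (d - 1) (map ρ g0) := fun m hm => by
    have := DL.of_C_mul hε (hv1 ▸ hg.C_mul (ι β)) m hm
    rw [coeff_map] at this ⊢
    rw [hι (this.trans (map_zero ι).symm), map_zero]
  obtain ⟨w, hw, hw0⟩ := Esc.exists_top hg0
  have hw1 := Esc.lt_of_hc_ne hg1 hw0
  refine ⟨L, inferInstance, inferInstance, _, _, hI', hg1, hg0, ?_⟩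
  rw [← hf1]
  refine core (g := map ι g0) (n0 := d - (w + 2)) hG hι hu hv (fun r r' h hr => ?_) (hc_hom d f)
    (hc_hom _ _) H.1 ?_ ⟨f0, hf0, rfl⟩ ⟨g0, rfl, rfl⟩ hσ hν hz (fun m => bt_of_C hε ?_) hl
    (by omega) fun h => hw0 ?_
  · rw [← hF2]
    exact bt_red hι φ F0 h (hF1 ▸ hr)
  · rw [coeff_map, mem_mm_one.1 (syn_mm _), map_zero]
  · have := bt_C (ι β) (hI m)
    rw [Finset.mul_sum] at this ⊢
    convert this using 2 with n
    rw [mul_left_comm, ← psi_C, hv1, psi_C, mul_left_comm]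
    rfl
  · rw [psi_top (by omega) hw] at h
    obtain ⟨d, rfl⟩ : ∃ e, d = e + 2 := ⟨d - 2, by omega⟩
    exact (Esc.nz_full (by omega) hI'.1 hI'.ci (hc_hom _ _) (bt_of_C (div_ne_zero
      (Nat.cast_ne_zero.2 (by omega)) (Nat.cast_ne_zero.2 (by omega))) h)).1 (by omega)

end Pool.Agent.MP_05b4bd_ag.ES

end MrgPart0

-- ======== part 1: formerly Pool.Agent.MP_05b4bd_ag.esc.S1b
section MrgPart1

/-! Escaping centres: an inverse integrating factor of maximal order cannot exist. -/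

namespace Pool.Agent.MP_05b4bd_ag.ES

open PowerSeries LaurentSeries HC

namespace S1b

section Lin
variable {k L : Type} [Field k] [Field L] (κ : k →+* L) (Λ : AddSubgroup L)

theorem mul_mem (hΛ : ∀ c, ∀ z ∈ Λ, κ c * z ∈ Λ) (g : k⟦X⟧) {f : L⸨X⸩} {p : ℤ}
    (h : ∀ m ≤ p, f.coeff m ∈ Λ) : (coeL L (map κ g) * f).coeff p ∈ Λ := by
  obtain ⟨m0, hm⟩ := exists_low f
  have hm' : ∀ n < min m0 p, f.coeff n = 0 := fun n hn => hm n (lt_of_lt_of_le hn (min_le_left _ _))
  obtain ⟨n, hn⟩ : ∃ n : ℕ, p = min m0 p + n :=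
    ⟨(p - min m0 p).toNat, by have := min_le_right m0 p; omega⟩
  rw [hn, coeff_coeL_mul _ _ hm']
  refine Λ.sum_mem fun i _ => ?_
  rw [coeff_map]
  exact hΛ _ _ (h _ (by omega))

theorem all_mem [CharZero k] (hΛ : ∀ c, ∀ z ∈ Λ, κ c * z ∈ Λ) (μ : ℤ) {g : k⟦X⟧} (hg : cc g ≠ 0)
    {ξ : L⸨X⸩} (hμ : ξ.coeff μ ∈ Λ)
    (h : ∀ p, (wL L μ * coeL L (map κ g) * thL L ξ -
      thL L (wL L μ * coeL L (map κ g)) * ξ).coeff p ∈ Λ) (p : ℤ) : ξ.coeff p ∈ Λ := by
  obtain ⟨g1, h1⟩ := eq_C_add_X_mul g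
  obtain ⟨η, hη⟩ : ∃ η, η = thL L ξ - cL L μ * ξ := ⟨_, rfl⟩
  have h2 : ∀ m, η.coeff m = κ (m - μ) * ξ.coeff m := fun m => by
    rw [hη, HahnSeries.coeff_sub, coeff_thL, coeff_cL_mul, map_sub, map_intCast, map_intCast]
    ring
  have h3 : wL L μ * coeL L (map κ g) * thL L ξ - thL L (wL L μ * coeL L (map κ g)) * ξ =
      wL L μ * (cL L (κ (cc g)) * η + wL L 1 * (coeL L (map κ g1) * η -
        coeL L (map κ (dX k g)) * ξ)) := by
    have e1 : coeL L (map κ g) = cL L (κ (cc g)) + wL L 1 * coeL L (map κ g1) := by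
      conv_lhs => rw [h1]
      rw [map_add, map_mul, map_C, map_X, map_add, map_mul, coeL_C, coeL_X]
    rw [thL_wL_mul, thL_coeL, thP_map, thP_apply, map_mul, map_mul, map_X, coeL_X, hη,
      intCast_eq_cL, e1]
    ring
  have step : ∀ q, (∀ m < q, ξ.coeff m ∈ Λ) → ξ.coeff q ∈ Λ := by
    intro q ih
    by_cases hq : q = μ
    · rw [hq]; exact hμ
    have h4 := h (q + μ)
    rw [h3, coeff_wL_mul, add_sub_cancel_right, HahnSeries.coeff_add, coeff_cL_mul, coeff_wL_mul,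
      HahnSeries.coeff_sub] at h4
    have h5 := mul_mem κ Λ hΛ g1 (f := η) (p := q - 1) fun m hm => by
      rw [h2]; exact hΛ _ _ (ih m (by omega))
    have h6 := mul_mem κ Λ hΛ (dX k g) (f := ξ) (p := q - 1) fun m hm => ih m (by omega)
    have h7 := hΛ ((cc g * (q - μ))⁻¹) _ ((Λ.add_mem_cancel_right (Λ.sub_mem h5 h6)).1 h4)
    have h8 : cc g * ((q : k) - μ) ≠ 0 := mul_ne_zero hg (by
      rw [sub_ne_zero]; exact fun e => hq (Int.cast_injective e))
    rwa [h2, ← mul_assoc (κ (cc g)), ← map_mul, ← mul_assoc, ← map_mul, inv_mul_cancel₀ h8, map_one,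
      one_mul] at h7
  obtain ⟨m0, hm⟩ := exists_low ξ
  have key : ∀ n : ℕ, ∀ m < m0 + n, ξ.coeff m ∈ Λ := by
    intro n
    induction n with
    | zero => exact fun m h => by rw [hm m (by omega)]; exact Λ.zero_mem
    | succ n ih => exact fun m h => step m fun j hj => ih j (by omega)
  exact key ((p - m0).toNat + 1) p (by omega)

/-- The span of the image of `D` and two elements. -/
def lam (D : L →+ L) (u v : L) : AddSubgroup L where
  carrier := {z | ∃ η α β, z = D η + κ α * u + κ β * v}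
  zero_mem' := ⟨0, 0, 0, by simp⟩
  add_mem' := by
    rintro _ _ ⟨η, α, β, rfl⟩ ⟨η', α', β', rfl⟩
    exact ⟨η + η', α + α', β + β', by simp only [map_add]; ring⟩
  neg_mem' := by
    rintro _ ⟨η, α, β, rfl⟩
    exact ⟨-η, -α, -β, by simp only [map_neg]; ring⟩

theorem lam_smul {D : L →+ L} (hD : IsDer D) (hκ : ∀ c, D (κ c) = 0) (u v : L) (c : k) :
    ∀ z ∈ lam κ D u v, κ c * z ∈ lam κ D u v := by
  rintro _ ⟨η, α, β, rfl⟩
  exact ⟨κ c * η, c * α, c * β, by rw [hD.const_mul (hκ c), map_mul, map_mul]; ring⟩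

theorem rel3 (α β : Fin 3 → k) :
    ∃ l : Fin 3 → k, l ≠ 0 ∧ ∑ i, l i * α i = 0 ∧ ∑ i, l i * β i = 0 := by
  let φ : (Fin 3 → k) →ₗ[k] (Fin 2 → k) := Matrix.mulVecLin (Matrix.of ![α, β])
  obtain ⟨l, h1, h2⟩ := (Submodule.ne_bot_iff _).1
    (LinearMap.ker_ne_bot_of_finrank_lt (f := φ) (by simp))
  have h3 := LinearMap.mem_ker.1 h1
  refine ⟨l, h2, ?_, ?_⟩
  · simpa [φ, Matrix.mulVec, dotProduct, mul_comm] using congrFun h3 0
  · simpa [φ, Matrix.mulVec, dotProduct, mul_comm] using congrFun h3 1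

end Lin

theorem fin (h3 : IlStmt) (h4 : EvbStmt) (h5 : NzStmt) (h6 : GenTopStmt) {k L : Type} [Field k]
    [CharZero k] [IsAlgClosed k] [Field L] {d : ℕ} (I : Inf k d L) (hd : 6 ≤ d) (u v : L)
    (h : ∀ m, (cc I.Xi).coeff m ∈ lam I.κ I.D u v) : False := by
  obtain ⟨hF, hC, hx, hy, -⟩ := h6 k d I.f (by omega) I.gen
  have hD := I.cv.1
  have hκ := I.cv.2.1
  have hI := h3 k L d I _ (by omega) (lam_smul I.κ hD hκ u v) (fun η => ⟨η, 0, 0, by simp⟩)
    (fun m _ => h m) 2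
  have hn : ¬ d ∣ 2 + 2 := fun e => by have := Nat.le_of_dvd (by norm_num) e; omega
  have hX : ∀ i j : Fin 2, (MvPolynomial.X i * MvPolynomial.X j : R2 k).IsHomogeneous 2 :=
    fun i j => (MvPolynomial.isHomogeneous_X k i).mul (MvPolynomial.isHomogeneous_X k j)
  obtain ⟨η0, α0, β0, e0⟩ := hI _ (hX 0 0) hn
  obtain ⟨η1, α1, β1, e1⟩ := hI _ (hX 0 1) hn
  obtain ⟨η2, α2, β2, e2⟩ := hI _ (hX 1 1) hn
  obtain ⟨l, hl, ha, hb⟩ := rel3 ![α0, α1, α2] ![β0, β1, β2]
  simp only [Fin.sum_univ_three, Matrix.cons_val_zero, Matrix.cons_val_one, Matrix.cons_val_two,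
    Matrix.head_cons, Matrix.tail_cons] at ha hb
  have ha' := congrArg I.κ ha
  have hb' := congrArg I.κ hb
  simp only [map_add, map_mul, map_zero] at ha' hb'
  obtain ⟨q, hq⟩ : ∃ q : R2 k, q = MvPolynomial.C (l 0) * (MvPolynomial.X 0 * MvPolynomial.X 0) +
    MvPolynomial.C (l 1) * (MvPolynomial.X 0 * MvPolynomial.X 1) +
    MvPolynomial.C (l 2) * (MvPolynomial.X 1 * MvPolynomial.X 1) := ⟨_, rfl⟩
  have hC' : ∀ c, evp I.κ (cc I.x0) (cc I.y0) (MvPolynomial.C c) = I.κ c := fun c =>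
    MvPolynomial.eval₂Hom_C _ _ c
  have hq1 : evp I.κ (cc I.x0) (cc I.y0) q =
      I.D (I.κ (l 0) * η0 + I.κ (l 1) * η1 + I.κ (l 2) * η2) := by
    rw [hq, map_add, map_add, map_mul _ (MvPolynomial.C _), map_mul _ (MvPolynomial.C _),
      map_mul _ (MvPolynomial.C _), e0, e1, e2, hC', hC', hC', map_add, map_add,
      hD.const_mul (hκ _), hD.const_mul (hκ _), hD.const_mul (hκ _)]
    linear_combination u * ha' + v * hb'
  have hq2 : q.IsHomogeneous 2 := by
    rw [hq]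
    exact (((hX 0 0).C_mul _).add ((hX 0 1).C_mul _)).add ((hX 1 1).C_mul _)
  have hq3 := (h5 k d _ (by omega) hF.1 hC 2 q hq2
    (h4 k L I.κ I.D d _ _ _ (by omega) hF.1 hC hx hy I.cv I.gb q _ hq1)).1 (by omega)
  rw [hq] at hq3
  have z0 := congrArg (MvPolynomial.eval ![1, 0]) hq3
  have z2 := congrArg (MvPolynomial.eval ![0, 1]) hq3
  have z1 := congrArg (MvPolynomial.eval ![1, 1]) hq3
  simp at z0 z1 z2
  refine hl (funext fun i => ?_)
  fin_cases i
  · exact z0
  · simpa [z0, z2] using z1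
  · exact z2

section Iif
variable {S : Type} [CommRing S] {D : S →+ S} {a b J : S⟦X⟧}

theorem cw_const (hD : IsDer D) {c : S} (hc : D c = 0) (J : S⟦X⟧) :
    cw D (C c * J) = C c * cw D J :=
  hD.coefw.const_mul (by rw [cw_C, hc, map_zero]) J

theorem dX_const (c : S) (J : S⟦X⟧) : dX S (C c * J) = C c * dX S J :=
  isDer_dX.const_mul (dX_C c) J

theorem strip [IsDomain S] (hD : IsDer D) {c : S} (hc : D c = 0) (h : IIF D a b (C c * J)) :
    IIF D a b J := by
  obtain ⟨h1, h2⟩ := h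
  refine ⟨right_ne_zero_of_mul h1, mul_left_cancel₀ (left_ne_zero_of_mul h1) ?_⟩
  rw [cw_const hD hc, dX_const] at h2
  linear_combination h2

theorem iif_eq (h : IIF D a (X * b) J) :
    J * (cw D a - b - thP S b) = cw D J * a - thP S J * b := by
  have h2 := h.2
  rw [isDer_dX X b, dX_X] at h2
  rw [thP_apply, thP_apply]
  linear_combination h2

theorem thP_X_pow_mul (n : ℕ) (u : S⟦X⟧) :
    thP S (X ^ n * u) = X ^ n * ((n : S⟦X⟧) * u + thP S u) := by
  induction n with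
  | zero => simp
  | succ n ih =>
    rw [pow_succ', mul_assoc, isDer_thP X, ih, thP_apply X, dX_X]
    push_cast
    ring

theorem cc_thP (u : S⟦X⟧) : cc (thP S u) = 0 := by
  rw [thP_apply, map_mul, constantCoeff_X, zero_mul]

theorem lead_eq {ν : ℕ} (h : IIF D a (X * b) J) (hν : OrdIs ν J) :
    D (coeff ν J) * cc a = coeff ν J * (D (cc a) - cc b + ν * cc b) := by
  obtain ⟨u, rfl, hu⟩ := hν.fac
  have h1 := iif_eq h
  rw [cw_X_pow_mul, thP_X_pow_mul] at h1
  have h2 : X ^ ν * (u * (cw D a - b - thP S b) -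
      (cw D u * a - ((ν : S⟦X⟧) * u + thP S u) * b)) = 0 := by
    linear_combination h1
  have h3 := congrArg (coeff ν) h2
  rw [coeff_X_pow_mul_self, map_zero] at h3
  simp only [map_sub, map_mul, map_add, cc_thP, cc_cw, map_natCast] at h3
  rw [← hu]
  linear_combination -h3

end Iif

section Two
variable {U Ω : Type} [Field U] [Field Ω] {D : U →+ U} {D' : Ω →+ Ω} {τ τ1 τ2 : U →+* Ω}
  {a b J : AA U}

theorem push (h1 : DExt D D' τ) (h : IIF (cw D) a (X * b) J) :
    IIF (cw D') (mA τ a) (X * mA τ b) (mA τ J) := by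
  have h2 := h.push (η := map τ) (D' := cw D') (θ := 1) (map_injective τ τ.injective)
    fun c => by rw [cw_map' h1.2, one_mul]
  rwa [map_one, one_mul, map_mul, map_X] at h2

theorem ord_push {ν : ℕ} (τ : U →+* Ω) (hν : OrdIs ν J) : OrdIs ν (mA τ J) :=
  ⟨fun e => hν.1 (map_injective τ τ.injective (by rw [map_zero, ← e, mA, coeff_map])),
    fun j hj => by rw [mA, coeff_map, hν.2 j hj, map_zero]⟩

/-- Two conjugates of a factor of maximal order are proportional. -/
theorem prop {ν : ℕ} (h1 : DExt D D' τ1) (h2 : DExt D D' τ2) (ea : mA τ2 a = mA τ1 a)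
    (eb : mA τ2 b = mA τ1 b) (h : IIF (cw D) a (X * b) J) (hν : OrdIs ν J) (ha : cc a ≠ 0)
    (hmax : ∀ I' : AA Ω, IIF (cw D') (mA τ1 a) (X * mA τ1 b) I' → ∃ j ≤ ν, coeff j I' ≠ 0) :
    ∃ c : Ω⟦X⟧, mA τ1 J = C c * mA τ2 J := by
  have i1 := push h1 h
  have i2 := push h2 h
  rw [ea, eb] at i2
  have o1 := ord_push τ1 hν
  have o2 := ord_push τ2 hν
  have l1 := lead_eq i1 o1
  have l2 := lead_eq i2 o2
  obtain ⟨m, u, hu, e⟩ := unit_fac hν.1
  obtain ⟨w, hw⟩ := (hu.map (map τ2)).exists_right_inv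
  have e1 : coeff ν (mA τ1 J) = map τ1 u * w * coeff ν (mA τ2 J) := by
    rw [mA, mA, coeff_map, coeff_map, e, map_mul, map_mul, map_pow, map_pow, map_X, map_X]
    linear_combination (-(X ^ m * map τ1 u)) * hw
  generalize map τ1 u * w = c at e1
  have ha' : cc (mA τ1 a) ≠ 0 := fun e' => ha (map_injective τ1 τ1.injective (by
    rw [map_zero, ← e']; rfl))
  have hc : cw D' c = 0 := by
    rw [e1, h1.1.coefw] at l1
    refine mul_right_cancel₀ (mul_ne_zero o2.1 ha') ?_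
    linear_combination l1 - c * l2
  refine ⟨c, sub_eq_zero.1 (by_contra fun hK => ?_)⟩
  obtain ⟨j, hj, hj'⟩ := hmax _ ⟨hK, by
    rw [map_sub, map_sub (dX _), cw_const h1.1.coefw hc, dX_const]
    linear_combination i1.2 - C c * i2.2⟩
  refine hj' ?_
  rw [map_sub, coeff_C_mul]
  rcases hj.lt_or_eq with hj | rfl
  · rw [o1.2 j hj, o2.2 j hj, mul_zero, sub_zero]
  · rw [e1, sub_self]

theorem cc_mT (τ : U →+* Ω) (s : TT U) : cc (mT τ s) = mapL τ (cc s) := rfl

theorem mT_X (τ : U →+* Ω) : mT τ (X : TT U) = X := map_X _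

theorem th_mT (τ : U →+* Ω) (s : TT U) : cw (thL Ω) (mT τ s) = mT τ (cw (thL U) s) :=
  cw_map' (thL_mapL τ) s

theorem diff {n : ℕ} {c : Ω⟦X⟧} {s s0 s' : TT U} (e : s = s0 + X ^ n * s')
    (h0 : mT τ1 s0 = mT τ2 s0) (h : mT τ1 s = map (cL Ω) c * mT τ2 s) (hs : cc s ≠ 0) :
    ∃ γ, ∀ m, τ1 ((cc s').coeff m) - τ2 ((cc s').coeff m) = γ * τ2 ((cc s).coeff m) := by
  have h1 : IsUnit (mT τ2 s) := isUnit_iff_constantCoeff.2 (isUnit_iff_ne_zero.2 fun e' =>
    hs (mapL_inj τ2.injective (by rw [map_zero, ← cc_mT, e'])))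
  obtain ⟨v, hv⟩ := h1.exists_right_inv
  have e1 := congrArg (mT τ1) e
  have e2 := congrArg (mT τ2) e
  rw [map_add, map_mul, map_pow, mT_X] at e1 e2
  have h2 : map (cL Ω) (c - 1) = X ^ n * ((mT τ1 s' - mT τ2 s') * v) := by
    rw [map_sub, map_one]
    linear_combination v * (e1 - e2 - h + h0) - (map (cL Ω) c - 1) * hv
  have h3 := congrArg (coeff n) h2
  rw [coeff_X_pow_mul_self, coeff_map, map_mul, map_sub cc, cc_mT, cc_mT] at h3
  have h4 := congrArg cc hv
  rw [map_mul, map_one, cc_mT] at h4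
  have h5 : mapL τ1 (cc s') - mapL τ2 (cc s') = cL Ω (coeff n (c - 1)) * mapL τ2 (cc s) := by
    rw [h3]
    linear_combination (mapL τ2 (cc s') - mapL τ1 (cc s')) * h4
  refine ⟨coeff n (c - 1), fun m => ?_⟩
  have h6 := congrArg (fun f : Ω⸨X⸩ => f.coeff m) h5
  simpa only [HahnSeries.coeff_sub, coeff_mapL, coeff_cL_mul] using h6

theorem om_eq (hD : IsDer D) {vb om : TT U} (h : IIF (cw D) a (X * b) J) (ha : iT a ≠ 0)
    (hv : iT a * vb = iT b) (ho : om * (iT a * C (wL U 1)) = iT J) :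
    VT D vb om + om * cw (thL U) vb = 0 := by
  have h1 := congrArg iT (iif_eq h)
  simp only [map_mul, map_sub, ← th_iT, ← cw_iT] at h1
  have d1 := hD.coefL.coefw
  have d2 := (isDer_thL (R := U)).coefw
  have w1 : cw (cwL D) (C (wL U 1) : TT U) = 0 := by rw [cw_C, cwL_wL hD.one, map_zero]
  have w2 : cw (thL U) (C (wL U 1) : TT U) = C (wL U 1) := by
    rw [cw_C, thL_wL, Int.cast_one, one_mul]
  have w3 : (C (wL U 1) : TT U) ≠ 0 := ((isUnit_wL 1).map _).ne_zero
  rw [← ho, ← hv, d1 om, d1 (iT a), d2 om, d2 (iT a), d2 (iT a), w1, w2] at h1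
  refine mul_left_cancel₀ (mul_ne_zero (pow_ne_zero 2 ha) w3) ?_
  rw [VT]
  linear_combination -h1

theorem VS {n : ℕ} {vb om h Xi : TT U} (ho : VT D vb om + om * cw (thL U) vb = 0) (hD : IsDer D)
    (hV : VT D vb h = X ^ n * Xi) :
    VT D vb (om * cw (thL U) h) = X ^ n * (om * cw (thL U) Xi) := by
  have d1 := hD.coefL.coefw
  have d2 := (isDer_thL (R := U)).coefw
  have h1 := congrArg (cw (thL U)) hV
  rw [VT, map_sub, d2 vb, cw_X_pow_mul, cw_comm (thL_cwL D)] at h1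
  rw [VT] at ho
  rw [VT, d1 om, d2 om]
  linear_combination om * h1 + cw (thL U) h * ho

end Two

end S1b

open S1b in
theorem s1bS (h1 : CmpStmt) (h2 : AmalgStmt) (h3 : IlStmt) (h4 : EvbStmt) (h5 : NzStmt)
    (h6 : GenTopStmt) : S1bStmt := by
  intro k L U _ _ _ _ _ d I D1 i J0 ν hd hnd hE hc hJ0 hν0 hmax
  have : CharZero L := charZero_of_injective_ringHom I.κ.injective
  have : CharZero U := charZero_of_injective_ringHom i.injective
  have : CharZero L⸨X⸩ := charZero_of_injective_ringHom (cL_inj (R := L))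
  have : CharZero U⸨X⸩ := charZero_of_injective_ringHom (cL_inj (R := U))
  have hd0 : d ≠ 0 := by omega
  obtain ⟨e, J, rfl, hr⟩ := exists_tfac hJ0.1
  rw [← map_pow] at hJ0 hν0
  have hJ := strip hE.1.coefw (by
    rw [← mul_one (X ^ e), cw_X_pow_mul, hE.1.coefw.one, mul_zero]) hJ0
  have hν : OrdIs ν J := ⟨fun h => hν0.1 (by rw [coeff_C_mul, h, mul_zero]), fun j hj => by
    have := hν0.2 j hj
    rw [coeff_C_mul] at this
    exact (mul_eq_zero.1 this).resolve_left (pow_ne_zero _ X_ne_zero)⟩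
  have ha0 : cc (mA i I.a) ≠ 0 := by
    intro h
    have h' : cc I.a = 0 := map_injective i i.injective (by rw [map_zero, ← h]; rfl)
    obtain ⟨a', ha'⟩ := X_dvd_iff.2 h'
    have hra := I.ra
    rw [ha', map_mul, red_X] at hra
    have h7 : red a' = -(d : L⟦X⟧) :=
      mul_left_cancel₀ (X_ne_zero (R := L)) (by linear_combination hra)
    have h8 : IsUnit a' := isUnit_iff_constantCoeff.2 (isUnit_iff_constantCoeff.2 (by
      rw [← c00_apply, ← cc_red, h7, map_neg, map_natCast]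
      exact (neg_ne_zero.2 (Nat.cast_ne_zero.2 hd0)).isUnit))
    exact hnd (ha' ▸ mul_dvd_mul_left X h8.dvd)
  have hA0 : cc (iT I.a) = -((d : L⸨X⸩) * wL L 1) := by
    rw [cc_iT, I.ra, map_neg, map_mul, map_natCast, coeL_X]
  have hA : cc (iT (mA i I.a)) = -((d : U⸨X⸩) * wL U 1) := by
    rw [← mT_iT, cc_mT, hA0, map_neg, map_mul, map_natCast, mapL_wL]
  have hAu : IsUnit (iT (mA i I.a)) := isUnit_iff_constantCoeff.2 (by
    rw [hA]
    exact ((Nat.cast_ne_zero.2 hd0).isUnit.mul (isUnit_wL 1)).neg)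
  have hAw : IsUnit (iT (mA i I.a) * C (wL U 1)) := hAu.mul ((isUnit_wL 1).map _)
  obtain ⟨om, ho⟩ : ∃ om, om * (iT (mA i I.a) * C (wL U 1)) = iT J :=
    (dvd_iff_exists_eq_mul_left.1 hAw.dvd).imp fun _ h => h.symm
  have hv : iT (mA i I.a) * mT i I.vb = iT (mA i I.b) := by
    rw [← mT_iT, ← mT_iT, ← map_mul, I.hv]
  have hvb : cc I.vb = 0 := by
    have h := congrArg cc I.hv
    rw [map_mul, hA0, cc_iT, I.rb, map_zero] at h
    exact (mul_eq_zero.1 h).resolve_left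
      (neg_ne_zero.2 (mul_ne_zero (Nat.cast_ne_zero.2 hd0) (isUnit_wL 1).ne_zero))
  have hV : VT D1 (mT i I.vb) (mT i I.h) = X ^ I.n * mT i I.Xi := by
    rw [← mT_X i, ← map_pow, ← map_mul, ← I.hV]
    simp only [VT, mT, map_sub, map_mul, cw_map' (cwL_mapL hE.2), cw_map' (thL_mapL i)]
  have hS := VS (om_eq hE.1 hJ hAu.ne_zero hv ho) hE.1 hV
  obtain ⟨S0, S', e1, e2, e3⟩ := h1 L U I.D D1 i d I.n I.vb I.h I.Xi _ _ (by omega) I.n1 hE
    (fun c h => (hc c h).elim fun r hr => ⟨I.κ r, hr⟩) hvb I.rh I.hV hS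
  obtain ⟨S, hSd⟩ : ∃ S, S = om * cw (thL U) (mT i I.h) := ⟨_, rfl⟩
  rw [← hSd] at e1 e2 e3
  have c1 : cc S = cc om * (-(d : U⸨X⸩) * wL U (-(d : ℤ))) := by
    rw [hSd, map_mul, cc_cw, cc_mT, I.rh, mapL_wL, thL_wL, Int.cast_neg, Int.cast_natCast]
  have c2 : cc S ≠ 0 := by
    rw [c1]
    refine mul_ne_zero (fun h => hr (coeL_inj ?_))
      (mul_ne_zero (neg_ne_zero.2 (Nat.cast_ne_zero.2 hd0)) (isUnit_wL _).ne_zero)
    rw [← cc_iT, ← ho, map_mul, h, zero_mul, map_zero]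
  obtain ⟨ck, hck⟩ := exists_mapL (i.comp I.κ).injective (f := cc S) fun m => hc _ (by
    rw [← coeff_cwL, e2]; rfl)
  obtain ⟨n0, g0, hg0⟩ := exists_wL_mul ck
  obtain ⟨s, g, hg, rfl⟩ := unit_fac (f := g0) fun h => c2 (by
    rw [hck, hg0, h, map_zero, mul_zero, map_zero])
  rw [map_mul, coeL_X_pow, ← mul_assoc, ← wL_add] at hg0
  generalize -(n0 : ℤ) + s = μ at hg0
  have hg1 : cc g ≠ 0 := (isUnit_iff_constantCoeff.1 hg).ne_zero
  have hμ : ck.coeff μ ≠ 0 := by
    rw [hg0, coeff_wL_mul, sub_self, ← Nat.cast_zero, coeff_coeL, coeff_zero_eq_constantCoeff]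
    exact hg1
  obtain ⟨c0, hc0⟩ : ∃ c0, c0 = wL L μ * coeL L (map I.κ g) := ⟨_, rfl⟩
  have c3 : cc S = mapL i c0 := by
    rw [hck, hg0, hc0, map_mul, map_mul, mapL_wL, mapL_wL, mapL_coeL, mapL_coeL, map_comp]
    rfl
  obtain ⟨Φ, hΦ⟩ : ∃ Φ, Φ = c0 * thL L (cc I.Xi) - thL L c0 * cc I.Xi := ⟨_, rfl⟩
  obtain ⟨Ψ, hΨ⟩ : ∃ Ψ, Ψ = -(wL L d * (cL L (d : L)⁻¹ * Φ)) := ⟨_, rfl⟩
  have c4 : cwL D1 (cc S') = mapL i Ψ := by
    have w1 : wL U d * wL U (-(d : ℤ)) = 1 := wL_mul_neg _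
    have w2 : cL U (d : U)⁻¹ * (d : U⸨X⸩) = 1 := by
      rw [← map_natCast (cL U), ← map_mul, inv_mul_cancel₀ (Nat.cast_ne_zero.2 hd0), map_one]
    rw [e3, map_mul, cc_cw, cc_mT, dh, hΨ, hΦ]
    simp only [map_neg, map_mul, map_sub, mapL_wL, map_inv₀, map_natCast, ← thL_mapL]
    rw [← c3, c1]
    rw [map_inv₀, map_natCast] at w2
    linear_combination (-(cc om * thL U (mapL i (cc I.Xi)))) * w1 -
      (cc om * thL U (mapL i (cc I.Xi)) * wL U d * wL U (-(d : ℤ))) * w2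
  have key : ∀ m, ∃ z, (cc S').coeff m -
      (cc S').coeff μ * i (I.κ (ck.coeff m / ck.coeff μ)) = i z := by
    intro m
    by_contra hx
    obtain ⟨Ω, _, D', τ2, σ, t2, hσ⟩ := h2 L U I.D D1 i hE Unit (fun _ => (cc S').coeff m -
      (cc S').coeff μ * i (I.κ (ck.coeff m / ck.coeff μ))) fun _ z h => hx ⟨z, h⟩
    obtain ⟨t1, ag, ne⟩ := hσ ()
    generalize σ () = τ1 at t1 ag ne
    have ec : τ2.comp i = τ1.comp i := RingHom.ext fun z => (ag z).symm
    have eA : ∀ z, mA τ2 (mA i z) = mA τ1 (mA i z) := fun z => by rw [mA_mA, mA_mA, ec]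
    have eT : ∀ z, mT τ1 (mT i z) = mT τ2 (mT i z) := fun z => by
      ext p q
      simp only [coeff_mT, coeff_mapL, ag]
    obtain ⟨c, hcJ⟩ := prop t1 t2 (eA _) (eA _) hJ hν ha0 fun I' h =>
      hmax Ω D' (τ1.comp i) I' ⟨t1.1, fun z => by
        rw [RingHom.comp_apply, t1.2, hE.2, RingHom.comp_apply]⟩ (by rwa [mA_mA, mA_mA] at h)
    have eo : mT τ1 om = map (cL Ω) c * mT τ2 om := by
      have o1 := congrArg (mT τ1) ho
      have o2 := congrArg (mT τ2) ho
      have o3 : mT τ1 (iT (mA i I.a) * C (wL U 1)) = mT τ2 (iT (mA i I.a) * C (wL U 1)) := by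
        rw [← iT_X, ← mA_X i, ← map_mul, ← map_mul, ← mT_iT, eT]
      rw [map_mul, mT_iT _ J] at o1 o2
      rw [hcJ, map_mul iT, iT_C, o3, ← o2, ← mul_assoc] at o1
      exact (hAw.map (mT τ2)).mul_right_cancel o1
    obtain ⟨γ, hγ⟩ := diff e1 (eT S0) (c := c) (by
      rw [hSd, th_mT, map_mul, map_mul, eo, eT, mul_assoc]) c2
    have g1 := hγ m
    have g2 := hγ μ
    rw [hck, coeff_mapL, RingHom.comp_apply] at g1 g2
    have g3 : τ2 (i (I.κ (ck.coeff μ))) * τ2 (i (I.κ (ck.coeff m / ck.coeff μ))) =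
        τ2 (i (I.κ (ck.coeff m))) := by
      rw [← map_mul, ← map_mul, ← map_mul, mul_div_cancel₀ _ hμ]
    refine ne ?_
    rw [map_sub, map_sub, map_mul, map_mul, ag]
    linear_combination g1 - τ2 (i (I.κ (ck.coeff m / ck.coeff μ))) * g2 - γ * g3
  have hΛ := lam_smul I.κ I.cv.1 I.cv.2.1 ((cc I.Xi).coeff μ) (Ψ.coeff μ)
  have k2 : ∀ m, Ψ.coeff m ∈ lam I.κ I.D ((cc I.Xi).coeff μ) (Ψ.coeff μ) := by
    intro m
    obtain ⟨z, hz⟩ := key m
    have h := congrArg D1 hz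
    rw [map_sub, hE.1, hE.2, hE.2, I.cv.2.1, map_zero, mul_zero, add_zero, ← coeff_cwL, ← coeff_cwL,
      c4, coeff_mapL, coeff_mapL, ← map_mul, ← map_sub] at h
    exact ⟨z, 0, ck.coeff m / ck.coeff μ, by
      rw [← i.injective h, map_zero]; ring⟩
  refine S1b.fin h3 h4 h5 h6 I hd _ _ (all_mem I.κ _ hΛ μ hg1 ⟨0, 1, 0, by simp⟩ fun p => ?_)
  rw [← hc0, ← hΦ]
  have h : Φ.coeff p = I.κ (-(d : k)) * Ψ.coeff (p + d) := by
    rw [hΨ, HahnSeries.coeff_neg, coeff_wL_mul, add_sub_cancel_right, coeff_cL_mul, map_neg,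
      map_natCast, neg_mul_neg, ← mul_assoc, mul_inv_cancel₀ (Nat.cast_ne_zero.2 hd0), one_mul]
  rw [h]
  exact hΛ _ _ (k2 _)

end Pool.Agent.MP_05b4bd_ag.ES

end MrgPart1

-- marker of a merged file
example : 731051 + 441546 = 731051 + 441546 := rfl

end MrgPart0

-- ======== part 1: formerly Pool.Agent.MP_05b4bd_ag.esc3.ChkA
section MrgPart1

/-! Linear forms that vanish on the brackets with the Fermat form, and their values on the
coefficients `psi` of the special polynomials. -/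

namespace Pool.Agent.MP_05b4bd_ag.ES.Chk

open MvPolynomial HC

/-- The recurrences of a linear form that kills `Bt (Fer k d)`. -/
structure Fn (d : ℕ) (φ : ℕ → ℕ → ℚ) : Prop where
  l : ∀ a b, φ (a + d) b * (a + b + 2) = (a + 1) * φ a b
  r : ∀ a b, φ a (b + d) * (a + b + 2) = (b + 1) * φ a b
  l0 : ∀ b, φ (d - 1) b = 0
  r0 : ∀ a, φ a (d - 1) = 0

/-- The product of `c + l d` over `l < i`. -/
def pd (c d : ℕ) : ℕ → ℚ
  | 0 => 1
  | i + 1 => pd c d i * (c + i * d)

theorem pd_pos {c : ℕ} (hc : 0 < c) (d i : ℕ) : 0 < pd c d i := by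
  induction i with
  | zero => exact one_pos
  | succ i ih =>
    rw [pd]
    have : (0 : ℚ) < c := Nat.cast_pos.2 hc
    positivity

/-- The form attached to the class `(a0, b0)`. -/
def ph (d a0 b0 a b : ℕ) : ℚ :=
  if a % d = a0 ∧ b % d = b0 then
    pd (a0 + 1) d (a / d) * pd (b0 + 1) d (b / d) / pd (a0 + b0 + 2) d (a / d + b / d)
  else 0

theorem ph_fn {d a0 b0 : ℕ} (ha : a0 + 2 ≤ d) (hb : b0 + 2 ≤ d) : Fn d (ph d a0 b0) := by
  have hd : 0 < d := by omega
  have cast : ∀ a : ℕ, (a : ℚ) = (a % d : ℕ) + (a / d : ℕ) * d := fun a => by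
    exact_mod_cast (Nat.mod_add_div' a d).symm
  refine ⟨fun a b => ?_, fun a b => ?_, fun b => ?_, fun a => ?_⟩
  · rw [ph, ph, Nat.add_mod_right, Nat.add_div_right a hd]
    split_ifs with h
    · rw [add_right_comm (a / d) 1, pd, pd, cast a, cast b, h.1, h.2]
      have h1 := (pd_pos (c := a0 + b0 + 2) (by omega) d (a / d + b / d)).ne'
      have h2 : ((a0 + b0 + 2 : ℕ) : ℚ) + (a / d + b / d : ℕ) * d ≠ 0 := by positivity
      push_cast at h1 h2 ⊢
      field_simp
      ring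
    · simp
  · rw [ph, ph, Nat.add_mod_right, Nat.add_div_right b hd]
    split_ifs with h
    · rw [← add_assoc (a / d), pd, pd, cast a, cast b, h.1, h.2]
      have h1 := (pd_pos (c := a0 + b0 + 2) (by omega) d (a / d + b / d)).ne'
      have h2 : ((a0 + b0 + 2 : ℕ) : ℚ) + (a / d + b / d : ℕ) * d ≠ 0 := by positivity
      push_cast at h1 h2 ⊢
      field_simp
      ring
    · simp
  · rw [ph, if_neg]
    rw [Nat.mod_eq_of_lt (show d - 1 < d by omega)]
    omega
  · rw [ph, if_neg]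
    rw [Nat.mod_eq_of_lt (show d - 1 < d by omega)]
    omega

variable {k : Type} [Field k] [CharZero k]

/-- The linear form with values `φ` on the monomials. -/
noncomputable def ell (k : Type) [Field k] (φ : ℕ → ℕ → ℚ) : R2 k →ₗ[k] k :=
  (basisMonomials (Fin 2) k).constr k fun m => (φ (m 0) (m 1) : k)

omit [CharZero k] in
theorem ell_mon (φ : ℕ → ℕ → ℚ) (a b : ℕ) : ell k φ (X 0 ^ a * X 1 ^ b) = φ a b := by
  rw [X_pow_eq_monomial, X_pow_eq_monomial, monomial_mul, one_mul, ell]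
  have := (basisMonomials (Fin 2) k).constr_basis k (fun m => (φ (m 0) (m 1) : k))
    (Finsupp.single 0 a + Finsupp.single 1 b)
  simpa using this

omit [CharZero k] in
theorem ell_C (φ : ℕ → ℕ → ℚ) (c : k) (u : R2 k) : ell k φ (C c * u) = c * ell k φ u := by
  rw [C_mul', map_smul, smul_eq_mul]

omit [CharZero k] in
theorem ell_nat (φ : ℕ → ℕ → ℚ) (c : ℕ) (u : R2 k) : ell k φ (c * u) = c * ell k φ u := by
  rw [← ell_C, map_natCast]

omit [CharZero k] in
theorem mon_ind {P : R2 k → Prop} (h1 : ∀ (c : k) (a b : ℕ), P (C c * (X 0 ^ a * X 1 ^ b)))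
    (h2 : ∀ u v, P u → P v → P (u + v)) (u : R2 k) : P u := by
  refine MvPolynomial.induction_on' u (fun m c => ?_) h2
  have := h1 c (m 0) (m 1)
  rwa [X_pow_eq_monomial, X_pow_eq_monomial, monomial_mul, one_mul, C_mul_monomial, mul_one,
    ← eq_single] at this

theorem ell_bt {d : ℕ} (hd : 1 ≤ d) {φ : ℕ → ℕ → ℚ} (h : Fn d φ) {r : R2 k}
    (hr : Bt (Fer k d) r) : ell k φ r = 0 := by
  obtain ⟨u, w, rfl⟩ := hr
  obtain ⟨e, rfl⟩ : ∃ e, d = e + 1 := ⟨d - 1, by omega⟩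
  have nz : ∀ a b : ℕ, ((a : k) + b + 2) ≠ 0 := fun a b => by
    exact_mod_cast (show a + b + 2 ≠ 0 by omega)
  have hl : ∀ a b, (φ (a + (e + 1)) b : k) * (a + b + 2) = (a + 1) * φ a b := fun a b => by
    exact_mod_cast h.l a b
  have hr : ∀ a b, (φ a (b + (e + 1)) : k) * (a + b + 2) = (b + 1) * φ a b := fun a b => by
    exact_mod_cast h.r a b
  have e1 : ell k φ (br u (Fer k (e + 1))) = 0 := by
    induction u using mon_ind with
    | h2 u v hu hv =>
      have : br (u + v) (Fer k (e + 1)) = br u (Fer k (e + 1)) + br v (Fer k (e + 1)) := by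
        simp only [br, map_add]; ring
      rw [this, map_add, hu, hv, add_zero]
    | h1 c a b =>
      have : br (C c * (X 0 ^ a * X 1 ^ b)) (Fer k (e + 1)) = C c * (((e + 1 : ℕ) : R2 k) *
          ((a : R2 k) * (X 0 ^ (a - 1) * X 1 ^ (b + e)) -
            (b : R2 k) * (X 0 ^ (a + e) * X 1 ^ (b - 1)))) := by
        simp [br, Fer, Derivation.leibniz_pow, pderiv_X]
        ring
      rw [this, ell_C, ell_nat, map_sub, ell_nat, ell_nat, ell_mon, ell_mon]
      suffices s : (a : k) * φ (a - 1) (b + e) - b * φ (a + e) (b - 1) = 0 by rw [s]; simp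
      cases a with
      | zero =>
        have := h.l0 (b - 1)
        rw [Nat.add_sub_cancel] at this
        simp [this]
      | succ a =>
        cases b with
        | zero =>
          have := h.r0 a
          rw [Nat.add_sub_cancel] at this
          simp [this]
        | succ b =>
          rw [Nat.add_sub_cancel, Nat.add_sub_cancel, show b + 1 + e = b + (e + 1) by omega,
            show a + 1 + e = a + (e + 1) by omega]
          refine mul_right_cancel₀ (nz a b) ?_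
          push_cast
          linear_combination ((a : k) + 1) * hr a b - ((b : k) + 1) * hl a b
  have e2 : ell k φ ((Fer k (e + 1) - 1) * w) = 0 := by
    induction w using mon_ind with
    | h2 u v hu hv => rw [mul_add, map_add, hu, hv, add_zero]
    | h1 c a b =>
      have : (Fer k (e + 1) - 1) * (C c * (X 0 ^ a * X 1 ^ b)) = C c *
          (X 0 ^ (a + (e + 1)) * X 1 ^ b + X 0 ^ a * X 1 ^ (b + (e + 1)) - X 0 ^ a * X 1 ^ b) := by
        rw [Fer]; ring
      rw [this, ell_C, map_sub, map_add, ell_mon, ell_mon, ell_mon]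
      suffices s : (φ (a + (e + 1)) b : k) + φ a (b + (e + 1)) - φ a b = 0 by rw [s, mul_zero]
      refine mul_right_cancel₀ (nz a b) ?_
      linear_combination hl a b + hr a b
  rw [map_add, e1, e2, add_zero]

omit [CharZero k] in
theorem CR_sum {ι : Type} (t : Finset ι) (d : ℕ) (f : R2 k) (j w : ℕ) (g : ι → R2 k) :
    CR d f j w (∑ i ∈ t, g i) = ∑ i ∈ t, CR d f j w (g i) := by
  induction j using Nat.strong_induction_on generalizing w g with
  | _ j ih =>
  cases j with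
  | zero => simp only [CR]
  | succ j =>
    simp only [CR]
    rw [← Finset.mul_sum, Finset.sum_comm]
    congr 1
    refine Finset.sum_congr rfl fun e _ => ?_
    rw [Finset.mul_sum, ih _ (by omega), Finset.mul_sum]

omit [CharZero k] in
theorem PR_sum {ι : Type} (t : Finset ι) (d : ℕ) (f : R2 k) (j w : ℕ) (g : ι → R2 k) :
    PR d f j w (∑ i ∈ t, g i) = ∑ i ∈ t, PR d f j w (g i) := by
  cases j with
  | zero => simp only [PR, Finset.mul_sum]
  | succ j =>
    simp only [PR]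
    rw [Finset.sum_neg_distrib, ← Finset.mul_sum, Finset.sum_comm]
    congr 2
    refine Finset.sum_congr rfl fun e _ => ?_
    rw [Finset.mul_sum, CR_sum, Finset.mul_sum]

omit [CharZero k] in
theorem PR_C (d : ℕ) (f : R2 k) (c : k) (j w : ℕ) (g : R2 k) :
    PR d f j w (C c * g) = C c * PR d f j w g := by
  cases j with
  | zero => rw [PR, PR, mul_left_comm]
  | succ j =>
    rw [PR, PR, mul_neg, mul_left_comm (C c), Finset.mul_sum _ _ (C c)]
    congr 2
    refine Finset.sum_congr rfl fun e _ => ?_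
    rw [mul_left_comm _ (C c), Bs.CR_C, mul_left_comm]

/-- The value of the form on `CR`. -/
def cr (d p q r s c : ℕ) (φ : ℕ → ℕ → ℚ) : ℕ → ℕ → ℕ → ℚ
  | 0, a, b => φ a b
  | 1, a, b => (1 - (a + b + 2)) / d * φ (a + p) (b + q)
  | j + 2, a, b => (j + 2 - (a + b + 2)) / (d * (j + 2)) *
      (cr d p q r s c φ (j + 1) (a + p) (b + q) + 2 * c * cr d p q r s c φ j (a + r) (b + s))

/-- The value of the form on the inner sum. -/
def sr (d p q r s c : ℕ) (φ : ℕ → ℕ → ℚ) : ℕ → ℕ → ℕ → ℚ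
  | 0, a, b => φ (a + p) (b + q)
  | j + 1, a, b =>
      cr d p q r s c φ (j + 1) (a + p) (b + q) + 2 * c * cr d p q r s c φ j (a + r) (b + s)

/-- The value of the form on `PR`. -/
def pr (d p q r s c : ℕ) (φ : ℕ → ℕ → ℚ) : ℕ → ℕ → ℕ → ℚ
  | 0, a, b => d / (a + b + 2) * φ a b
  | j + 1, a, b => -(1 / (j + 1) * sr d p q r s c φ j a b)

/-- The coefficient of `x ^ a y ^ b` in the value of the form on `psi`. -/
def tb (d p q r s c : ℕ) (φ : ℕ → ℕ → ℚ) (n a b : ℕ) : ℚ :=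
  if d ≤ n + (a + b + 2) then pr d p q r s c φ (n + (a + b + 2) - d) a b else 0

variable {d p q r s c : ℕ} {φ : ℕ → ℕ → ℚ}

theorem cr_succ (j a b : ℕ) : cr d p q r s c φ (j + 1) a b =
    (j + 1 - (a + b + 2)) / (d * (j + 1)) * sr d p q r s c φ j a b := by
  cases j with
  | zero => simp [cr, sr]
  | succ j =>
    rw [cr, sr]
    push_cast
    ring

omit [CharZero k] in
theorem hc_fs (h1 : p + q + 1 = d) (h2 : r + s + 2 = d) (n : ℕ) (hn : n < d) :
    hc n (fs k d p q r s c) = (if n + 1 = d then X 0 ^ p * X 1 ^ q else 0) +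
      if n + 2 = d then C (c : k) * (X 0 ^ r * X 1 ^ s) else 0 := by
  have m : ∀ a b : ℕ, (X 0 ^ a * X 1 ^ b : R2 k).IsHomogeneous (a + b) := fun a b =>
    (isHomogeneous_X_pow 0 a).mul (isHomogeneous_X_pow 1 b)
  rw [fs, Fer, hc_add, hc_add, hc_add, hc_ne (isHomogeneous_X_pow 0 d) hn.ne,
    hc_ne (isHomogeneous_X_pow 1 d) hn.ne, zero_add, zero_add, ← map_natCast (C : k →+* R2 k),
    hc_C_mul]
  congr 1
  · split_ifs with h
    · rw [show n = p + q by omega, hc_self (m p q)]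
    · exact hc_ne (m p q) (by omega)
  · split_ifs with h
    · rw [show n = r + s by omega, hc_self (m r s)]
    · rw [hc_ne (m r s) (by omega), mul_zero]

theorem ell_sum (hd : 3 ≤ d) (h1 : p + q + 1 = d) (h2 : r + s + 2 = d) (j : ℕ)
    (ih : ∀ i ≤ j, ∀ a b, ell k φ (CR d (fs k d p q r s c) i (a + b + 2) (X 0 ^ a * X 1 ^ b)) =
      cr d p q r s c φ i a b) (a b : ℕ) :
    ell k φ (∑ e ∈ Finset.range (j + 1), C (e + 1 : k) * CR d (fs k d p q r s c) (j - e)
      (a + b + 2 + d - (e + 1)) (hc (d - (e + 1)) (fs k d p q r s c) * (X 0 ^ a * X 1 ^ b))) =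
      sr d p q r s c φ j a b := by
  have t0 : hc (d - (0 + 1)) (fs k d p q r s c) * (X 0 ^ a * X 1 ^ b) =
      X 0 ^ (a + p) * X 1 ^ (b + q) := by
    rw [hc_fs h1 h2 _ (by omega), if_pos (by omega), if_neg (by omega)]
    ring
  have t1 : hc (d - (0 + 1 + 1)) (fs k d p q r s c) * (X 0 ^ a * X 1 ^ b) =
      C (c : k) * (X 0 ^ (a + r) * X 1 ^ (b + s)) := by
    rw [hc_fs h1 h2 _ (by omega), if_neg (by omega), if_pos (by omega)]
    ring
  have w0 : a + b + 2 + d - (0 + 1) = a + p + (b + q) + 2 := by omega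
  have w1 : a + b + 2 + d - (0 + 1 + 1) = a + r + (b + s) + 2 := by omega
  cases j with
  | zero =>
    rw [Finset.sum_range_one, ell_C, t0, w0, ih _ le_rfl, sr, cr]
    simp
  | succ j =>
    rw [Finset.sum_range_succ', Finset.sum_range_succ', Finset.sum_eq_zero, zero_add, map_add,
      ell_C, ell_C, t0, t1, w0, w1, Bs.CR_C, ell_C, ih _ (by omega), ih _ (by omega), sr]
    · simp
      ring
    · intro e _
      rw [hc_fs h1 h2 _ (by omega), if_neg (by omega), if_neg (by omega), add_zero, zero_mul,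
        Bx.CR_zero, mul_zero]

theorem ell_CR (hd : 3 ≤ d) (h1 : p + q + 1 = d) (h2 : r + s + 2 = d) (j a b : ℕ) :
    ell k φ (CR d (fs k d p q r s c) j (a + b + 2) (X 0 ^ a * X 1 ^ b)) =
      cr d p q r s c φ j a b := by
  induction j using Nat.strong_induction_on generalizing a b with
  | _ j ih =>
  cases j with
  | zero => rw [CR, ell_mon, cr]
  | succ j =>
    rw [CR, ell_C, ell_sum hd h1 h2 j (fun i hi => ih i (by omega)), cr_succ]
    push_cast
    ring

theorem ell_PR (hd : 3 ≤ d) (h1 : p + q + 1 = d) (h2 : r + s + 2 = d) (j a b : ℕ) :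
    ell k φ (PR d (fs k d p q r s c) j (a + b + 2) (X 0 ^ a * X 1 ^ b)) =
      pr d p q r s c φ j a b := by
  cases j with
  | zero =>
    rw [PR, ell_C, ell_mon, pr]
    push_cast
    ring
  | succ j =>
    rw [PR, map_neg, ell_C, ell_sum hd h1 h2 j (fun i _ => ell_CR hd h1 h2 i), pr]
    push_cast
    ring

theorem ell_psi (hd : 3 ≤ d) (h1 : p + q + 1 = d) (h2 : r + s + 2 = d) (g : R2 k) (n : ℕ) :
    ell k φ (psi d (fs k d p q r s c) g n) = ∑ w ∈ Finset.range (d - 1),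
      ∑ j ∈ Finset.range (w + 1), HC.co (w - j) j g * tb d p q r s c φ n (w - j) j := by
  rw [psi, map_sum, show Finset.Icc 2 d = Finset.Ico 2 (d + 1) from rfl, Finset.sum_Ico_eq_sum_range,
    show d + 1 - 2 = d - 1 by omega]
  refine Finset.sum_congr rfl fun w _ => ?_
  rw [show 2 + w - 2 = w by omega]
  split_ifs with h
  · conv_lhs => rw [hom_eq_sum (hc_hom w g)]
    rw [PR_sum, map_sum]
    refine Finset.sum_congr rfl fun j hj => ?_
    have hj := Finset.mem_range.1 hj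
    have e : 2 + w = w - j + j + 2 := by omega
    have e2 := co_hc (w - j) j g
    rw [show w - j + j = w by omega] at e2
    rw [PR_C, ell_C, e2, tb, ← e, if_pos h]
    congr 1
    rw [e]
    exact ell_PR hd h1 h2 _ _ _
  · rw [map_zero]
    refine (Finset.sum_eq_zero fun j hj => ?_).symm
    have hj := Finset.mem_range.1 hj
    rw [tb, if_neg (by omega), Rat.cast_zero, mul_zero]

end Pool.Agent.MP_05b4bd_ag.ES.Chk

end MrgPart1

-- marker of a merged file
example : 731051 + 330644 = 731051 + 330644 := rfl
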