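import Pool.Agent.MP_05b4bd_ag.esc3.ChkA

/-! The finite checks in degrees three, four and five. -/

namespace Pool.Agent.MP_05b4bd_ag.ES

open MvPolynomial HC

namespace Chk

variable {k : Type} [Field k] [CharZero k]

theorem eqs {d : ℕ} {ψ : ℕ → R2 k} {z t : k} (h : Eqs d (Fer k d) ψ z t) (a0 b0 n : ℕ)
    (hn : n < d) (ha : a0 + 2 ≤ d) (hb : b0 + 2 ≤ d) :
    (z ^ n - 1) * ell k (ph d a0 b0) (ψ n) = 0 ∧
      z * (z ^ (n + d) - 1) * ell k (ph d a0 b0) (ψ (n + d)) +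
        ((n + 1) * z ^ n - (d + 1)) * t * ell k (ph d a0 b0) (ψ n) = 0 := by
  obtain ⟨h1, h2⟩ := h n hn
  have e1 := ell_bt (by omega) (ph_fn ha hb) h1
  have e2 := ell_bt (by omega) (ph_fn ha hb) h2
  rw [ell_C] at e1
  rw [map_add, ell_C, ell_C] at e2
  exact ⟨e1, e2⟩

omit [CharZero k] in
theorem zero_of {n : ℕ} {g : R2 k} (hg : DL n g) (h : ∀ i j, i + j < n → HC.co i j g = 0) :
    g = 0 := by
  refine co_ext fun i j => ?_
  rcases Nat.lt_or_ge (i + j) n with c | c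
  · exact h i j c
  · exact hg _ (by rw [deg2]; simpa using c)

omit [CharZero k] in
theorem pw {z : k} (h1 : z ≠ 1) (n : ℕ) (a : z ^ n = 1) (b : z ^ (n + 1) = 1) :
    False := h1 (by rw [pow_succ, a, one_mul] at b; exact b)

/-- The table of values in degree 3. -/
def tl3 (a0 b0 n : ℕ) : List ℚ :=
  [tb 3 1 1 1 0 1 (ph 3 a0 b0) n 0 0,
   tb 3 1 1 1 0 1 (ph 3 a0 b0) n 1 0,
   tb 3 1 1 1 0 1 (ph 3 a0 b0) n 0 1]

theorem l3 (g : R2 k) (a0 b0 n : ℕ) {v0 v1 v2 : ℚ}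
    (h : tl3 a0 b0 n = [v0, v1, v2]) :
    ell k (ph 3 a0 b0) (psi 3 (fs k 3 1 1 1 0 1) g n) =
      HC.co 0 0 g * v0 + HC.co 1 0 g * v1 + HC.co 0 1 g * v2 := by
  simp only [tl3, List.cons.injEq, and_true] at h
  obtain ⟨rfl, rfl, rfl⟩ := h
  rw [ell_psi (by norm_num) (by norm_num) (by norm_num)]
  simp only [Finset.sum_range_succ, Finset.sum_range_zero, Nat.reduceSub, Nat.sub_zero,
    Nat.sub_self, Nat.add_one_sub_one]
  ring

/-- The table of values in degree 4. -/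
def tl4 (a0 b0 n : ℕ) : List ℚ :=
  [tb 4 2 1 1 1 1 (ph 4 a0 b0) n 0 0,
   tb 4 2 1 1 1 1 (ph 4 a0 b0) n 1 0,
   tb 4 2 1 1 1 1 (ph 4 a0 b0) n 0 1,
   tb 4 2 1 1 1 1 (ph 4 a0 b0) n 2 0,
   tb 4 2 1 1 1 1 (ph 4 a0 b0) n 1 1,
   tb 4 2 1 1 1 1 (ph 4 a0 b0) n 0 2]

theorem l4 (g : R2 k) (a0 b0 n : ℕ) {v0 v1 v2 v3 v4 v5 : ℚ}
    (h : tl4 a0 b0 n = [v0, v1, v2, v3, v4, v5]) :
    ell k (ph 4 a0 b0) (psi 4 (fs k 4 2 1 1 1 1) g n) =
      HC.co 0 0 g * v0 + HC.co 1 0 g * v1 + HC.co 0 1 g * v2 +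
      HC.co 2 0 g * v3 + HC.co 1 1 g * v4 + HC.co 0 2 g * v5 := by
  simp only [tl4, List.cons.injEq, and_true] at h
  obtain ⟨rfl, rfl, rfl, rfl, rfl, rfl⟩ := h
  rw [ell_psi (by norm_num) (by norm_num) (by norm_num)]
  simp only [Finset.sum_range_succ, Finset.sum_range_zero, Nat.reduceSub, Nat.sub_zero,
    Nat.sub_self, Nat.add_one_sub_one]
  ring

/-- The table of values in degree 5. -/
def tl5 (a0 b0 n : ℕ) : List ℚ :=
  [tb 5 2 2 3 0 0 (ph 5 a0 b0) n 0 0,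
   tb 5 2 2 3 0 0 (ph 5 a0 b0) n 1 0,
   tb 5 2 2 3 0 0 (ph 5 a0 b0) n 0 1,
   tb 5 2 2 3 0 0 (ph 5 a0 b0) n 2 0,
   tb 5 2 2 3 0 0 (ph 5 a0 b0) n 1 1,
   tb 5 2 2 3 0 0 (ph 5 a0 b0) n 0 2,
   tb 5 2 2 3 0 0 (ph 5 a0 b0) n 3 0,
   tb 5 2 2 3 0 0 (ph 5 a0 b0) n 2 1,
   tb 5 2 2 3 0 0 (ph 5 a0 b0) n 1 2,
   tb 5 2 2 3 0 0 (ph 5 a0 b0) n 0 3]

theorem l5 (g : R2 k) (a0 b0 n : ℕ) {v0 v1 v2 v3 v4 v5 v6 v7 v8 v9 : ℚ}
    (h : tl5 a0 b0 n = [v0, v1, v2, v3, v4, v5, v6, v7, v8, v9]) :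
    ell k (ph 5 a0 b0) (psi 5 (fs k 5 2 2 3 0 0) g n) =
      HC.co 0 0 g * v0 + HC.co 1 0 g * v1 + HC.co 0 1 g * v2 +
      HC.co 2 0 g * v3 + HC.co 1 1 g * v4 + HC.co 0 2 g * v5 +
      HC.co 3 0 g * v6 + HC.co 2 1 g * v7 + HC.co 1 2 g * v8 +
      HC.co 0 3 g * v9 := by
  simp only [tl5, List.cons.injEq, and_true] at h
  obtain ⟨rfl, rfl, rfl, rfl, rfl, rfl, rfl, rfl, rfl, rfl⟩ := h
  rw [ell_psi (by norm_num) (by norm_num) (by norm_num)]
  simp only [Finset.sum_range_succ, Finset.sum_range_zero, Nat.reduceSub, Nat.sub_zero,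
    Nat.sub_self, Nat.add_one_sub_one]
  ring

end Chk

open Chk

theorem chk3 : ChkStmt 3 1 1 1 0 1 := by
  intro k _ _ g z t hg z0 z1 h
  suffices H : HC.co 0 0 g = 0 ∧ HC.co 1 0 g = 0 ∧ HC.co 0 1 g = 0 by
    obtain ⟨H0, H1, H2⟩ := H
    refine zero_of hg fun i j c => ?_
    have hi : i < 2 := by omega
    have hj : j < 2 := by omega
    interval_cases i <;> interval_cases j <;> first | assumption | omega
  have z2 : z - 1 ≠ 0 := sub_ne_zero.2 z1
  have e1 := (eqs h 0 0 1 (by norm_num) (by norm_num) (by norm_num)).1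
  rw [l3 g 0 0 1 (show _ = [3 / 2, 0, 0] by decide +kernel)] at e1
  push_cast at e1
  have e2 := (eqs h 1 1 2 (by norm_num) (by norm_num) (by norm_num)).1
  rw [l3 g 1 1 2 (show _ = [(-1), 0, (-1)] by decide +kernel)] at e2
  push_cast at e2
  have e3 := (eqs h 0 0 1 (by norm_num) (by norm_num) (by norm_num)).2
  rw [l3 g 0 0 4 (show _ = [-(1 / 54), 1 / 6, -(1 / 18)] by decide +kernel),
    l3 g 0 0 1 (show _ = [3 / 2, 0, 0] by decide +kernel)] at e3
  push_cast at e3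
  have e4 := (eqs h 1 1 2 (by norm_num) (by norm_num) (by norm_num)).2
  rw [l3 g 1 1 5 (show _ = [1 / 162, -(1 / 9), 2 / 81] by decide +kernel),
    l3 g 1 1 2 (show _ = [(-1), 0, (-1)] by decide +kernel)] at e4
  push_cast at e4
  have e5 := (eqs h 0 1 0 (by norm_num) (by norm_num) (by norm_num)).2
  rw [l3 g 0 1 3 (show _ = [0, 1 / 3, -(1 / 27)] by decide +kernel),
    l3 g 0 1 0 (show _ = [0, 0, 1] by decide +kernel)] at e5
  push_cast at e5
  generalize HC.co 0 0 g = c at *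
  generalize HC.co 1 0 g = a at *
  generalize HC.co 0 1 g = b at *
  have hc : c = 0 := mul_left_cancel₀ z2 (by linear_combination (2 / 3) * e1)
  subst hc
  have hb : b = 0 := by
    by_contra hb
    have : z + 1 = 0 := mul_left_cancel₀ z2 (mul_left_cancel₀ hb (by linear_combination -e2))
    obtain rfl : z = -1 := by linear_combination this
    exact hb (by linear_combination (27 / 2) * (3 * e4 + e5))
  subst hb
  refine ⟨rfl, by_contra fun ha => pw z1 4 ?_ ?_, rfl⟩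
  · exact mul_left_cancel₀ z0 (mul_left_cancel₀ ha (by linear_combination 6 * e3))
  · exact mul_left_cancel₀ z0 (mul_left_cancel₀ ha (by linear_combination (-9) * e4))

theorem chk4 : ChkStmt 4 2 1 1 1 1 := by
  intro k _ _ g z t hg z0 z1 h
  suffices H : HC.co 0 0 g = 0 ∧ HC.co 1 0 g = 0 ∧ HC.co 0 1 g = 0 ∧ HC.co 2 0 g = 0 ∧ HC.co 1 1 g = 0 ∧ HC.co 0 2 g = 0 by
    obtain ⟨H0, H1, H2, H3, H4, H5⟩ := H
    refine zero_of hg fun i j c => ?_
    have hi : i < 3 := by omega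
    have hj : j < 3 := by omega
    interval_cases i <;> interval_cases j <;> first | assumption | omega
  have z2 : z - 1 ≠ 0 := sub_ne_zero.2 z1
  have e1 := (eqs h 1 0 1 (by norm_num) (by norm_num) (by norm_num)).1
  rw [l4 g 1 0 1 (show _ = [0, 4 / 3, 0, 0, 0, 0] by decide +kernel)] at e1
  push_cast at e1
  have e2 := (eqs h 0 1 1 (by norm_num) (by norm_num) (by norm_num)).1
  rw [l4 g 0 1 1 (show _ = [0, 0, 4 / 3, -(1 / 3), 0, 0] by decide +kernel)] at e2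
  push_cast at e2
  have e3 := (eqs h 1 0 1 (by norm_num) (by norm_num) (by norm_num)).2
  rw [l4 g 1 0 5 (show _ = [0, 1 / 128, -(1 / 16), 1 / 32, -(1 / 16), 0] by decide +kernel),
    l4 g 1 0 1 (show _ = [0, 4 / 3, 0, 0, 0, 0] by decide +kernel)] at e3
  push_cast at e3
  have e4 := (eqs h 0 1 1 (by norm_num) (by norm_num) (by norm_num)).2
  rw [l4 g 0 1 5 (show _ = [0, 0, 5 / 768, -(3 / 1024), 5 / 192, -(1 / 16)] by decide +kernel),
    l4 g 0 1 1 (show _ = [0, 0, 4 / 3, -(1 / 3), 0, 0] by decide +kernel)] at e4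
  push_cast at e4
  have e5 := (eqs h 2 1 3 (by norm_num) (by norm_num) (by norm_num)).1
  rw [l4 g 2 1 3 (show _ = [(-1), (-1), 0, 0, 0, -(1 / 16)] by decide +kernel)] at e5
  push_cast at e5
  have e6 := (eqs h 1 2 3 (by norm_num) (by norm_num) (by norm_num)).1
  rw [l4 g 1 2 3 (show _ = [0, 1 / 4, (-1), 1 / 2, 0, 0] by decide +kernel)] at e6
  push_cast at e6
  have e7 := (eqs h 0 0 2 (by norm_num) (by norm_num) (by norm_num)).1
  rw [l4 g 0 0 2 (show _ = [2, 0, 0, 0, 0, 1 / 16] by decide +kernel)] at e7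
  push_cast at e7
  have e8 := (eqs h 2 2 2 (by norm_num) (by norm_num) (by norm_num)).1
  rw [l4 g 2 2 2 (show _ = [0, 0, (-1), 3 / 8, (-1), 0] by decide +kernel)] at e8
  push_cast at e8
  generalize HC.co 0 0 g = a at *
  generalize HC.co 1 0 g = x at *
  generalize HC.co 0 1 g = y at *
  generalize HC.co 2 0 g = b at *
  generalize HC.co 1 1 g = c at *
  generalize HC.co 0 2 g = e at *
  have hx : x = 0 := mul_left_cancel₀ z2 (by linear_combination (3 / 4) * e1)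
  have hy : b = 4 * y := mul_left_cancel₀ z2 (by linear_combination (-3) * e2)
  subst hx hy
  have k3 : z ^ 3 - 1 ≠ 0 → y = 0 ∧ e = -(16 * a) := fun z3 =>
    ⟨mul_left_cancel₀ z3 (by linear_combination e6),
      mul_left_cancel₀ z3 (by linear_combination (-16) * e5)⟩
  have k2 : z ^ 2 - 1 ≠ 0 → y = 2 * c ∧ e = -(32 * a) := fun z3 =>
    ⟨mul_left_cancel₀ z3 (by linear_combination 2 * e8),
      mul_left_cancel₀ z3 (by linear_combination 16 * e7)⟩
  have k5 : z ^ 5 - 1 ≠ 0 → c = y ∧ y = 3 * e := fun z5 => by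
    have h1 : c = y := mul_left_cancel₀ (mul_ne_zero z0 z5) (by linear_combination (-16) * e3)
    subst h1
    exact ⟨rfl, mul_left_cancel₀ (mul_ne_zero z0 z5) (by linear_combination 48 * e4)⟩
  have H : y = 0 ∧ c = 0 ∧ e = 0 ∧ a = 0 := by
    by_cases z3 : z ^ 3 - 1 = 0
    · have n2 : z ^ 2 - 1 ≠ 0 := fun c2 => pw z1 2 (sub_eq_zero.1 c2) (sub_eq_zero.1 z3)
      have n5 : z ^ 5 - 1 ≠ 0 := fun c5 => n2 (by linear_combination c5 - z ^ 2 * z3)
      obtain ⟨a1, a2⟩ := k2 n2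
      obtain ⟨a3, a4⟩ := k5 n5
      exact ⟨by linear_combination -a1 - 2 * a3, by linear_combination -a1 - a3,
        by linear_combination (-1 / 3) * (a4 + a1 + 2 * a3),
        by linear_combination (1 / 32) * a2 + (1 / 96) * (a4 + a1 + 2 * a3)⟩
    · obtain ⟨a1, a2⟩ := k3 z3
      by_cases n2 : z ^ 2 - 1 = 0
      · have n5 : z ^ 5 - 1 ≠ 0 := fun c5 => z3 (by linear_combination c5 - z ^ 3 * n2)
        obtain ⟨a3, a4⟩ := k5 n5
        exact ⟨a1, by linear_combination a3 + a1, by linear_combination (1 / 3) * (a1 - a4),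
          by linear_combination (1 / 16) * a2 - (1 / 48) * (a1 - a4)⟩
      · obtain ⟨a3, a4⟩ := k2 n2
        exact ⟨a1, by linear_combination (1 / 2) * (a1 - a3), by linear_combination 2 * a2 - a4,
          by linear_combination (1 / 16) * (a4 - a2)⟩
  obtain ⟨rfl, rfl, rfl, rfl⟩ := H
  exact ⟨rfl, rfl, rfl, mul_zero _, rfl, rfl⟩

theorem Chk.blkA {k : Type} [Field k] [CharZero k] {z t u v : k} (z0 : z ≠ 0) (z1 : z ≠ 1)
    (e1 : (z - 1) * (5 * u - v) = 0) (e2 : (z ^ 4 - 1) * (-20 * u + 7 * v) = 0)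
    (e3 : z * (z ^ 6 - 1) * (-30 * u + 11 * v) + (2 * z - 6) * t * (15625 / 4 * (5 * u - v)) = 0)
    (e4 : z * (z ^ 5 - 1) * (25 * u - 9 * v) - 15625 * t * v = 0)
    (e5 : z * (z ^ 9 - 1) * (315 * u - 119 * v) +
      (5 * z ^ 4 - 6) * t * (31250 * (-20 * u + 7 * v)) = 0) : u = 0 ∧ v = 0 := by
  have hv : v = 5 * u := mul_left_cancel₀ (sub_ne_zero.2 z1) (by linear_combination -e1)
  subst hv
  suffices H : u = 0 by simp [H]
  by_contra hu
  have a4 : z ^ 4 - 1 = 0 := mul_left_cancel₀ hu (by linear_combination (1 / 15) * e2)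
  have a6 : z ^ 6 - 1 = 0 :=
    mul_left_cancel₀ (mul_ne_zero z0 hu) (by linear_combination (1 / 25) * e3)
  have a2 : z + 1 = 0 :=
    mul_left_cancel₀ (sub_ne_zero.2 z1) (by linear_combination a6 - z ^ 2 * a4)
  obtain rfl : z = -1 := by linear_combination a2
  exact hu (by linear_combination (1 / 320) * (6 * e4 - e5))

theorem Chk.blkB {k : Type} [Field k] [CharZero k] {z t u v : k} (z0 : z ≠ 0) (z1 : z ≠ 1)
    (e1 : (z ^ 2 - 1) * (25 * u + v) = 0) (e2 : (z ^ 3 - 1) * (25 * u + 2 * v) = 0)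
    (e3 : z * (z ^ 5 - 1) * (125 * u + 14 * v) + 15625 * t * v = 0)
    (e4 : z * (z ^ 7 - 1) * (175 * u + 22 * v) -
      (3 * z ^ 2 - 6) * t * (31250 / 3 * (25 * u + v)) = 0) : u = 0 ∧ v = 0 := by
  by_cases z2 : z ^ 2 - 1 = 0
  · have a2 : z + 1 = 0 := mul_left_cancel₀ (sub_ne_zero.2 z1) (by linear_combination z2)
    obtain rfl : z = -1 := by linear_combination a2
    have hu : u = -(2 / 25 * v) := by linear_combination (-1 / 50) * e2
    subst hu
    have hv : v = 0 := by linear_combination (1 / 32) * (2 * e3 + e4)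
    simp [hv]
  · have hv : v = -(25 * u) := mul_left_cancel₀ z2 (by linear_combination e1)
    subst hv
    suffices H : u = 0 by simp [H]
    by_contra hu
    have a3 : z ^ 3 - 1 = 0 := mul_left_cancel₀ hu (by linear_combination (-1 / 25) * e2)
    have a7 : z ^ 7 - 1 = 0 :=
      mul_left_cancel₀ (mul_ne_zero z0 hu) (by linear_combination (-1 / 375) * e4)
    exact z1 (by linear_combination a7 - (z ^ 4 + z) * a3)

theorem chk5 : ChkStmt 5 2 2 3 0 0 := by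
  intro k _ _ g z t hg z0 z1 h
  suffices H : HC.co 0 0 g = 0 ∧ HC.co 1 0 g = 0 ∧ HC.co 0 1 g = 0 ∧ HC.co 2 0 g = 0 ∧ HC.co 1 1 g = 0 ∧ HC.co 0 2 g = 0 ∧ HC.co 3 0 g = 0 ∧ HC.co 2 1 g = 0 ∧ HC.co 1 2 g = 0 ∧ HC.co 0 3 g = 0 by
    obtain ⟨H0, H1, H2, H3, H4, H5, H6, H7, H8, H9⟩ := H
    refine zero_of hg fun i j c => ?_
    have hi : i < 4 := by omega
    have hj : j < 4 := by omega
    interval_cases i <;> interval_cases j <;> first | assumption | omega
  have z2 : z - 1 ≠ 0 := sub_ne_zero.2 z1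
  have e1 := (eqs h 1 1 1 (by norm_num) (by norm_num) (by norm_num)).1
  rw [l5 g 1 1 1 (show _ = [0, 0, 0, 0, 5 / 4, 0, 0, 0, 0, 0] by decide +kernel)] at e1
  push_cast at e1
  have e2 := (eqs h 0 0 3 (by norm_num) (by norm_num) (by norm_num)).1
  rw [l5 g 0 0 3 (show _ = [5 / 2, 0, 0, 0, 1 / 20, 0, 0, 0, 0, 0] by decide +kernel)] at e2
  push_cast at e2
  have e3 := (eqs h 2 2 4 (by norm_num) (by norm_num) (by norm_num)).1
  rw [l5 g 2 2 4 (show _ = [(-1), 0, 0, 0, -(3 / 50), 0, 0, 0, 0, 0] by decide +kernel)] at e3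
  push_cast at e3
  have a1 := (eqs h 2 0 1 (by norm_num) (by norm_num) (by norm_num)).1
  rw [l5 g 2 0 1 (show _ = [0, 0, 0, 5 / 4, 0, 0, 0, 0, 0, -(1 / 4)] by decide +kernel)] at a1
  push_cast at a1
  have a2 := (eqs h 3 1 4 (by norm_num) (by norm_num) (by norm_num)).1
  rw [l5 g 3 1 4 (show _ = [0, 0, 0, -(4 / 75), 0, 0, 0, 0, 0, 7 / 375] by decide +kernel)] at a2
  push_cast at a2
  have a3 := (eqs h 2 0 1 (by norm_num) (by norm_num) (by norm_num)).2
  rw [l5 g 2 0 6 (show _ = [0, 0, 0, -(6 / 3125), 0, 0, 0, 0, 0, 11 / 15625] by decide +kernel),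
    l5 g 2 0 1 (show _ = [0, 0, 0, 5 / 4, 0, 0, 0, 0, 0, -(1 / 4)] by decide +kernel)] at a3
  push_cast at a3
  have a4 := (eqs h 0 3 0 (by norm_num) (by norm_num) (by norm_num)).2
  rw [l5 g 0 3 5 (show _ = [0, 0, 0, 1 / 125, 0, 0, 0, 0, 0, -(9 / 3125)] by decide +kernel),
    l5 g 0 3 0 (show _ = [0, 0, 0, 0, 0, 0, 0, 0, 0, 1] by decide +kernel)] at a4
  push_cast at a4
  have a5 := (eqs h 3 1 4 (by norm_num) (by norm_num) (by norm_num)).2
  rw [l5 g 3 1 9 (show _ = [0, 0, 0, 21 / 781250, 0, 0, 0, 0, 0, -(119 / 11718750)] by decide +kernel),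
    l5 g 3 1 4 (show _ = [0, 0, 0, -(4 / 75), 0, 0, 0, 0, 0, 7 / 375] by decide +kernel)] at a5
  push_cast at a5
  have b1 := (eqs h 0 2 1 (by norm_num) (by norm_num) (by norm_num)).1
  rw [l5 g 0 2 1 (show _ = [0, 0, 0, 0, 0, 5 / 4, -(1 / 4), 0, 0, 0] by decide +kernel)] at b1
  push_cast at b1
  have b2 := (eqs h 1 3 4 (by norm_num) (by norm_num) (by norm_num)).1
  rw [l5 g 1 3 4 (show _ = [0, 0, 0, 0, 0, -(4 / 75), 7 / 375, 0, 0, 0] by decide +kernel)] at b2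
  push_cast at b2
  have b3 := (eqs h 0 2 1 (by norm_num) (by norm_num) (by norm_num)).2
  rw [l5 g 0 2 6 (show _ = [0, 0, 0, 0, 0, -(6 / 3125), 11 / 15625, 0, 0, 0] by decide +kernel),
    l5 g 0 2 1 (show _ = [0, 0, 0, 0, 0, 5 / 4, -(1 / 4), 0, 0, 0] by decide +kernel)] at b3
  push_cast at b3
  have b4 := (eqs h 3 0 0 (by norm_num) (by norm_num) (by norm_num)).2
  rw [l5 g 3 0 5 (show _ = [0, 0, 0, 0, 0, 1 / 125, -(9 / 3125), 0, 0, 0] by decide +kernel),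
    l5 g 3 0 0 (show _ = [0, 0, 0, 0, 0, 0, 1, 0, 0, 0] by decide +kernel)] at b4
  push_cast at b4
  have b5 := (eqs h 1 3 4 (by norm_num) (by norm_num) (by norm_num)).2
  rw [l5 g 1 3 9 (show _ = [0, 0, 0, 0, 0, 21 / 781250, -(119 / 11718750), 0, 0, 0] by decide +kernel),
    l5 g 1 3 4 (show _ = [0, 0, 0, 0, 0, -(4 / 75), 7 / 375, 0, 0, 0] by decide +kernel)] at b5
  push_cast at b5
  have c1 := (eqs h 1 0 2 (by norm_num) (by norm_num) (by norm_num)).1
  rw [l5 g 1 0 2 (show _ = [0, 5 / 3, 0, 0, 0, 0, 0, 1 / 15, 0, 0] by decide +kernel)] at c1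
  push_cast at c1
  have c2 := (eqs h 3 2 3 (by norm_num) (by norm_num) (by norm_num)).1
  rw [l5 g 3 2 3 (show _ = [0, (-1), 0, 0, 0, 0, 0, -(2 / 25), 0, 0] by decide +kernel)] at c2
  push_cast at c2
  have c3 := (eqs h 2 1 0 (by norm_num) (by norm_num) (by norm_num)).2
  rw [l5 g 2 1 5 (show _ = [0, -(1 / 25), 0, 0, 0, 0, 0, -(14 / 3125), 0, 0] by decide +kernel),
    l5 g 2 1 0 (show _ = [0, 0, 0, 0, 0, 0, 0, 1, 0, 0] by decide +kernel)] at c3
  push_cast at c3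
  have c4 := (eqs h 1 0 2 (by norm_num) (by norm_num) (by norm_num)).2
  rw [l5 g 1 0 7 (show _ = [0, -(7 / 6250), 0, 0, 0, 0, 0, -(11 / 78125), 0, 0] by decide +kernel),
    l5 g 1 0 2 (show _ = [0, 5 / 3, 0, 0, 0, 0, 0, 1 / 15, 0, 0] by decide +kernel)] at c4
  push_cast at c4
  have d1 := (eqs h 0 1 2 (by norm_num) (by norm_num) (by norm_num)).1
  rw [l5 g 0 1 2 (show _ = [0, 0, 5 / 3, 0, 0, 0, 0, 0, 1 / 15, 0] by decide +kernel)] at d1
  push_cast at d1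
  have d2 := (eqs h 2 3 3 (by norm_num) (by norm_num) (by norm_num)).1
  rw [l5 g 2 3 3 (show _ = [0, 0, (-1), 0, 0, 0, 0, 0, -(2 / 25), 0] by decide +kernel)] at d2
  push_cast at d2
  have d3 := (eqs h 1 2 0 (by norm_num) (by norm_num) (by norm_num)).2
  rw [l5 g 1 2 5 (show _ = [0, 0, -(1 / 25), 0, 0, 0, 0, 0, -(14 / 3125), 0] by decide +kernel),
    l5 g 1 2 0 (show _ = [0, 0, 0, 0, 0, 0, 0, 0, 1, 0] by decide +kernel)] at d3
  push_cast at d3
  have d4 := (eqs h 0 1 2 (by norm_num) (by norm_num) (by norm_num)).2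
  rw [l5 g 0 1 7 (show _ = [0, 0, -(7 / 6250), 0, 0, 0, 0, 0, -(11 / 78125), 0] by decide +kernel),
    l5 g 0 1 2 (show _ = [0, 0, 5 / 3, 0, 0, 0, 0, 0, 1 / 15, 0] by decide +kernel)] at d4
  push_cast at d4
  generalize HC.co 0 0 g = g00 at *
  generalize HC.co 1 0 g = g10 at *
  generalize HC.co 0 1 g = g01 at *
  generalize HC.co 2 0 g = g20 at *
  generalize HC.co 1 1 g = g11 at *
  generalize HC.co 0 2 g = g02 at *
  generalize HC.co 3 0 g = g30 at *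
  generalize HC.co 2 1 g = g21 at *
  generalize HC.co 1 2 g = g12 at *
  generalize HC.co 0 3 g = g03 at *
  have h11 : g11 = 0 := mul_left_cancel₀ z2 (by linear_combination (4 / 5) * e1)
  subst h11
  have h00 : g00 = 0 := by_contra fun ha => pw z1 3
    (mul_left_cancel₀ ha (by linear_combination (2 / 5) * e2))
    (mul_left_cancel₀ ha (by linear_combination -e3))
  obtain ⟨h20, h03⟩ := blkA (t := t) (u := g20) (v := g03) z0 z1 (by linear_combination 4 * a1)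
    (by linear_combination 375 * a2) (by linear_combination 15625 * a3)
    (by linear_combination 3125 * a4) (by linear_combination 11718750 * a5)
  obtain ⟨h02, h30⟩ := blkA (t := t) (u := g02) (v := g30) z0 z1 (by linear_combination 4 * b1)
    (by linear_combination 375 * b2) (by linear_combination 15625 * b3)
    (by linear_combination 3125 * b4) (by linear_combination 11718750 * b5)
  obtain ⟨h10, h21⟩ := blkB (t := t) (u := g10) (v := g21) z0 z1 (by linear_combination 15 * c1)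
    (by linear_combination (-25) * c2) (by linear_combination (-3125) * c3)
    (by linear_combination (-156250) * c4)
  obtain ⟨h01, h12⟩ := blkB (t := t) (u := g01) (v := g12) z0 z1 (by linear_combination 15 * d1)
    (by linear_combination (-25) * d2) (by linear_combination (-3125) * d3)
    (by linear_combination (-156250) * d4)
  exact ⟨h00, h10, h01, h20, rfl, h02, h30, h21, h12, h03⟩

end Pool.Agent.MP_05b4bd_ag.ES
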