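import Pool.Agent.MP_05b4bd_ag.esc.S2b
import Pool.Agent.MP_05b4bd_ag.esc.Log1
import Pool.Agent.MP_05b4bd_ag.esc3.Spec

/-! Escaping centres in degree at least three: the logarithm is an infinitesimal symmetry. -/

namespace Pool.Agent.MP_05b4bd_ag.ES

open PowerSeries LaurentSeries HC

open Log1 in
theorem log1S3 (hH : HolStmt) (hA : DerAlgStmt) : Log1Stmt3 := by
  intro k _ _ _ m M β j hm' hm hj h1 hs h0 hβ
  have : CharZero k⸨X⸩ := charK
  have kl := fun δ => kill hm' hj hs h0 hβ (δ := δ)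
  obtain ⟨-, A2, A3, ⟨N, hN⟩, -, A6⟩ :=
    hA k⸨X⸩ (Subfield.closure (Set.range (cL k) ∪ {coeL k (exp k)}))
  have mκ : ∀ r, cL k r ∈ Subfield.closure (Set.range (cL k) ∪ {coeL k (exp k)}) := fun r =>
    Subfield.subset_closure (Or.inl ⟨r, rfl⟩)
  have mE : coeL k (exp k) ∈ Subfield.closure (Set.range (cL k) ∪ {coeL k (exp k)}) :=
    Subfield.subset_closure (Or.inr rfl)
  have le : Subfield.closure (Set.range (cL k) ∪ {coeL k (exp k)}) ≤ N := fun z hz =>
    (hN z).2 (isAlgebraic_algebraMap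
      (⟨z, hz⟩ : Subfield.closure (Set.range (cL k) ∪ {coeL k (exp k)})))
  have st : ∀ z ∈ N, dL k z ∈ N := fun z hz =>
    A2 _ isDer_dL N le (fun w hw => le (A6 _ isDer_dL _ (by
      rintro _ (⟨r, rfl⟩ | rfl)
      · exact ⟨mκ r, by rw [dL_cL]; exact zero_mem _⟩
      · exact ⟨mE, by rw [dL_E]; exact mE⟩) w hw)) z hz ((hN z).1 hz)
  have inN : ∀ z, (∀ δ : k⸨X⸩ →+ k⸨X⸩, IsDer δ → (∀ r, δ (cL k r) = 0) →
      δ (coeL k (exp k)) = 0 → δ z = 0) → z ∈ N := fun z hz =>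
    (hN z).2 (A3 z fun δ hδ h => hz δ hδ (fun r => h _ (mκ r)) (h _ mE))
  have hol := fun η e1 e2 => hol2 hH (cL k) isDer_dL dL_cL _ N hN st (η := η) (e1 := e1) (e2 := e2)
  have En : coeL k (exp k) ≠ 0 := exp_ne _
  have dx : dL k (coeL k X) = 1 := by rw [dL_coeL, dX_X, map_one]
  obtain ⟨δ0, d0, k0, e0, x0⟩ : ∃ δ : k⸨X⸩ →+ k⸨X⸩, IsDer δ ∧ (∀ r, δ (cL k r) = 0) ∧
      δ (coeL k (exp k)) = 0 ∧ δ (coeL k X) = 1 := by
    have : coeL k X ∉ N := fun c => by
      have := hol _ _ _ c (le mE) (le mE) En En 1 0 (by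
        rw [dx, dL_E, div_self En, map_one, map_zero]; ring)
      rw [dx] at this
      exact one_ne_zero this
    have h := mt (inN _) this
    push Not at h
    obtain ⟨δ, a, b, c, d⟩ := h
    refine ⟨(AddMonoidHom.mulLeft (δ (coeL k X))⁻¹).comp δ, a.mulLeft _, fun r => ?_, ?_, ?_⟩
    · change _ * δ _ = 0
      rw [b, mul_zero]
    · change _ * δ _ = 0
      rw [c, mul_zero]
    · exact inv_mul_cancel₀ d
  by_cases P : ∀ δ : k⸨X⸩ →+ k⸨X⸩, IsDer δ → (∀ r, δ (cL k r) = 0) →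
      δ (coeL k (exp k)) = 0 → δ (coeL k X) = 0 → δ (coeL k j) = 0
  · exfalso
    have E'n : coeL k (sb j (exp k)) ≠ 0 := exp_ne ((coeL k).comp (sb j))
    have dE' : dL k (coeL k (sb j (exp k))) = coeL k (sb j (exp k)) * dL k (coeL k j) := by
      rw [dL_coeL, dL_coeL, dX_sb hj, dX_exp, map_mul]
    have cm : ∀ z, (δ0.comp (dL k) - (dL k).comp δ0) z = δ0 (dL k z) - dL k (δ0 z) := fun _ => rfl
    have dΔ := d0.comm (isDer_dL (R := k))
    have Δκ : ∀ r, (δ0.comp (dL k) - (dL k).comp δ0) (cL k r) = 0 := fun r => by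
      rw [cm, dL_cL, k0, map_zero, map_zero, sub_zero]
    have ΔE : (δ0.comp (dL k) - (dL k).comp δ0) (coeL k (exp k)) = 0 := by
      rw [cm, dL_E, e0, map_zero, sub_zero]
    have Δx : (δ0.comp (dL k) - (dL k).comp δ0) (coeL k X) = 0 := by
      rw [cm, dx, x0, d0.one, isDer_dL.one, sub_zero]
    have q1 := P _ dΔ Δκ ΔE Δx
    have q2 := kl _ dΔ Δκ ΔE
    rw [cm, dE', d0, kl _ d0 k0 e0, map_zero, sub_zero, zero_mul, zero_add] at q2
    rw [cm, (mul_eq_zero.1 q2).resolve_left E'n, zero_sub, neg_eq_zero] at q1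
    obtain ⟨c, hc⟩ := const_dL q1
    have mη : coeL k j - cL k c * coeL k X ∈ N := inN _ fun δ a b e => by
      have cm' : ∀ z, (δ - (AddMonoidHom.mulLeft (δ (coeL k X))).comp δ0) z =
          δ z - δ (coeL k X) * δ0 z := fun _ => rfl
      have := P _ (a.sub (d0.mulLeft (δ (coeL k X)))) (fun r => by rw [cm', b, k0]; ring)
        (by rw [cm', e, e0]; ring) (by rw [cm', x0]; ring)
      rw [cm', hc] at this
      rw [map_sub, a.const_mul (b c)]
      linear_combination this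
    have dη : dL k (coeL k j - cL k c * coeL k X) = dL k (coeL k j) - cL k c := by
      rw [map_sub, isDer_dL.const_mul (dL_cL c), dx, mul_one]
    have q3 := hol _ _ _ mη (inN _ kl) (le mE) E'n En 1 (-c) (by
      rw [dη, dE', dL_E, div_self En, map_one, map_neg, mul_div_cancel_left₀ _ E'n]; ring)
    rw [dη, dL_coeL, ← coeL_C, ← map_sub] at q3
    have q4 : dX k j - C c = 0 := coeL_inj (by rw [q3, map_zero])
    have q5 : j - C c * X = C (cc (j - C c * X)) := eq_C_of_dX (by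
      rw [map_sub, isDer_dX.const_mul (dX_C c), dX_X, mul_one, q4])
    have q6 : j = C c * X := by
      rw [map_sub, hj, map_mul, constantCoeff_X, mul_zero, sub_zero, map_zero] at q5
      exact sub_eq_zero.1 q5
    refine hm c (fun e => h1 (by rw [q6, e]; simp)) ?_
    rw [rescale_eq_sb, ← q6, hs]
  · push Not at P
    obtain ⟨δ, a, b, e, x, d⟩ := P
    have cm : ∀ z, (δ0 - (AddMonoidHom.mulLeft (δ0 (coeL k j) / δ (coeL k j))).comp δ) z =
        δ0 z - δ0 (coeL k j) / δ (coeL k j) * δ z := fun _ => rfl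
    have dd := d0.sub (a.mulLeft (δ0 (coeL k j) / δ (coeL k j)))
    have hk : ∀ r, (δ0 - (AddMonoidHom.mulLeft (δ0 (coeL k j) / δ (coeL k j))).comp δ)
        (cL k r) = 0 := fun r => by rw [cm, k0, b]; ring
    have he : (δ0 - (AddMonoidHom.mulLeft (δ0 (coeL k j) / δ (coeL k j))).comp δ)
        (coeL k (exp k)) = 0 := by rw [cm, e0, e]; ring
    exact ⟨_, dd, hk, he, kl _ dd hk he, by rw [cm, x0, x]; ring,
      by rw [cm, div_mul_cancel₀ _ d, sub_self]⟩

namespace Log3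

open Log2

variable {k : Type} [Field k] [CharZero k]

omit [CharZero k] in
theorem rs_C (c u : k) : rescale c (C u : k⟦X⟧) = C u := by
  rw [rescale_eq_sb, sb_C (by simp)]

/-- The square of a sum of exponentials has no linear symmetry. -/
theorem sq (hE : ExpStmt) {m : ℤ} {M : ℕ} (hm : ¬ (M : ℤ) ∣ 2 * m) {A : k⟦X⟧}
    (hA : A ∈ ExpCl k m M) (h0 : A * dX k A ≠ 0) {c : k} (hc : c ≠ 1)
    (e : A * dX k A = C c * rescale c (A * dX k A)) : False := by
  have fx : ∀ c : k, c ≠ 1 → rescale c A ≠ A := fun c hc s =>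
    Log1.lin hE hm hc (right_ne_zero_of_mul h0) ((hE k).2.2.1 _ _ _ hA)
      (by rw [← dX_rescale, s])
  rw [map_mul, mul_left_comm, ← dX_rescale] at e
  have q := eq_C_of_dX (f := rescale c A * rescale c A - A * A) (by
    rw [map_sub, isDer_dX, isDer_dX]
    linear_combination -2 * e)
  have c0 : cc (rescale c A) = cc A := by
    rw [← coeff_zero_eq_constantCoeff_apply, coeff_rescale]; simp
  rw [map_sub, map_mul, map_mul, c0, sub_self, map_zero, sub_eq_zero, mul_self_eq_mul_self_iff] at q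
  rcases q with q | q
  · exact fx c hc q
  by_cases c1 : c = -1
  · exact Log1.lin hE hm hc (left_ne_zero_of_mul h0) hA (by rw [q, c1]; simp)
  · exact fx (c * c) (fun z => (mul_self_eq_one_iff.1 z).elim hc c1)
      (by rw [← rescale_rescale, q, map_neg, q, neg_neg])

/-- One of the two Lienard functions has a non-zero leading form made of exponentials. -/
theorem lead3 (hE : ExpStmt) {d N n : ℕ} (hd : 3 ≤ d) (hN : 1 ≤ N) (hn : 1 ≤ n) {a b g0 g1 : AA k}
    (h0 : a ≠ 0 ∨ b ≠ 0) (ha : ∀ m, coeff m (swap a) ∈ ExpCl k (-N) (d * N))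
    (hb : ∀ m, coeff m (swap b) ∈ ExpCl k (-N) (d * N))
    (h : Lead (-(d : AA k)) (C (X ^ n)) (dX _) a b g0 g1) :
    ∃ (g H : AA k) (e : ℕ) (m : ℤ), (g = g0 ∨ g = g1) ∧ dX _ g = C X ^ e * H ∧ red H ≠ 0 ∧
      red H ∈ ExpCl k m (d * N) ∧ ¬ ((d * N : ℕ) : ℤ) ∣ m ∧
      ∀ β, dX k β = red H → ∀ c : k, c ≠ 1 → rescale c β ≠ β := by
  obtain ⟨-, E2, E3, E4⟩ := hE k
  obtain ⟨μ, a, b, rfl, rfl, hab⟩ := tfac2 h0
  have ma := ha μ
  have mb := hb μ
  rw [coeff_swap] at ma mb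
  obtain ⟨⟨e1, e2, e3, h1⟩, e4, e5, h2⟩ := h
  have dk : (d : k) ≠ 0 := Nat.cast_ne_zero.2 (by omega)
  have ui : (CC (d : k)⁻¹ : AA k) * d = 1 := by
    rw [← map_natCast (CC : k →+* AA k), ← map_mul, inv_mul_cancel₀ dk, map_one]
  have rt : red (C (X ^ n) : AA k) = 0 := by rw [red_C, cc_X_pow hn, map_zero]
  have rc : red (CC (d : k)⁻¹ : AA k) = C (d : k)⁻¹ := by rw [CC_apply, red_C, constantCoeff_C]
  have cz : (C (d : k)⁻¹ : k⟦X⟧) ≠ 0 := by
    intro z
    exact inv_ne_zero dk (by simpa using congrArg cc z)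
  have da : dX _ (C X ^ μ * a) = C X ^ μ * dX _ a :=
    isDer_dX.const_mul (by rw [← map_pow, dX_C]) a
  have nd : ∀ j : ℕ, 1 ≤ j → j ≤ 2 → ¬ ((d * N : ℕ) : ℤ) ∣ -((j * N : ℕ) : ℤ) := fun j j1 j4 z => by
    have := Nat.le_of_dvd (by positivity) (Int.natCast_dvd_natCast.1 (dvd_neg.1 z))
    nlinarith
  have sm : ∀ {m M} {x : k⟦X⟧}, x ∈ ExpCl k m M → C (d : k)⁻¹ * x ∈ ExpCl k m M := fun hx => by
    rw [← smul_eq_C_mul]; exact Submodule.smul_mem _ _ hx
  have rd : red (dX _ a) = dX k (red a) := (dX_map _ _).symm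
  have n1 : ¬ ((d * N : ℕ) : ℤ) ∣ -(N : ℤ) := by simpa using nd 1 le_rfl (by norm_num)
  have n2 : ¬ ((d * N : ℕ) : ℤ) ∣ 2 * -(N : ℤ) := by simpa using nd 2 (by norm_num) le_rfl
  by_cases c1 : red b - dX k (red a) = 0
  · have c2 : red a * red b ≠ 0 := fun z => by
      have za : red a = 0 := by
        rcases mul_eq_zero.1 z with z | z
        · exact z
        · refine E4 _ _ n1 _ ma ?_
          rwa [z, zero_sub, neg_eq_zero] at c1
      rw [za, map_zero, sub_zero] at c1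
      exact hab.elim (fun q => q za) fun q => q c1
    have r : red (CC (d : k)⁻¹ * (CC (d : k)⁻¹ * (a * b + C (X ^ n) * (a * (e4 * a + e5 * b))))) =
        C (d : k)⁻¹ * (C (d : k)⁻¹ * (red a * red b)) := by
      rw [map_mul, map_mul, map_add, map_mul, map_mul, rt, rc, zero_mul, add_zero]
    refine ⟨g0, CC (d : k)⁻¹ * (CC (d : k)⁻¹ * (a * b + C (X ^ n) * (a * (e4 * a + e5 * b)))),
      2 * μ, -N + -N, Or.inl rfl, ?_, ?_, ?_, by rwa [← two_mul], fun β e c hc s => ?_⟩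
    · linear_combination (CC (d : k)⁻¹) ^ 2 * h2 -
        (CC (d : k)⁻¹ * d + 1) * dX k⟦X⟧ g0 * ui
    · rw [r]; exact mul_ne_zero cz (mul_ne_zero cz c2)
    · rw [r]; exact sm (sm (E2 _ _ _ _ ma _ mb))
    · rw [sub_eq_zero.1 c1] at c2 r
      have q := dX_rescale c β
      rw [s, e, r, map_mul (rescale c), map_mul (rescale c), rs_C, mul_left_comm (C c),
        mul_left_comm (C c)] at q
      exact sq hE n2 ma c2 hc (mul_left_cancel₀ cz (mul_left_cancel₀ cz q))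
  · have r : red (CC (d : k)⁻¹ * (b - dX _ a - C (X ^ n) * (e1 * a + e2 * dX _ a + e3 * b))) =
        C (d : k)⁻¹ * (red b - dX k (red a)) := by
      rw [map_mul, map_sub, map_sub, map_mul, rt, rc, rd, zero_mul, sub_zero]
    refine ⟨g1, CC (d : k)⁻¹ * (b - dX _ a - C (X ^ n) * (e1 * a + e2 * dX _ a + e3 * b)),
      μ, -N, Or.inr rfl, ?_, ?_, ?_, n1, fun β e c hc s => ?_⟩
    · rw [da] at h1
      linear_combination -(CC (d : k)⁻¹) * h1 - dX k⟦X⟧ g1 * ui
    · rw [r]; exact mul_ne_zero cz c1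
    · rw [r]; exact sm (sub_mem mb (E3 _ _ _ ma))
    · have q := dX_rescale c β
      rw [s, e, r] at q
      exact Log1.lin hE n2 hc (mul_ne_zero cz c1) (sm (sub_mem mb (E3 _ _ _ ma))) q

end Log3

theorem log2S3 (hD : DiscStmt) (hL : Log1Stmt3) (hP : PsiStmt) (hE : ExpStmt) : Log2Stmt3 := by
  intro k _ _ _ d ε N n ps qs a0 b0 G0 G1 S _ _ ψ1 ψ2 hd hε hN hn p0 q0 q1 pq sa sb' h0 hl hR hx
    e0 e1
  have := K3.charL (κ := k)
  have p1 : ps ≠ 0 := fun z => pow_ne_zero n (X_ne_zero (R := k)) (by rw [← pq, z, zero_mul])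
  obtain ⟨P1, P2, P3, P4, P5, P6, P7, P8⟩ := hP k ε ps qs hε p0 q0 p1 q1
  rw [pq] at P4
  have nz : ∀ c, c ≠ 0 → psiL ε ps qs (mA Polynomial.C c) ≠ 0 := fun c hc z =>
    hc (mA_inj Polynomial.C_injective (P1 (by rw [z, map_zero, map_zero])))
  have hl' := hl.push (psiL ε ps qs) (D' := dX _) (P3 _) (P3 _) (P3 _)
  rw [map_neg, map_natCast, P4] at hl'
  obtain ⟨g, H, e, m, hg, g1, g2, g3, g4, g5⟩ := Log3.lead3 hE hd hN hn (h0.imp (nz _) (nz _))
    (fun i => by rw [P2]; exact P8 _ _ _ sa i) (fun i => by rw [P2]; exact P8 _ _ _ sb' i) hl'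
  obtain ⟨Φ, σ, β, o, s0, s1, s2, s3, s4, s5⟩ := Log2.deck hD hR
    (fun z => hx (RingHom.congr_fun z X)) g1 g2 (by rcases hg with rfl | rfl <;> assumption)
  obtain ⟨δ, d0, d1, d2, d3, d4, d5⟩ :=
    hL k m (d * N) β σ g4 (g5 β s4) s0 s2 s3 (by rwa [s4]) (by rwa [s4])
  have pp : red (psiL ε ps qs (C X)) = 0 := by rw [P6, map_mul, red_C, p0]; simp
  have o1 : IsOut 0 (iT : AA k →+* TT k) (coeL k) := out_zero (R := k) ▸ isOut_out 0
  have x0 : coeL k X ≠ 0 := by rw [coeL_X]; exact (isUnit_wL 1).ne_zero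
  have c1 := Log2.chain o1 x0 d0 (fun r => by rw [coeL_C, d1]) (h := 1)
    (by rw [d2, d4, sub_self, zero_mul]) q0 P5 pp P7 P4
  have c2 := Log2.chain o (K3.ne0 s0 s1) d0
    (fun r => by rw [RingHom.comp_apply, sb_C s0, coeL_C, d1]) (h := 0)
    (by simp only [RingHom.comp_apply, sb_X s0, d3, d5, sub_self, zero_mul]) q0 P5 pp P7 P4
  have c3 := Log2.chain o (K3.ne0 s0 s1) isDer_dL
    (fun r => by rw [RingHom.comp_apply, sb_C s0, dL_coeL, dX_C, map_zero]) (h := 0)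
    (by
      simp only [RingHom.comp_apply, sb_X s0, dL_coeL, dX_sb s0, sub_zero,
        show dX k (exp k) = exp k from derivative_exp k, map_mul]
      ring) q0 P5 pp P7 P4
  have u1 : cw δ (iT (X : AA k)) - C 1 = 0 := by rw [iT_X, cw_C, ← coeL_X, d4, sub_self]
  have key : ∀ G, ψ1 (psiL ε ps qs G) = ψ2 (psiL ε ps qs G) →
      iT (psiL ε ps qs (dl2 k G)) = cw δ (Φ X) * Φ (psiL ε ps qs (DG k ε G)) ∧
      iT (psiL ε ps qs (DG k ε G)) = cw (dL k) (Φ X) * Φ (psiL ε ps qs (DG k ε G)) := by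
    intro G eG
    have q := (s5 _).2 eG
    have a1 := c1 G
    have a2 := c2 G
    have a3 := c3 G
    rw [u1, zero_mul, zero_add, map_one, one_mul, ← q, a2] at a1
    rw [q, dL_iT, P3] at a3
    simp only [map_zero, sub_zero, zero_mul, add_zero] at a1 a3
    exact ⟨a1.symm, a3⟩
  obtain ⟨k1, k2⟩ := key G0 e0
  obtain ⟨k3, k4⟩ := key G1 e1
  refine P1 (iT_inj ?_)
  rw [map_mul, map_mul, map_mul, map_mul, k1, k2, k3, k4]
  ring

end Pool.Agent.MP_05b4bd_ag.ES
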