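import Pool.Agent.MP_05b4bd_ag.esc3.Spec
import Pool.Agent.MP_05b4bd_ag.esc.S2b
import Pool.Agent.MP_05b4bd_ag.esc.Log1

/-! Blocks that only pass the degree on (first part). -/

namespace Pool.Agent.MP_05b4bd_ag.ES

open PowerSeries LaurentSeries HC

theorem fraS3 (_h1 : GenTopStmt) (h2 : GenCritStmt) (h3 : GenJacStmt) : FraStmt3 := by
  intro k _ _ _ d hd P Q f hf dP dQ rP rQ
  obtain ⟨s, ⟨q, hq⟩, hs, -, hJ, -⟩ := h3 k d f (by omega) hf
  have hb : MvPolynomial.map cc (br P Q) =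
      br (MvPolynomial.pderiv 1 f) (-MvPolynomial.pderiv 0 f) := by rw [map_br, rP, rQ]
  have he := fun q (hq : q ∈ s) =>
    Fra.hess (show 2 ≤ d by omega) (h2 k d f (by omega) hf q ((hs q).1 hq))
  have lf : ∀ q ∈ s, ∃ p : Fin 2 → k⟦X⟧, (∀ i, cc (p i) = q i) ∧ MvPolynomial.eval p P = 0 ∧
      MvPolynomial.eval p Q = 0 := by
    intro q hq
    refine Fra.lift P Q q ?_ ?_ ?_
    · rw [rP]; exact (hs q).1 hq 1
    · rw [rQ, map_neg, (hs q).1 hq 0, neg_zero]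
    · rw [hb]; exact (he q hq).2
  by_cases hO : ∃ o : Ob k d, o.P = P ∧ o.Q = Q
  · exact Or.inl hO
  right
  have st : ∀ (n : ℕ) (H : R2 k⟦X⟧),
      MvPolynomial.map cc H = f ∧ MvPolynomial.C (X ^ (n + 1)) ∣ vf P Q H →
      ∃ H' : R2 k⟦X⟧, (MvPolynomial.map cc H' = f ∧ MvPolynomial.C (X ^ (n + 1 + 1)) ∣ vf P Q H') ∧
        MvPolynomial.C (X ^ (n + 1)) ∣ H' - H := by
    rintro n H ⟨r1, g, hg⟩
    have hj : MvPolynomial.map cc g ∈ Jac f := by
      refine hJ _ fun q hq => ?_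
      obtain ⟨p, p1, p2, p3⟩ := lf q hq
      have := Fra.van hg p2 p3
      rwa [funext p1] at this
    by_cases hc : ∃ u, MvPolynomial.map cc g = br u f
    · obtain ⟨u, hu⟩ := hc
      exact Fra.step rP rQ r1 hg hu
    · exact absurd ⟨⟨P, Q, H, g, f, n + 1, hf, dP, dQ, rP, rQ, r1, Nat.le_add_left 1 n, hg,
        fun u e => hc ⟨u, e⟩, hj⟩, rfl, rfl⟩ hO
  have s0 : MvPolynomial.C (X ^ (0 + 1)) ∣ vf P Q (MvPolynomial.map (C : k →+* k⟦X⟧) f) := by
    rw [zero_add, pow_one]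
    refine Fra.ker_dvd ((Fra.rv rP rQ f).trans ?_)
    rw [br, mul_comm, sub_self]
  obtain ⟨H, hH⟩ := Fra.seq _ _ ⟨_, Fra.map_lift f, s0⟩ st
  obtain ⟨p, p1, p2, p3⟩ := lf q hq
  refine ⟨p, Fra.fin H hH p2 p3 ?_ ?_⟩
  · rw [funext p1]; exact (he q hq).1
  · rw [funext p1, hb]; exact (he q hq).2

open Base in
theorem s1S3 (h1 : DichStmt) (h2 : BaseStmt) (h3 : S1bStmt3) (h4 : S1aStmt3) : S1Stmt3 := by
  intro k U _ _ _ d κ D x y a b J hd ⟨hD, L, _, I, ι, θ, hθ, hι, _, _, _, ea, eb⟩ nd H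
  have : CharZero L := charZero_of_injective_ringHom I.κ.injective
  have nd' : ¬ I.a ∣ X * I.b := fun h => nd (by
    rw [ea, eb, mul_left_comm]
    exact ((nd_map ι).2 h).mul_left _)
  let D1 : U →+ U := (AddMonoidHom.mulLeft θ⁻¹).comp D
  have hD1 : DExt I.D D1 ι := ⟨hD.mulLeft _, fun c => by
    change θ⁻¹ * D (ι c) = _
    rw [hι, inv_mul_cancel_left₀ hθ]⟩
  have H1 : IIF (cw D1) (mA ι I.a) (X * mA ι I.b) J := by
    have e := H.push (D' := cw D1) (η := RingHom.id _) (θ := C θ⁻¹) Function.injective_id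
      (fun c => cw_mulLeft _ _ c)
    simp only [map_id, id_eq] at e
    rwa [ea, eb, ← CC_apply, mul_left_comm, ← mul_assoc (CC θ⁻¹), ← map_mul,
      inv_mul_cancel₀ hθ, map_one, one_mul] at e
  have hu : IsUnit (-(d : L⟦X⟧)) := by
    rw [← map_natCast (C (R := L))]
    exact ((Nat.cast_ne_zero.2 (by omega : d ≠ 0)).isUnit.map _).neg
  obtain ⟨U1, _, D2, i, J1, hD2, ⟨a1, a2, a3⟩ | ⟨ν, a1, a2, a3⟩⟩ :=
    h1 L I.D I.a I.b _ hu (by rw [I.ra, neg_mul]) nd' U D1 ι J hD1 H1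
  · exact h4 k L U1 d I D2 i J1 hd nd' hD2 a1 a2 a3
  obtain ⟨k', L', U', _, _, _, _, _, I', D3, i', jl, j, b1, b2, b3, b4, b5, b6, b7⟩ :=
    h2 k L U1 d I D2 i (by omega) hD2
  have e : i'.comp jl = j.comp i := RingHom.ext b4
  refine h3 k' L' U' d I' D3 i' (mA j J1) ν hd (by rw [b5, b6, nd_map]; exact nd') b1 b7 ?_
    ⟨fun h => a2.1 (map_injective j j.injective ?_), fun m hm => ?_⟩ ?_
  · rw [b5, b6, mA_mA, mA_mA, e, ← mA_mA, ← mA_mA]
    exact IIF_mA b3.2 a1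
  · rw [map_zero, ← h, mA, coeff_map]
  · rw [mA, coeff_map, a2.2 m hm, map_zero]
  · intro U4 _ D4 i4 J4 c1 c2
    rw [b5, b6, mA_mA, mA_mA] at c2
    exact a3 U4 D4 (i4.comp jl) J4
      ⟨c1.1, fun c => by rw [RingHom.comp_apply, c1.2, b2.2, RingHom.comp_apply]⟩ c2

namespace EscS

theorem noPD3 (h3 : AfinStmt3) (h4 : BmkStmt) (h5 : BfinStmt3) {k : Type} [Field k] [CharZero k]
    [IsAlgClosed k] {d : ℕ} (hd : 3 ≤ d) (o : PD k d) : False := by
  by_cases c : (∃ i, 1 ≤ i ∧ co2 i 0 o.b * o.Us ∣ o.zs) ∨ ∃ i, 2 ≤ i ∧ co2 i 0 o.e * o.Us ∣ o.zs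
  · obtain ⟨ε, N, e, a, b, a0, b0, y, n, ps, qs, W, h⟩ := h4 k d o (by omega) c
    exact h5 k d ε N e a b a0 b0 y n ps qs W hd h
  · exact h3 k d o hd
      (fun i hi => (dvd_or _ _).resolve_left fun h => c (Or.inl ⟨i, hi, h⟩))
      fun i hi => (dvd_or _ _).resolve_left fun h => c (Or.inr ⟨i, hi, h⟩)

end EscS

theorem escS3 (h1 : Case8Stmt3) (h2 : PmkStmt3) (h3 : AfinStmt3) (h4 : BmkStmt) (h5 : BfinStmt3) :
    EscStmt3 := by
  intro k _ _ _ d hd o p hp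
  have key : ∀ (n : ℕ) (x y : k⟦X⟧),
      p = ![wL k (-(n : ℤ)) * coeL k x, wL k (-(n : ℤ)) * coeL k y] → ∀ i, ∃ c, p i = coeL k c := by
    intro n
    induction n with
    | zero =>
      intro x y h
      rw [h, Fin.forall_fin_two, Nat.cast_zero, neg_zero, wL_zero, one_mul, one_mul]
      exact ⟨⟨x, rfl⟩, y, rfl⟩
    | succ n ih =>
      intro x y h
      by_cases c : cc x ≠ 0 ∨ cc y ≠ 0
      · rw [h] at hp
        obtain ⟨o'⟩ := h2 k d hd o (n + 1) x y (by omega) c hp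
          (h1 k d hd o (n + 1) x y (by omega) hp)
        exact (EscS.noPD3 h3 h4 h5 hd o').elim
      · obtain ⟨x', rfl⟩ := X_dvd_iff.2 (by_contra fun e : cc x ≠ 0 => c (Or.inl e))
        obtain ⟨y', rfl⟩ := X_dvd_iff.2 (by_contra fun e : cc y ≠ 0 => c (Or.inr e))
        rw [EscS.strip, EscS.strip] at h
        exact ih x' y' h
  obtain ⟨n, x, hx⟩ := exists_wL_mul (p 0)
  obtain ⟨m, y, hy⟩ := exists_wL_mul (p 1)
  refine key (n + m) (X ^ m * x) (X ^ n * y) ?_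
  rw [← EscS.raise, add_comm n m, ← EscS.raise, ← hx, ← hy]
  funext i
  fin_cases i <;> rfl

theorem killS3 (hS : S1Stmt3) : KillStmt3 := by
  intro k U _ _ _ d κ D δ x y a b Wt lam G0 G1 hd hO hL h0 hδ hc ha hb hJ
  obtain ⟨l', hl⟩ := hL.u.exists_right_inv
  have e3 : Wt * cw (cw δ) Wt - cw (cw δ) (C G0) - Wt * cw (cw δ) (C G1) =
      lam * (l' * (Wt * cw (cw δ) Wt - C (cw δ G0) - Wt * C (cw δ G1))) := by
    rw [← mul_assoc, hl, one_mul, cw_C, cw_C]
  have key := Kill.int isDer_dX hO.1.coefw.coefw hδ.coefw.coefw (fun s => dX_cw _ s)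
    (fun s => dX_cw _ s) (fun s => cw_comm (fun s => cw_comm hc s) s) (dX_C G0) (dX_C G1)
    (by rw [cw_C, cw_C, cw_C, cw_C, ← map_mul, ← map_mul, hJ]) hL.ea
    (by rw [cw_C, cw_C]; exact hL.eb) e3
  rw [(hL.u.pow 2).mul_right_eq_zero, ha, hδ.coefw.coefw, hb, cw_X hδ.coefw.one] at key
  have hI : l' * (Wt * cw (cw δ) Wt - C (cw δ G0) - Wt * C (cw δ G1)) = 0 := by
    by_contra hne
    exact hS k U d κ D x y a b _ hd hO (hL.nd h0) ⟨hne, by linear_combination -key⟩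
  rw [hI, mul_zero, cw_C, cw_C] at e3
  have k0 : cw δ G0 = 0 :=
    hL.const ⟨cw (cw δ) Wt - C (cw δ G1), by linear_combination -e3⟩
  have k1 : cw δ G1 = 0 := by
    rw [k0, zero_mul] at hJ
    exact (mul_eq_zero.1 hJ.symm).resolve_right h0
  refine ⟨k0, k1, ?_⟩
  rw [k0, k1, map_zero, mul_zero, sub_zero, sub_zero] at e3
  refine (mul_eq_zero.1 e3).resolve_left fun h => ?_
  have := hL.unit
  rw [h, map_zero] at this
  exact not_isUnit_zero this

namespace S1a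

variable {k L U U' : Type} [Field k] [CharZero k] [Field L] [Field U] [Field U'] {d : ℕ}

theorem step3 (hC : CmpStmt) (hA : AmalgStmt) (hD : DeckStmt) (hI : InvStmt3) [IsAlgClosed k]
    (I : Inf k d L) {D : U →+ U} {i : L →+* U} {r : AA U} (hd : 3 ≤ d) (hnd : ¬ I.a ∣ X * I.b)
    (hext : DExt I.D D i) (hc : Cst (i.comp I.κ) D) (h0 : cc r = 0)
    (hfi : FIe (cw D) (mA i I.a) (X * mA i I.b) r) {ν : ℕ}
    (ih : ∀ m < ν, ∀ (U : Type) [Field U] (D : U →+ U) (i : L →+* U) (r : AA U), DExt I.D D i →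
      cc r = 0 → FIe (cw D) (mA i I.a) (X * mA i I.b) r → ¬ OrdIs m (red r))
    (ho : OrdIs ν (red r)) : False := by
  have := charZero_of_injective_ringHom I.κ.injective
  have hν : 1 ≤ ν := Nat.pos_of_ne_zero fun c => ho.1 (by
    rw [c, coeff_zero_eq_constantCoeff_apply, cc_red, c00_apply, h0, map_zero])
  obtain ⟨S0, S', h1, h2, h3⟩ := hC L U I.D D i d I.n I.vb I.h I.Xi (iT r) 0 (by omega) I.n1 hext
    (fun c e => (hc c e).elim fun z hz => ⟨I.κ z, hz⟩) (cc_vb I (by omega)) I.rh I.hV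
    (by rw [vt_zero I (by omega) hfi, mul_zero])
  rw [cc_iT] at h2 h3
  obtain ⟨r0, hr0⟩ := exists_map_of_coeff (φ := i.comp I.κ) (f := red r) fun n => hc _ (by
    rw [← coeff_coeL, ← coeff_cwL, h2]
    rfl)
  rw [hr0] at ho h3
  obtain ⟨σ, φ, η, k1, k2, k3, k4, k5, k6⟩ := hD k L U d I D i r r0 ν (by omega) hnd hext hfi hr0 hν
    (ord_map.1 ho)
  exact hI k L d I ν σ φ η hd hν (order_bound I (by omega) hext hν (ord_map.1 ho)
    (low_rat hA I hext h0 hfi ih h1) (by rw [h3, map_zero])) k1 k2 k3 k4 k5 k6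

theorem main3 (hB : BaseStmt) (hC : CmpStmt) (hA : AmalgStmt) (hD : DeckStmt) (hI : InvStmt3)
    (ν : ℕ) : ∀ (k L : Type) [Field k] [CharZero k] [Field L] (d : ℕ) (I : Inf k d L), 3 ≤ d →
      ¬ I.a ∣ X * I.b → ∀ (U : Type) [Field U] (D : U →+ U) (i : L →+* U) (r : AA U),
      DExt I.D D i → cc r = 0 → FIe (cw D) (mA i I.a) (X * mA i I.b) r → ¬ OrdIs ν (red r) := by
  induction ν using Nat.strong_induction_on with
  | _ ν ih =>
  intro k L _ _ _ d I hd hnd U _ D i r hext h0 hfi ho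
  obtain ⟨k', L', U', _, _, _, _, _, I', D', i', jl, j, e1, -, e3, e4, e5, e6, e7⟩ :=
    hB k L U d I D i (by omega) hext
  have hnd' : ¬ I'.a ∣ X * I'.b := by rwa [e5, e6, nd_map]
  refine step3 hC hA hD hI I' hd hnd' e1 e7 (cc_mA j h0) ?_
    (fun m hm => ih m hm k' L' d I' hd hnd') (by rwa [red_mA, ord_map])
  rw [e5, e6, mA_mA, mA_mA]
  exact fi_push e3 (fun c => (e4 c).symm) hfi

end S1a

theorem s1aS3 (hB : BaseStmt) (hC : CmpStmt) (hA : AmalgStmt) (hD : DeckStmt) (hI : InvStmt3) :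
    S1aStmt3 := by
  intro k L U _ _ _ _ d I D i r hd hnd hext hr h0 hfi
  obtain ⟨n, r', rfl, h1⟩ := exists_tfac hr
  obtain ⟨ν, hν⟩ := exists_ordIs h1
  exact S1a.main3 hB hC hA hD hI ν k L d I hd hnd U D i r' hext (S1a.cc_strip h0)
    (S1a.fi_strip hext.1 hfi) hν

namespace S2b

theorem kill3 (hK : KillStmt3) (hC : CommuteStmt) {k L U : Type} [Field k] [CharZero k] [Field L]
    [Field U] [CharZero U] {d : ℕ} (I : Inf k d L) {D : U →+ U} {ι : L →+* U} {Wt lam : AA U}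
    {g0 g1 : (Polynomial k)⟦X⟧} {φ : (Polynomial k)⟦X⟧ →+* U⟦X⟧} (hd : 3 ≤ d) (hD : DExt I.D D ι)
    (hL : LD X (cw D) (mA ι I.a) (mA ι I.b) Wt lam (φ g0) (φ g1)) (h0 : cw D (φ g0) ≠ 0)
    (hc : ∀ r, φ (C (Polynomial.C r)) = C (ι (I.κ r))) (hu : IsUnit (φ (C Polynomial.X)))
    (hq : φ (C Polynomial.X) * φ X = X) {δ : U →+ U} (hδ : IsDer δ) (hι : ∀ c, δ (ι c) = 0) :
    (∀ n, δ (coeff n (φ (C Polynomial.X))) = 0) ∧ ∀ i j, δ (co2 i j Wt) = 0 := by
  obtain ⟨Ω, _, D', δ', j, hj, hδ', hcm, hb, hf⟩ := hC U D δ hD.1 hδ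
  have hz : ∀ c, δ' (j (ι c)) = 0 := fun c => hf _ fun n => by
    have : ∀ n c, D^[n] (ι c) = ι (I.D^[n] c) := fun n => by
      induction n with
      | zero => intro c; rfl
      | succ n ih => intro c; rw [Function.iterate_succ_apply, Function.iterate_succ_apply, hD.2, ih]
    rw [this, hι]
  have hO : Obs k d ((j.comp ι).comp I.κ) D' (j (ι (cc I.x0))) (j (ι (cc I.y0)))
      (mA j (mA ι I.a)) (mA j (mA ι I.b)) :=
    ⟨hj.1, L, inferInstance, I, j.comp ι, 1, one_ne_zero, fun c => by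
      rw [RingHom.comp_apply, hj.2, hD.2, one_mul, RingHom.comp_apply], fun _ => rfl, rfl, rfl,
      mA_mA _ _ _, by rw [map_one, one_mul, mA_mA]⟩
  have hL' := hL.push' (map j) (t' := X) (D' := cw D') (by rw [map_X]) (cw_map' hj.2)
  let ψ : (Polynomial k)⟦X⟧ →+* Ω⟦X⟧ := (map j).comp φ
  have c0 : ∀ r, ψ (C (Polynomial.C r)) = C (((j.comp ι).comp I.κ) r) := fun r => by
    simp only [ψ, RingHom.comp_apply, hc, map_C]
  have cu : IsUnit (ψ (C Polynomial.X)) := hu.map (map j)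
  have cq : ψ (C Polynomial.X) * ψ X = X := by
    simp only [ψ, RingHom.comp_apply, ← map_mul (map j), hq, map_X]
  have k1 := chain c0 cu cq hj.1 fun r => by
    simp only [RingHom.comp_apply, hj.2, hD.2, I.cv.2.1, map_zero]
  have k2 := chain c0 cu cq hδ' fun r => hz _
  have n0 : cw D' (ψ g0) ≠ 0 := by
    simp only [ψ, RingHom.comp_apply, cw_map' hj.2]
    exact fun h => h0 (map_injective j j.injective (by rw [h, map_zero]))
  have za : ∀ c : AA L, cw (cw δ') (mA j (mA ι c)) = 0 := fun c =>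
    co2_ext fun a b => by rw [co2_cw_cw, co2_mA, co2_mA, hz, co2_zero]
  have hJ : cw δ' (ψ g0) * cw D' (ψ g1) = cw δ' (ψ g1) * cw D' (ψ g0) := by
    refine (cu.pow 2).mul_left_cancel ?_
    have a0 := k1 g0
    have a1 := k1 g1
    have b0 := k2 g0
    have b1 := k2 g1
    calc _ = (ψ (C Polynomial.X) * cw δ' (ψ g0)) * (ψ (C Polynomial.X) * cw D' (ψ g1)) := by ring
      _ = (ψ (C Polynomial.X) * cw δ' (ψ g1)) * (ψ (C Polynomial.X) * cw D' (ψ g0)) := by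
        rw [a0, a1, b0, b1]; ring
      _ = _ := by ring
  obtain ⟨r0, -, r2⟩ := hK k Ω d _ D' δ' _ _ _ _ _ _ (ψ g0) (ψ g1) hd hO hL' n0 hδ' hcm (za _)
    (za _) hJ
  refine ⟨fun n => hb _ ?_, fun a b => hb _ ?_⟩
  · have b0 := k2 g0
    rw [r0, mul_zero] at b0
    have : cw δ' (ψ (C Polynomial.X)) = 0 := by
      refine (mul_eq_zero.1 b0.symm).resolve_right fun h => n0 ?_
      have a0 := k1 g0
      rw [h, mul_zero] at a0
      exact (cu.mul_right_eq_zero).1 a0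
    have := congrArg (coeff n) this
    rwa [coeff_cw, map_zero, RingHom.comp_apply, coeff_map] at this
  · have := congrArg (co2 a b) r2
    rwa [co2_cw_cw, co2_zero, ← mA, co2_mA] at this

end S2b

open S2b in
theorem s2bS3 (hK : KillStmt3) (hC : CommuteStmt) (hA : DerAlgStmt) (hS : S2cStmt3) : S2bStmt3 := by
  intro k U _ _ _ _ d κ D x y a b Wt lam g0 g1 Φ hd hO hL h0 p0 p1 t0 t1 hk hu hq
  obtain ⟨hD, L, _, I, ι, θ, hθ, hι, hκ, -, -, rfl, rfl⟩ := hO
  have : CharZero U := (RingHom.charZero_iff κ.injective).1 inferInstance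
  obtain ⟨g0, rfl, s0⟩ := lift p0 t0
  obtain ⟨g1, rfl, s1⟩ := lift p1 t1
  let φ : (Polynomial k)⟦X⟧ →+* U⟦X⟧ := Φ.comp (map Polynomial.coeToPowerSeries.ringHom)
  have fX : φ (C Polynomial.X) = Φ (C X) := by
    simp only [φ, RingHom.comp_apply, map_C, Polynomial.coeToPowerSeries.ringHom_apply,
      Polynomial.coe_X]
  have fq : φ X = Φ X := by simp only [φ, RingHom.comp_apply, map_X]
  have fc : ∀ r, φ (C (Polynomial.C r)) = C (ι (I.κ r)) := fun r => by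
    simp only [φ, RingHom.comp_apply, map_C, Polynomial.coeToPowerSeries.ringHom_apply,
      Polynomial.coe_C, hκ]
    exact hk r
  let D1 : U →+ U := (AddMonoidHom.mulLeft θ⁻¹).comp D
  have hD1 : DExt I.D D1 ι := ⟨hD.mulLeft _, fun c => by
    simp only [D1, AddMonoidHom.comp_apply, AddMonoidHom.coe_mulLeft, hι]
    rw [inv_mul_cancel_left₀ hθ]⟩
  have hL1 : LD X (cw D1) (mA ι I.a) (mA ι I.b) Wt lam (φ g0) (φ g1) := by
    have := hL.push (RingHom.id _) (t' := X) (θ := C θ⁻¹) (D' := cw D1) dvd_rfl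
      fun c => cw_mulLeft _ _ c
    simp only [map_id, id_eq, RingHom.id_apply] at this
    rwa [← mul_assoc, CC_apply, ← map_mul, ← map_mul, inv_mul_cancel₀ hθ, map_one, map_one,
      one_mul] at this
  have h1 : cw D1 (φ g0) ≠ 0 := by
    rw [cw_mulLeft]
    exact mul_ne_zero (fun h => inv_ne_zero hθ (C_injective (h.trans (map_zero C).symm))) h0
  rw [← fX] at hu hq ⊢
  rw [← fq] at hq
  obtain ⟨E, _, D2, i, τ, hi, hτ, hc, halg, hres⟩ := restr hA hD1
  obtain ⟨p, hp⟩ := exists_map_of_coeff (φ := τ) (f := φ (C Polynomial.X)) fun n =>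
    hres _ fun δ hδ hz => (kill3 hK hC I hd hD1 hL1 h1 fc hu hq hδ hz).1 n
  obtain ⟨W, rfl⟩ := exists_mA (τ := τ) (c := Wt) fun a b =>
    hres _ fun δ hδ hz => (kill3 hK hC I hd hD1 hL1 h1 fc hu hq hδ hz).2 a b
  have pu : IsUnit p := by
    rw [isUnit_iff_constantCoeff] at hu ⊢
    rw [hp, K3.cc_map] at hu
    exact isUnit_iff_ne_zero.2 fun h => hu.ne_zero (by rw [h, map_zero])
  obtain ⟨v, hv⟩ := pu.exists_right_inv
  have mv : v * X ∈ Ideal.span {(X : E⟦X⟧)} := Ideal.mem_span_singleton.2 (dvd_mul_left _ _)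
  let ψ : (Polynomial k)⟦X⟧ →+* E⟦X⟧ :=
    ev (Polynomial.eval₂RingHom ((C : E →+* E⟦X⟧).comp (i.comp I.κ)) p) (v * X)
  have sc : ∀ r, ψ (C (Polynomial.C r)) = C (i (I.κ r)) := fun r => by
    simp only [ψ, ev_C _ mv, Polynomial.coe_eval₂RingHom, Polynomial.eval₂_C, RingHom.comp_apply]
  have sp : ψ (C Polynomial.X) = p := by
    simp only [ψ, ev_C _ mv, Polynomial.coe_eval₂RingHom, Polynomial.eval₂_X]
  have sq : ψ X = v * X := ev_X _ mv
  have hψ : (map τ).comp ψ = φ := by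
    refine homExt (Ideal.span {(X : U⟦X⟧)}) (fun r => ?_) ?_ ?_
    · have : (((map τ).comp ψ).comp C) = φ.comp C := by
        refine Polynomial.ringHom_ext (fun r => ?_) ?_
        · simp only [RingHom.comp_apply, sc, fc, map_C, hc]
        · simp only [RingHom.comp_apply, sp, hp]
      exact RingHom.congr_fun this r
    · refine hu.mul_left_cancel ?_
      rw [hq, hp, RingHom.comp_apply, sq, ← map_mul, ← mul_assoc, hv, one_mul, map_X]
    · rw [RingHom.comp_apply, sq, map_mul, map_X]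
      exact Ideal.mem_span_singleton.2 (dvd_mul_left _ _)
  have hψ' : ∀ c, φ c = map τ (ψ c) := fun c => (RingHom.congr_fun hψ c).symm
  have rW : red W = X := by
    apply map_injective τ τ.injective
    have := red_eq_zero.2 hL1.w
    rw [map_sub, red_X, red_mA, sub_eq_zero] at this
    rw [this, map_X]
  have hv' : iT (mA ι I.a) * mT ι I.vb = iT (mA ι I.b) := by
    rw [← mT_iT, ← mT_iT, ← map_mul, I.hv]
  have key := hS k L E d I D2 i (iT W) p g0 g1 ψ hd hi halg (by rw [cc_iT, rW, coeL_X]) pu sc sp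
    (by rw [sq, ← mul_assoc, hv, one_mul]) s0 s1 (by
      apply mT_inj τ.injective
      have := eqT hL1 hv'
      rw [hψ', hψ' g1, cw_map' hτ.2, cw_map' hτ.2] at this
      rw [map_mul, map_add, map_mul, mT_VT hτ.2, mT_mT, mT_iT, mT_cL, mT_cL,
        show τ.comp i = ι from RingHom.ext hc]
      exact this)
  have e : D1 (cc (φ (C Polynomial.X))) = 0 := by rw [hp, K3.cc_map, hτ.2, key, map_zero]
  exact (mul_eq_zero.1 e).resolve_left (inv_ne_zero hθ)

end Pool.Agent.MP_05b4bd_ag.ES
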