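import Pool.Agent.MP_05b4bd_ag.esc.Bx
import Pool.Agent.MP_05b4bd_ag.esc.Symb
import Mathlib.FieldTheory.AlgebraicClosure
import Pool.Agent.MP_05b4bd_ag.esc3.Spec

-- ======== part 0: formerly Pool.Agent.MP_05b4bd_ag.esc.S2c
section MrgPart0

-- ======== part 0: formerly Pool.Agent.MP_05b4bd_ag.esc.Ext
section MrgPart0

/-! Escaping centres: no negative powers of `p`, and the rescaling of the small case. -/

namespace Pool.Agent.MP_05b4bd_ag.ES

open PowerSeries LaurentSeries HC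

namespace Ext

section Ring
variable {R : Type} [CommRing R]

theorem co2_CX_pow (j m : ℕ) (Y : AA R) : co2 j m (C X ^ j * Y) = co2 0 m Y := by
  rw [← map_pow, co2, coeff_C_mul, coeff_X_pow_mul_self, co2, coeff_zero_eq_constantCoeff_apply]

theorem co2_CX_mul (m : ℕ) (Y : AA R) : co2 0 m (C X * Y) = 0 :=
  (CX_pow_dvd_iff 1 _).1 ⟨Y, by rw [pow_one]⟩ 0 m Nat.one_pos

theorem co2_X_mul (i m : ℕ) (Y : AA R) : co2 i (m + 1) (X * Y) = co2 i m Y := by
  rw [co2, coeff_succ_X_mul, co2]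

theorem co2_CC_mul (i j : ℕ) (r : R) (Y : AA R) : co2 i j (CC r * Y) = r * co2 i j Y := by
  rw [co2, CC_apply, coeff_C_mul, coeff_C_mul, co2]

theorem CC_dvd_iff (s : R) (c : AA R) : CC s ∣ c ↔ ∀ i j, s ∣ co2 i j c := by
  rw [CC_apply, C_dvd_iff]
  simp only [C_dvd_iff]
  exact ⟨fun h i j => h j i, fun h j i => h i j⟩

theorem co2_cc (i : ℕ) (c : AA R) : co2 i 0 c = coeff i (cc c) := by
  rw [co2, coeff_zero_eq_constantCoeff_apply]

/-- The scale map. -/
noncomputable def sc (r s : R) : AA R →+* AA R := (rescale (C r)).comp (map (rescale s))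

theorem co2_sc (r s : R) (i j : ℕ) (c : AA R) :
    co2 i j (sc r s c) = r ^ j * (s ^ i * co2 i j c) := by
  rw [sc, RingHom.comp_apply, co2, coeff_rescale, ← map_pow, coeff_C_mul, coeff_map, coeff_rescale,
    co2]

theorem sc_CC (r s a : R) : sc r s (CC a) = CC a := by
  rw [sc, RingHom.comp_apply, CC_apply, map_C, rescale_C', rescale_C']

theorem sc_CX (r s : R) : sc r s (C X) = CC s * C X := by
  rw [sc, RingHom.comp_apply, map_C, rescale_C', rescale_X, map_mul, CC_apply]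

theorem sc_X (r s : R) : sc r s X = CC r * X := by
  rw [sc, RingHom.comp_apply, map_X, rescale_X, CC_apply]
end Ring

variable {k : Type} [Field k]

theorem D_map (c : AA k) :
    (thP k⸨X⸩ - cw (thL k)) (map (coeL k) c) = map (coeL k) (DA k 1 c) := by
  rw [DA, AddMonoidHom.sub_apply, AddMonoidHom.sub_apply, one_nsmul, map_sub, thP_map,
    cw_map' thL_coeL]

theorem isDer_D : IsDer (thP k⸨X⸩ - cw (thL k)) := isDer_thP.sub isDer_thL.coefw

theorem D_mA (c : (AA k)⟦X⟧) :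
    cw (thP k⸨X⸩ - cw (thL k)) (mA (coeL k) c) = mA (coeL k) (cw (DA k 1) c) :=
  cw_map' (φ := map (coeL k)) D_map c

theorem dX_mA (c : (AA k)⟦X⟧) : dX _ (mA (coeL k) c) = mA (coeL k) (dX _ c) := dX_map _ c

theorem D_X_pow (j : ℕ) :
    (thP k⸨X⸩ - cw (thL k)) (X ^ j) = (j : k⸨X⸩⟦X⟧) * X ^ j := by
  have e : cw (thL k) (X ^ j) = 0 := by
    have := cw_X_pow_mul (thL k) j 1
    rw [mul_one, isDer_thL.coefw.one, mul_zero] at this
    exact this
  rw [AddMonoidHom.sub_apply, e, sub_zero]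
  ext1 n
  have e2 : (j : k⸨X⸩⟦X⟧) = C (j : k⸨X⸩) := by simp
  rw [coeff_thP, e2, coeff_C_mul, coeff_X_pow]
  split_ifs with h
  · rw [h]
  · simp

theorem E_map (a b I : (AA k)⟦X⟧) :
    iifE (cw (thP k⸨X⸩ - cw (thL k))) (dX _) (X * mA (coeL k) b) (mA (coeL k) a) (mA (coeL k) I) =
      mA (coeL k) (iifE (cw (DA k 1)) (dX _) (X * b) a I) := by
  have e : X * mA (coeL k) b = mA (coeL k) (X * b) := by rw [map_mul, mA_X]
  rw [e, iifE, iifE, D_mA, D_mA, dX_mA, dX_mA, ← map_sub, ← map_mul, ← map_mul, ← map_mul,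
    ← map_sub, ← map_sub]

theorem co2_D (n : ℕ) (c : AA k⸨X⸩) :
    co2 0 n (cw (thP k⸨X⸩ - cw (thL k)) c) = -thL k (co2 0 n c) := by
  rw [co2, coeff_cw, AddMonoidHom.sub_apply, map_sub, coeff_thP, coeff_cw, co2]
  simp

theorem step [CharZero k] {d : ℕ} (hd : 1 ≤ d) {a b : (AA k)⟦X⟧}
    (ha : C (tA k 1) ∣ a + (d : (AA k)⟦X⟧) * X) (hb : C (tA k 1) ∣ b) (j : ℕ) (I0 : (AA k)⟦X⟧)
    (I1 : AA k⸨X⸩)
    (h : iifE (cw (thP k⸨X⸩ - cw (thL k))) (dX _) (X * mA (coeL k) b) (mA (coeL k) a)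
      (mA (coeL k) I0 + C X ^ j * I1) = 0) (n : ℕ) : ∃ r, co2 0 n I1 = coeL k r := by
  obtain ⟨a', ha⟩ := ha
  obtain ⟨b', hb⟩ := hb
  set D := cw (thP k⸨X⸩ - cw (thL k)) with hD
  have iD : IsDer D := isDer_D.coefw
  obtain ⟨p, hp⟩ : ∃ p : AA k⸨X⸩, mA (coeL k) (C (tA k 1)) = C X * p ∧ D (C X * p) = 0 ∧
      dX _ (C X * p) = 0 := by
    have e : mA (coeL k) (C (tA k 1)) = C X * CC (wL k 1) := by
      rw [mA, map_C, tA, pow_one, map_mul, map_C, map_X, coeL_X, map_mul, CC_apply, mul_comm]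
    refine ⟨_, e, ?_, ?_⟩
    · rw [← e, hD, D_mA, cw_C, DA_tA, map_zero, map_zero]
    · rw [← e, dX_mA, dX_C, map_zero]
  have ea : mA (coeL k) a = C X * p * mA (coeL k) a' - (d : AA k⸨X⸩) * X := by
    have := congrArg (mA (coeL k)) ha
    rw [map_add, map_mul, map_mul, map_natCast, mA_X, hp.1] at this
    linear_combination this
  have eb : mA (coeL k) b = C X * p * mA (coeL k) b' := by rw [hb, map_mul, hp.1]
  have dq : D (C X ^ j) = (j : AA k⸨X⸩) * C X ^ j := by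
    rw [← map_pow, hD, cw_C, D_X_pow, map_mul, map_natCast]
  have dq' : dX _ ((C X : AA k⸨X⸩) ^ j) = 0 := by rw [← map_pow, dX_C]
  have dW : D X = 0 := cw_X isDer_D.one
  have da : D (mA (coeL k) a) = C X * p * D (mA (coeL k) a') := by
    rw [ea, map_sub, iD.const_mul hp.2.1, iD, dW, iD.natCast]
    ring
  have db : dX _ (X * mA (coeL k) b) = C X * p * dX _ (X * mA (coeL k) b') := by
    rw [eb, mul_left_comm, isDer_dX.const_mul hp.2.2]
  obtain ⟨Z, hZ⟩ : ∃ Z, iifE D (dX _) (X * mA (coeL k) b) (mA (coeL k) a) (C X ^ j * I1) =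
      C X ^ j * (X * (CC (d : k⸨X⸩) * (CC (j : k⸨X⸩) * I1 + D I1)) + C X * Z) := by
    refine ⟨p * (I1 * (D (mA (coeL k) a') - dX _ (X * mA (coeL k) b')) -
      (((j : AA k⸨X⸩) * I1 + D I1) * mA (coeL k) a' - dX _ I1 * (X * mA (coeL k) b'))), ?_⟩
    rw [iifE, da, db, iD, dq, isDer_dX.const_mul dq', map_natCast, map_natCast]
    linear_combination (-(C X ^ j * ((j : AA k⸨X⸩) * I1 + D I1))) * ea + C X ^ j * dX _ I1 * X * eb
  have e : mA (coeL k) (iifE (cw (DA k 1)) (dX _) (X * b) a I0) +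
      C X ^ j * (X * (CC (d : k⸨X⸩) * (CC (j : k⸨X⸩) * I1 + D I1)) + C X * Z) = 0 := by
    rw [← hZ, ← E_map, ← h]
    simp only [iifE, map_add]
    ring
  have e2 := congrArg (co2 j (n + 1)) e
  rw [co2_add, co2_mA, co2_CX_pow, co2_add, co2_CX_mul, co2_X_mul, co2_CC_mul, co2_add, co2_CC_mul,
    hD, co2_D, co2_zero, add_zero] at e2
  refine exists_coeL fun m hm => ?_
  have e3 := congrArg (fun f : k⸨X⸩ => f.coeff m) e2
  have c1 : (d : k⸨X⸩) = cL k d := by simp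
  have c2 : (j : k⸨X⸩) = cL k j := by simp
  simp only [c1, c2, HahnSeries.coeff_add, coeff_coeL_neg _ hm, coeff_cL_mul, HahnSeries.coeff_neg,
    coeff_thL, HahnSeries.coeff_zero, zero_add] at e3
  have n1 : (d : k) ≠ 0 := Nat.cast_ne_zero.2 (by omega)
  have n2 : (j : k) - m ≠ 0 := by
    have : ((j - m : ℤ) : k) ≠ 0 := Int.cast_ne_zero.2 (by omega)
    simpa using this
  exact mul_left_cancel₀ (mul_ne_zero n1 n2) (by linear_combination e3)

theorem dvd_ev {s u : k⟦X⟧} (hu : cc u = 0) {f : AA k} (h : C s ∣ f * C u) :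
    s ∣ u * ev (RingHom.id _) u f := by
  have m : u ∈ up (⊥ : Ideal k) := hu
  have := map_dvd (ev (RingHom.id _) u) h
  rwa [map_mul, ev_C _ m, ev_C _ m, RingHom.id_apply, RingHom.id_apply, mul_comm] at this

theorem eqs [CharZero k] (hq : PeqStmt) {d : ℕ} (o : PD k d) (hd : 1 ≤ d)
    (h1 : ∀ i, 1 ≤ i → X * o.zs ∣ co2 i 0 o.b * o.Us)
    (h2 : ∀ i, 2 ≤ i → X * o.zs ∣ co2 i 0 o.e * o.Us) {w : k⟦X⟧} (wU : w ∣ o.Us) (wz : w ∣ o.zs) :
    ∃ s1 s2 s3, co2 0 0 o.b = o.zs * (1 + X * s1) ∧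
      co2 1 0 o.e = -(o.zs * ((d : k⟦X⟧) + 1 + X * s2)) ∧ co2 0 0 o.e = o.zs * w * s3 := by
  obtain ⟨r1, r2, r3, r4, b1, e2, eb, ee, q1, q2, q3⟩ := hq k d o hd
  have d1 : C (X * o.zs) ∣ b1 * C o.Us := (C_dvd_iff _ _).2 fun i => by
    have := h1 (i + 1) (by omega)
    rw [co2_cc, eb, map_add, coeff_C, if_neg (by omega), zero_add, coeff_succ_X_mul] at this
    rwa [coeff_mul_C]
  have d2 : C (X * o.zs) ∣ e2 * C o.Us := (C_dvd_iff _ _).2 fun i => by
    have := h2 (i + 2) (by omega)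
    rw [co2_cc, ee, map_add, map_add, coeff_C, if_neg (by omega), zero_add, coeff_C_mul, coeff_X,
      if_neg (by omega), mul_zero, zero_add, coeff_X_pow_mul] at this
    rwa [coeff_mul_C]
  have d3 : C (X * o.zs) ∣ (2 * e2 + X * dX _ e2) * C o.Us := by
    obtain ⟨g, hg⟩ := d2
    have := congrArg (dX _) hg
    rw [mul_comm e2, isDer_dX.const_mul (dX_C _), isDer_dX.const_mul (dX_C _)] at this
    exact ⟨2 * g + X * dX _ g, by linear_combination 2 * hg + X * this⟩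
  obtain ⟨g1, g1e⟩ := dvd_ev o.U0 d1
  obtain ⟨g2, g2e⟩ := dvd_ev o.U0 d2
  obtain ⟨g3, g3e⟩ := dvd_ev o.U0 d3
  obtain ⟨V, hV⟩ := wU
  obtain ⟨z, hz⟩ := wz.trans (dvd_pow_self o.zs (show d ≠ 0 by omega))
  have q2' : co2 1 0 o.e = -(o.zs * ((d : k⟦X⟧) + 1 + X * (r2 + g3))) := by
    linear_combination q2 - g3e
  refine ⟨r1 - g1, r2 + g3, V * r3 + X * z * r4 + ((d : k⟦X⟧) + 1 + X * (r2 + g3)) * V - V * X * g2,
    by linear_combination q1 - g1e, q2', ?_⟩
  linear_combination q3 - o.Us * q2' - o.Us * g2e + o.zs * X * r4 * hz +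
    (o.zs * r3 + o.zs * ((d : k⟦X⟧) + 1 + X * (r2 + g3)) - X * o.zs * g2) * hV

theorem cen_sc {d : ℕ} {r V β : k⟦X⟧} (rn : r ≠ 0) (V0 : cc V = 0)
    (β0 : cc β = 0) {b e b' e' : AA k⟦X⟧} (hb : CC r * b = sc r (r ^ d) b')
    (he : CC (r ^ (d + 1)) * e = sc r (r ^ d) e')
    (h : CenN (coeL k) (X * (X - b')) (fB d e') (r ^ d * V) (r * β)) :
    CenN (coeL k) (X * (X - b)) (fB d e) V β := by
  have mV : V ∈ up (⊥ : Ideal k) := V0
  have mβ : β ∈ up (⊥ : Ideal k) := β0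
  have a1 : ∀ s : k⟦X⟧, cw (dX k⟦X⟧) (CC s) = 0 := fun s => by rw [CC_apply, cw_C, dX_C, map_zero]
  have a2 : ∀ s : k⟦X⟧, dX k⟦X⟧⟦X⟧ (CC s) = 0 := fun s => by rw [CC_apply, dX_C]
  have j1 : cw (dX k⟦X⟧) (sc r (r ^ d) (C X)) = CC r ^ d := by
    rw [sc_CX, isDer_dX.coefw.const_mul (a1 _), cw_C, dX_X, map_one, mul_one, map_pow]
  have j2 : dX _ (sc r (r ^ d) X) = CC r := by
    rw [sc_X, isDer_dX.const_mul (a2 _), dX_X, mul_one]
  have j3 : cw (dX k⟦X⟧) (sc r (r ^ d) X) = 0 := by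
    rw [sc_X, isDer_dX.coefw.const_mul (a1 _), cw_X isDer_dX.one, mul_zero]
  have j4 : dX _ (sc r (r ^ d) (C X)) = 0 := by
    rw [sc_CX, isDer_dX.const_mul (a2 _), dX_C, mul_zero]
  have nz : ∀ n : ℕ, coeL k (ev2 (RingHom.id _) V β (CC r ^ n)) ≠ 0 := fun n => by
    rw [map_pow, ev2_CC _ mV mβ, RingHom.id_apply, map_pow]
    exact pow_ne_zero _ fun c => rn (coeL_inj (by rw [c, map_zero]))
  refine CenN.trans (RingHom.id _) (RingHom.id _) (fun _ => rfl) h (by simp [V0]) (by simp [β0])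
    (by simp) (sc r (r ^ d)) (fun s => sc_CC _ _ s) ?_ ?_ V0 β0 ?_ ?_ ?_ (nz (d + 2)) ?_ ?_
  · rw [sc_CX, map_mul, map_mul]
    simp [c00_apply]
  · rw [sc_X, map_mul, map_mul]
    simp [c00_apply]
  · rw [sc_CX, map_mul, ev2_CC _ mV mβ, ev2_CX _ mV mβ]
    rfl
  · rw [sc_X, map_mul, ev2_CC _ mV mβ, ev2_X _ mβ]
    rfl
  · rw [j1, j2, j3, zero_mul, sub_zero, ← pow_succ]
    exact nz _
  · rw [j1, j3, map_mul, map_sub, sc_X, ← hb]
    ring
  · rw [j2, j4, zero_mul, fB, fB, map_neg, map_add, map_mul, map_mul, map_natCast, sc_X, sc_CX, ← he,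
      map_pow, map_pow]
    ring

theorem core [CharZero k] (hq : PeqStmt) {d R : ℕ} (o : PD k d) (hd : 2 ≤ d) (hR : 1 ≤ R)
    (h1 : ∀ i, 1 ≤ i → X * o.zs ∣ co2 i 0 o.b * o.Us)
    (h2 : ∀ i, 2 ≤ i → X * o.zs ∣ co2 i 0 o.e * o.Us)
    (g1 : ∀ i, 1 ≤ i → X * o.zs ∣ X ^ (R * d) * co2 i 0 o.b)
    (g2 : ∀ i, 2 ≤ i → X * o.zs ∣ X ^ (R * d) * co2 i 0 o.e)
    (wU : X ^ (R * d + d) ∣ o.Us) (wz : X ^ (R * d + d) ∣ o.zs) :
    ∃ (b e : AA k⟦X⟧) (β V : k⟦X⟧), AD d b e β V ∧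
    CC (X ^ R) * b = rescale (C (X ^ R)) (map (rescale (X ^ (R * d))) o.b) ∧
    CC (X ^ (R * (d + 1))) * e = rescale (C (X ^ R)) (map (rescale (X ^ (R * d))) o.e) ∧
    co2 1 0 o.e ≠ 0 ∧ X ^ (R + 2) ∣ co2 0 0 o.b ∧ X ^ (R + 2) ∣ co2 1 0 o.e ∧
    X ^ ((d + 1) * (R + 1) + 1) ∣ co2 0 0 o.e := by
  obtain ⟨s1, s2, s3, q1, q2, q3⟩ := eqs hq o (by omega) h1 h2 wU wz
  have hRd : 2 * R ≤ R * d := by nlinarith
  have z2 : (X : k⟦X⟧) ^ (R + 2) ∣ o.zs := (pow_dvd_pow _ (by omega)).trans wz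
  have f1 : (X : k⟦X⟧) ^ (R + 2) ∣ co2 0 0 o.b := q1 ▸ z2.mul_right _
  have f2 : (X : k⟦X⟧) ^ (R + 2) ∣ co2 1 0 o.e := q2 ▸ (z2.mul_right _).neg_right
  have f3 : (X : k⟦X⟧) ^ ((d + 1) * (R + 1) + 1) ∣ co2 0 0 o.e := by
    rw [q3]
    refine Dvd.dvd.mul_right ((pow_dvd_pow _ ?_).trans
      (pow_add (X : k⟦X⟧) (R * d + d) (R * d + d) ▸ mul_dvd_mul_right wz _)) _
    nlinarith
  have tb := (CC_dvd_iff _ _).1 o.tb
  have te := (CC_dvd_iff _ _).1 o.te
  have cs : ∀ i j (c : AA k⟦X⟧), co2 i j (sc (X ^ R) (X ^ (R * d)) c) =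
      X ^ (R * j + R * d * i) * co2 i j c := fun i j c => by
    rw [co2_sc]
    ring
  have big : ∀ {n m : ℕ} {c : k⟦X⟧}, n ≤ m → X ∣ c → X ^ (n + 1) ∣ X ^ m * c := fun h hc => by
    rw [pow_succ]
    exact mul_dvd_mul (pow_dvd_pow _ h) hc
  obtain ⟨b, hb⟩ : CC (X ^ (R + 1)) ∣ sc (X ^ R) (X ^ (R * d)) o.b :=
    (CC_dvd_iff _ _).2 fun i j => by
      rw [cs]
      rcases Nat.eq_zero_or_pos j with rfl | hj
      · rcases Nat.eq_zero_or_pos i with rfl | hi
        · exact ((pow_dvd_pow _ (by omega)).trans f1).mul_left _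
        · exact big (by nlinarith) (tb _ _)
      · exact big (by nlinarith) (tb _ _)
  obtain ⟨e, he⟩ : CC (X ^ (R * (d + 1) + 1)) ∣ sc (X ^ R) (X ^ (R * d)) o.e :=
    (CC_dvd_iff _ _).2 fun i j => by
      rw [cs]
      rcases Nat.lt_or_ge i 2 with hi | hi
      · rcases Nat.eq_zero_or_pos j with rfl | hj
        · interval_cases i
          · exact ((pow_dvd_pow _ (by nlinarith)).trans f3).mul_left _
          · rw [show R * (d + 1) + 1 = (R * 0 + R * d * 1) + (R + 1) by ring, pow_add]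
            exact mul_dvd_mul_left _ ((pow_dvd_pow _ (by omega)).trans f2)
        · interval_cases i
          · rcases Nat.lt_or_ge d j with h | h
            · exact big (by nlinarith) (te _ _)
            · rw [o.ne j hj h, mul_zero]
              exact dvd_zero _
          · exact big (by nlinarith) (te _ _)
      · exact big (by nlinarith) (te _ _)
  have hb' : CC (X ^ R) * (CC X * b) = sc (X ^ R) (X ^ (R * d)) o.b := by
    rw [hb, pow_succ, map_mul, mul_assoc]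
  have he' : CC (X ^ (R * (d + 1))) * (CC X * e) = sc (X ^ R) (X ^ (R * d)) o.e := by
    rw [he, pow_succ, map_mul, mul_assoc]
  obtain ⟨β1, hβ⟩ : (X : k⟦X⟧) ^ (R + 1) ∣ o.zs := (pow_dvd_pow _ (by omega)).trans wz
  obtain ⟨V1, hV⟩ : (X : k⟦X⟧) ^ (R * d + 1) ∣ o.Us := (pow_dvd_pow _ (by omega)).trans wU
  have ez : o.zs = X ^ R * (X * β1) := by rw [hβ]; ring
  have eU : o.Us = (X ^ R) ^ d * (X * V1) := by rw [hV, ← pow_mul]; ring
  have xn : ∀ n : ℕ, (X : k⟦X⟧) ^ n ≠ 0 := fun n => pow_ne_zero _ X_ne_zero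
  have cb : ∀ i, X ^ R * co2 i 0 (CC X * b) = X ^ (R * d * i) * co2 i 0 o.b := fun i => by
    rw [← co2_CC_mul, hb', cs, mul_zero, zero_add]
  have ce : ∀ i, X ^ (R * (d + 1)) * co2 i 0 (CC X * e) = X ^ (R * d * i) * co2 i 0 o.e :=
    fun i => by rw [← co2_CC_mul, he', cs, mul_zero, zero_add]
  refine ⟨CC X * b, CC X * e, X * β1, X * V1, ⟨by simp, fun c => o.zn (by rw [ez, c, mul_zero]),
    by simp, dvd_mul_right _ _, dvd_mul_right _ _, (C_dvd_iff _ _).2 fun i => ?_,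
    (C_dvd_iff _ _).2 fun i => ?_, ?_⟩, hb', he', ?_, f1, f2, f3⟩
  · rw [map_sub, ← co2_cc, ← mul_dvd_mul_iff_left (xn R), mul_sub, cb, ← mul_assoc, ← ez, coeff_C]
    split_ifs with h
    · subst h
      exact ⟨s1, by rw [q1, ← ez]; ring⟩
    · obtain ⟨i, rfl⟩ := Nat.exists_eq_succ_of_ne_zero h
      rw [mul_zero, sub_zero, mul_comm, Nat.mul_succ, pow_add, mul_assoc]
      exact (g1 _ (by omega)).mul_left _
  · have ez' : X ^ (R * (d + 1)) * (X * β1) = X ^ (R * d) * o.zs := by rw [ez]; ring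
    rw [map_add, ← co2_cc, ← mul_dvd_mul_iff_left (xn (R * (d + 1))), mul_add (X ^ _), ce, ← mul_assoc, ez',
      coeff_C_mul, coeff_X]
    split_ifs with h
    · subst h
      refine ⟨-s2, ?_⟩
      rw [q2]
      linear_combination ((d : k⟦X⟧) + 1) * ez'
    · rw [mul_zero, mul_zero, add_zero]
      rcases Nat.eq_zero_or_pos i with rfl | hi
      · obtain ⟨d', rfl⟩ : ∃ d', d = d' + 1 := ⟨d - 1, by omega⟩
        exact ⟨X ^ d' * s3, by rw [q3]; ring⟩
      · obtain ⟨i, rfl⟩ : ∃ i', i = i' + 2 := ⟨i - 2, by omega⟩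
        obtain ⟨g, hg⟩ := g2 (i + 2) (by omega)
        exact ⟨X ^ (R * d * i) * g, by linear_combination X ^ (R * d * i) * X ^ (R * d) * hg⟩
  · refine cen_sc (r := X ^ R) (xn R) (by simp) (by simp)
      (b' := o.b) (e' := o.e) (by rw [← pow_mul]; exact hb') (by rw [← pow_mul, ← pow_mul]; exact he')
      ?_
    rw [← ez, ← eU]
    exact o.cen
  · rw [q2, neg_ne_zero]
    refine mul_ne_zero o.zn fun c => ?_
    have := congrArg cc c
    simp only [map_add, map_mul, map_natCast, map_one, constantCoeff_X, zero_mul, add_zero,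
      map_zero] at this
    exact Nat.cast_add_one_ne_zero d this

end Ext

open Ext

theorem extS : ExtStmt := by
  intro k _ _ d a b I hd ha hb h
  obtain ⟨hn, h⟩ := iif_iff.1 h
  have key : ∀ j, ∃ I0 I1, I = mA (coeL k) I0 + C X ^ j * I1 := fun j => by
    induction j with
    | zero => exact ⟨0, I, by simp⟩
    | succ j ih =>
      obtain ⟨I0, I1, e⟩ := ih
      have s := step hd ha hb j I0 I1 (e ▸ h)
      obtain ⟨r, hr⟩ : ∃ r, red I1 = map (coeL k) r := exists_map_of_coeff fun n => by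
        rw [coeff_red, ← coeff_zero_eq_constantCoeff_apply]
        exact s n
      obtain ⟨I2, e2⟩ := eq_red_add I1
      have e3 : mA (coeL k) (map C r) = map C (map (coeL k) r) := by
        ext1 n
        simp [mA]
      refine ⟨I0 + C X ^ j * map C r, I2, ?_⟩
      rw [map_add, map_mul, map_pow, mA_CX, e3, ← hr]
      linear_combination e + C X ^ j * e2
  obtain ⟨I', rfl⟩ : ∃ I', I = mA (coeL k) I' := exists_mA fun i j => by
    obtain ⟨I0, I1, e⟩ := key (i + 1)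
    refine ⟨co2 i j I0, ?_⟩
    rw [e, co2_add, co2_mA, (CX_pow_dvd_iff (i + 1) _).1 (dvd_mul_right _ _) i j (by omega),
      add_zero]
  refine ⟨I', iif_iff.2 ⟨fun c => hn (by rw [c, map_zero]), mA_inj coeL_inj ?_⟩⟩
  rw [← E_map, h, map_zero]

theorem amkS (hp : PramStmt) (hq : PeqStmt) : AmkStmt := by
  intro k _ _ d o hd h1 h2
  have hM : 1 ≤ 2 * d := by omega
  obtain ⟨o', eb, ee, eU, ez⟩ := hp k d (2 * d) o hM
  obtain ⟨w, wU, wz, w0, hw⟩ : ∃ w, w ∣ o.Us ∧ w ∣ o.zs ∧ cc w = 0 ∧ (w = o.zs ∨ w = o.Us) := by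
    rcases dvd_or o.Us o.zs with h | h
    · exact ⟨_, dvd_rfl, h, o.U0, Or.inr rfl⟩
    · exact ⟨_, dvd_of_mul_left_dvd h, dvd_rfl, o.z0, Or.inl rfl⟩
  obtain ⟨n, u, hu, e⟩ := unit_fac (f := w) fun c => o.zn (zero_dvd_iff.1 (c ▸ wz))
  have hn : 1 ≤ n := by
    rcases Nat.eq_zero_or_pos n with rfl | h
    · rw [e, pow_zero, one_mul] at w0
      exact absurd w0 (isUnit_iff_constantCoeff.1 hu).ne_zero
    · exact h
  obtain ⟨R, hR⟩ : ∃ R, 2 * n = R + 1 := ⟨2 * n - 1, by omega⟩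
  have ew : ram k (2 * d) w = X ^ (R * d + d) * ram k (2 * d) u := by
    rw [e, map_mul, map_pow, ram_X hM, ← pow_mul, show 2 * d * n = 2 * n * d by ring, hR, add_mul,
      one_mul]
  have hu' := hu.map (ram k (2 * d))
  have key : ∀ c, X ∣ c → X * o.zs ∣ c * o.Us → X * o'.zs ∣ ram k (2 * d) c * o'.Us ∧
      X * o'.zs ∣ X ^ (R * d) * ram k (2 * d) c := fun c hc h => by
    have a1 := map_dvd (ram k (2 * d)) hc
    have a2 := map_dvd (ram k (2 * d)) h
    rw [ram_X hM] at a1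
    rw [map_mul, map_mul, ram_X hM, ← ez, ← eU] at a2
    refine ⟨(mul_dvd_mul_right (dvd_pow_self _ (by omega)) _).trans a2, ?_⟩
    have a3 : X ^ (2 * d) * o'.zs ∣ ram k (2 * d) c * X ^ (R * d + d) := by
      rcases hw with rfl | rfl
      · rw [ez, ew, ← mul_assoc, hu'.mul_right_dvd]
        exact mul_dvd_mul_right a1 _
      · rwa [eU, ew, ← mul_assoc, hu'.dvd_mul_right] at a2
    rw [show ram k (2 * d) c * X ^ (R * d + d) = X ^ d * (X ^ (R * d) * ram k (2 * d) c) by ring,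
      two_mul, pow_add, mul_assoc, mul_dvd_mul_iff_left (pow_ne_zero _ X_ne_zero)] at a3
    rw [two_mul]
    exact (mul_dvd_mul_right (dvd_pow_self _ (by omega)) _).trans a3
  have tb := (CC_dvd_iff _ _).1 o.tb
  have te := (CC_dvd_iff _ _).1 o.te
  have xw : X ^ (R * d + d) ∣ ram k (2 * d) w := ⟨_, ew⟩
  obtain ⟨b, e, β, V, h⟩ := core (R := R) hq o' hd (by omega)
    (fun i hi => by rw [eb, co2_mA]; exact (key _ (tb _ _) (h1 i hi)).1)
    (fun i hi => by rw [ee, co2_mA]; exact (key _ (te _ _) (h2 i hi)).1)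
    (fun i hi => by rw [eb, co2_mA]; exact (key _ (tb _ _) (h1 i hi)).2)
    (fun i hi => by rw [ee, co2_mA]; exact (key _ (te _ _) (h2 i hi)).2)
    (eU ▸ xw.trans (map_dvd _ wU)) (ez ▸ xw.trans (map_dvd _ wz))
  exact ⟨o', R, b, e, β, V, by omega, h⟩

end Pool.Agent.MP_05b4bd_ag.ES

end MrgPart0

-- ======== part 1: formerly Pool.Agent.MP_05b4bd_ag.esc.Mkinf
section MrgPart1

/-! Escaping centres: data at infinity from a frame. -/

namespace Pool.Agent.MP_05b4bd_ag.ES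

open PowerSeries LaurentSeries HC

namespace Mkinf

section Gen
variable {R S A : Type} [CommRing R] [CommRing S] [CommRing A]

theorem cc_map (g : R →+* S) (f : R⟦X⟧) : cc (map g f) = g (cc f) := rfl

theorem c00_mA (τ : R →+* S) (c : AA R) : c00 (mA τ c) = τ (c00 c) := rfl

theorem c00_CC (r : R) : c00 (CC r : AA R) = r := by simp [c00_apply, CC_apply]

theorem co2_00 (c : AA R) : co2 0 0 c = c00 c := by simp [co2, c00_apply]

theorem unit_c00 {U : Type} [Field U] {c : AA U} (h : c00 c ≠ 0) : IsUnit c := by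
  rw [PowerSeries.isUnit_iff_constantCoeff, PowerSeries.isUnit_iff_constantCoeff]
  exact IsUnit.mk0 _ h

theorem eval_c00 (p : Polynomial (AA R)) {y z : AA R} (h : c00 y = c00 z) :
    c00 (p.eval y) = c00 (p.eval z) := by
  rw [← Polynomial.eval₂_at_apply, ← Polynomial.eval₂_at_apply, h]

theorem aF_red (φ : A →+* S⟦X⟧) (ψ : A →+* R) (κ : R →+* S⟦X⟧) (hφ : φ = κ.comp ψ)
    (hκ : ∀ r, dX S (κ r) = 0) (e : ℕ) {P Q : R2 A} {f : R2 R} (hf : DL (e + 1 + 1) f)
    (hP : MvPolynomial.map ψ P = MvPolynomial.pderiv 1 f)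
    (hQ : MvPolynomial.map ψ Q = -MvPolynomial.pderiv 0 f) {x y : S⟦X⟧}
    (h : hev κ (e + 1) f x y X = 1) : aF φ (e + 1) P Q x y = -(((e + 1 : ℕ) : S⟦X⟧) * X) := by
  have h1 := der_hev κ e isDer_dX hκ f x y X
  rw [h, isDer_dX.one, dX_X] at h1
  rw [aF, hφ, ← hev_map, ← hev_map, hP, hQ, hev_neg, hev_succ κ e (hf.pderiv 1),
    hev_succ κ e (hf.pderiv 0)]
  push_cast
  linear_combination (-X) * h1

theorem bF_red (φ : A →+* S⟦X⟧) (ψ : A →+* R) (κ : R →+* S⟦X⟧) (hφ : φ = κ.comp ψ) {D : S →+ S}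
    (hD : IsDer D) (hκ : ∀ r, cw D (κ r) = 0) (e : ℕ) {P Q : R2 A} {f : R2 R}
    (hf : DL (e + 1 + 1) f) (hP : MvPolynomial.map ψ P = MvPolynomial.pderiv 1 f)
    (hQ : MvPolynomial.map ψ Q = -MvPolynomial.pderiv 0 f) {x y : S⟦X⟧}
    (h : hev κ (e + 1) f x y X = 1) : bF φ (e + 1) P Q D x y = 0 := by
  have h1 := der_hev' κ e hD.coefw hκ f x y (cw_X hD.one)
  rw [h, hD.coefw.one] at h1
  rw [bF, hφ, ← hev_map, ← hev_map, hP, hQ, hev_neg, hev_succ κ e (hf.pderiv 1),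
    hev_succ κ e (hf.pderiv 0)]
  linear_combination (-X) * h1

/-- The frame coordinate `x / W`. -/
noncomputable def fr (x : AA R) : TT R := iT x * C (wL R (-1))

theorem W_mul : (C (wL R 1) : TT R) * C (wL R (-1)) = 1 := by
  rw [← map_mul, wL_mul_neg, map_one]

theorem iT_eq (x : AA R) : iT x = C (wL R 1) * fr x := by
  rw [fr, mul_left_comm, W_mul, mul_one]

theorem cc_fr (x : AA R) : cc (fr x) = coeL R (red x) * wL R (-1) := by
  rw [fr, map_mul, cc_iT, constantCoeff_C]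

theorem th_fr (x : AA R) : iT (X * dX _ x - x) = C (wL R 1) * cw (thL R) (fr x) := by
  rw [fr, isDer_thL.coefw, th_iT, cw_C, thL_wL, thP_apply, map_sub]
  have : (C (((-1 : ℤ) : R⸨X⸩) * wL R (-1)) : TT R) = -C (wL R (-1)) := by
    rw [← map_neg]; congr 1; push_cast; ring
  rw [this]
  linear_combination (iT x - iT (X * dX _ x)) * W_mul (R := R)

theorem D_fr {D : R →+ R} (hD : IsDer D) (x : AA R) :
    iT (cw (cw D) x) = C (wL R 1) * cw (cwL D) (fr x) := by
  rw [fr, hD.coefL.coefw, cw_iT, cw_C, cwL_wL hD.one, map_zero]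
  linear_combination (-iT (cw (cw D) x)) * W_mul (R := R)

theorem iT_hev (κ : A →+* R) (d : ℕ) {P : R2 A⟦X⟧} (hP : DL (d + 1) P) (x y : AA R) :
    iT (hev ((C : R⟦X⟧ →+* AA R).comp (map κ)) d P x y X) =
      C (wL R 1) ^ d * MvPolynomial.eval₂ (map ((cL R).comp κ)) ![fr x, fr y] P := by
  have h : (iT (R := R)).comp ((C : R⟦X⟧ →+* AA R).comp (map κ)) = map ((cL R).comp κ) := by
    refine RingHom.ext fun c => ?_
    rw [RingHom.comp_apply, RingHom.comp_apply, iT_C, map_comp, RingHom.comp_apply]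
  rw [map_hev, h, iT_X, iT_eq x, iT_eq y, hev_eq _ _ hP]

theorem cc_E (κ : A →+* R) (u : R2 A⟦X⟧) (x y : AA R) :
    cc (MvPolynomial.eval₂ (map ((cL R).comp κ)) ![fr x, fr y] u) =
      MvPolynomial.eval₂ ((cL R).comp κ) ![coeL R (red x) * wL R (-1), coeL R (red y) * wL R (-1)]
        (MvPolynomial.map cc u) := by
  rw [k4_map, cc_fr, cc_fr, MvPolynomial.eval₂_map]
  rfl

theorem red_comp (κ : A →+* R) :
    (map (cc : R⟦X⟧ →+* R)).comp ((C : R⟦X⟧ →+* AA R).comp (map κ)) =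
      ((C : R →+* R⟦X⟧).comp κ).comp cc := by
  refine RingHom.ext fun c => ?_
  simp only [RingHom.comp_apply, map_C]
  rfl

end Gen

section Core
variable {k L : Type} [Field k] [CharZero k] [Field L]

theorem core (e : ℕ) (o : Ob k (e + 1)) (κ : k →+* L) (D : L →+ L) (x y : AA L)
    (hc0 : Curve κ D (hc (e + 1) o.f) (c00 x) (c00 y)) (hg : gf κ (c00 x) (c00 y) = ⊤)
    (h : hev ((C : L →+* L⟦X⟧).comp κ) (e + 1) o.f (red x) (red y) X = 1) :
    ∃ I : Inf k (e + 1) L, I.κ = κ ∧ I.D = D ∧ I.x0 = red x ∧ I.y0 = red y ∧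
      I.a = aF ((C : L⟦X⟧ →+* AA L).comp (map κ)) (e + 1) o.P o.Q x y ∧
      I.b = bF ((C : L⟦X⟧ →+* AA L).comp (map κ)) (e + 1) o.P o.Q (cw D) x y := by
  have : CharZero L := charZero_of_injective_ringHom κ.injective
  have hD := hc0.1
  have hκ := hc0.2.1
  set a := aF ((C : L⟦X⟧ →+* AA L).comp (map κ)) (e + 1) o.P o.Q x y with ha
  set b := bF ((C : L⟦X⟧ →+* AA L).comp (map κ)) (e + 1) o.P o.Q (cw D) x y with hb
  have ra : red a = -(((e + 1 : ℕ) : L⟦X⟧) * X) := by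
    rw [ha, red, map_aF]
    exact aF_red (P := o.P) (Q := o.Q) (f := o.f) (x := red x) (y := red y) _ (cc (R := k)) _
      (red_comp κ)
      (fun r => by rw [RingHom.comp_apply, dX_C]) e o.gen.2.1 o.rP o.rQ h
  have rb : red b = 0 := by
    have := map_bF (e + 1) ((C : L⟦X⟧ →+* AA L).comp (map κ)) (cc : L⟦X⟧ →+* L) (D := cw D)
      (D' := D) (θ := 1) (fun c => by rw [cc_cw, one_mul]) o.P o.Q x y
    rw [map_one, one_mul] at this
    rw [hb, red, this]
    exact bF_red (P := o.P) (Q := o.Q) (f := o.f) (x := red x) (y := red y) _ (cc (R := k)) _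
      (red_comp κ) hD
      (fun r => by rw [RingHom.comp_apply, cw_C, hκ, map_zero]) e o.gen.2.1 o.rP o.rQ h
  have fr0 : EL κ (red x) (red y) o.f = wL L (-((e + 1 : ℕ) : ℤ)) := by
    have h1 := congrArg (coeL L) h
    have hx : ∀ z : L⟦X⟧, coeL L z = wL L 1 * (coeL L z * wL L (-1)) := fun z => by
      rw [mul_left_comm, wL_mul_neg, mul_one]
    have h2 : (coeL L).comp ((C : L →+* L⟦X⟧).comp κ) = (cL L).comp κ :=
      RingHom.ext fun c => coeL_C _
    rw [map_hev, h2, coeL_X, hx (red x), hx (red y), hev_eq _ _ o.gen.2.1, map_one, wL_pow,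
      mul_one] at h1
    have h3 := wL_mul_neg (R := L) ((e + 1 : ℕ) : ℤ)
    change MvPolynomial.eval₂ _ _ _ = _
    linear_combination (wL L (-((e + 1 : ℕ) : ℤ))) * h1 - (MvPolynomial.eval₂ ((cL L).comp κ)
      ![coeL L (red x) * wL L (-1), coeL L (red y) * wL L (-1)] o.f) * h3
  have hd : ((e + 1 : ℕ) : L) ≠ 0 := Nat.cast_ne_zero.2 (Nat.succ_ne_zero e)
  have ca : cc (iT a) = -(cL L ((e + 1 : ℕ) : L) * wL L 1) := by
    rw [cc_iT, ra, map_neg, map_mul, coeL_X, map_natCast, map_natCast]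
  have ca' : cc (iT a) * -(cL L ((e + 1 : ℕ) : L)⁻¹ * wL L (-1)) = 1 := by
    rw [ca, neg_mul_neg, mul_mul_mul_comm, ← map_mul, mul_inv_cancel₀ hd, map_one, wL_mul_neg,
      one_mul]
  have ua : IsUnit (iT a) :=
    PowerSeries.isUnit_iff_constantCoeff.2 (IsUnit.of_mul_eq_one _ ca')
  obtain ⟨ai, hai⟩ := ua.exists_right_inv
  have cai : cc ai = -(cL L ((e + 1 : ℕ) : L)⁻¹ * wL L (-1)) := by
    have h1 := congrArg cc hai
    rw [map_mul, map_one] at h1
    linear_combination (-cc ai) * ca' + -(cL L ((e + 1 : ℕ) : L)⁻¹ * wL L (-1)) * h1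
  set φ : k⟦X⟧ →+* TT L := map ((cL L).comp κ) with hφ
  set E : R2 k⟦X⟧ →+* TT L := MvPolynomial.eval₂Hom φ ![fr x, fr y] with hE
  have hEa : ∀ u, E u = MvPolynomial.eval₂ φ ![fr x, fr y] u := fun u => rfl
  set W : TT L := C (wL L 1) with hW
  have ea : iT a = W ^ (e + 1 + 1) *
      (E o.P * cw (thL L) (fr y) - E o.Q * cw (thL L) (fr x)) := by
    rw [ha, aF, map_sub, map_mul, map_mul, iT_hev κ _ o.dP, iT_hev κ _ o.dQ, th_fr, th_fr, hEa, hEa]
    ring
  have eb : iT b = W ^ (e + 1 + 1) *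
      (E o.P * cw (cwL D) (fr y) - E o.Q * cw (cwL D) (fr x)) := by
    rw [hb, bF, map_sub, map_mul, map_mul, iT_hev κ _ o.dP, iT_hev κ _ o.dQ, D_fr hD, D_fr hD, hEa,
      hEa]
    ring
  have k1 : ∀ r, cw (cwL D) (φ r) = 0 := fun r => by
    ext1 n
    rw [coeff_cw, hφ, coeff_map, RingHom.comp_apply, cwL_cL, hκ, map_zero, map_zero]
  have k2 : ∀ r, cw (thL L) (φ r) = 0 := fun r => by
    ext1 n
    rw [coeff_cw, hφ, coeff_map, RingHom.comp_apply, thL_cL, map_zero]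
  have d1 := hD.coefL.coefw.eval₂ φ k1 (fr x) (fr y) o.H
  have d2 := (isDer_thL (R := L)).coefw.eval₂ φ k2 (fr x) (fr y) o.H
  have d3 := congrArg E o.eq
  rw [vf, map_add, map_mul, map_mul, map_mul, hE, MvPolynomial.eval₂Hom_C, ← hE, map_pow, hφ,
    map_X] at d3
  simp only [← hEa] at d1 d2
  set j : TT L := cw (thL L) (fr x) * cw (cwL D) (fr y) - cw (cwL D) (fr x) * cw (thL L) (fr y)
    with hj
  have hV : VT D (ai * iT b) (E o.H) = X ^ o.n * -(j * E o.gt * W ^ (e + 1 + 1) * ai) := by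
    rw [VT, d1, d2]
    have h1 : (1 : TT L) = ai * (W ^ (e + 1 + 1) *
      (E o.P * cw (thL L) (fr y) - E o.Q * cw (thL L) (fr x))) := by rw [← ea, mul_comm, hai]
    rw [eb, hj]
    linear_combination (E (MvPolynomial.pderiv 0 o.H) * cw (cwL D) (fr x) +
      E (MvPolynomial.pderiv 1 o.H) * cw (cwL D) (fr y)) * h1 -
      (cw (thL L) (fr x) * cw (cwL D) (fr y) - cw (cwL D) (fr x) * cw (thL L) (fr y)) *
        W ^ (e + 1 + 1) * ai * d3
  have rX : cc (-(j * E o.gt * W ^ (e + 1 + 1) * ai)) =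
      GLc κ (e + 1) D (red x) (red y) (MvPolynomial.map cc o.gt) := by
    have h1 : cc W ^ (e + 1 + 1) * wL L (-1) = wL L ((e + 1 : ℕ) : ℤ) := by
      rw [hW, constantCoeff_C, wL_pow, ← wL_add]
      congr 1
      push_cast
      ring
    rw [map_neg, map_mul, map_mul, map_mul, cai, hEa, hφ, cc_E, hj, map_sub, map_mul, map_mul,
      cc_cw, cc_cw, cc_cw, cc_cw, cc_fr, cc_fr, map_pow, GLc, ← h1]
    change _ = MvPolynomial.eval₂ _ _ _ * _
    ring
  refine ⟨⟨κ, D, o.f, MvPolynomial.map cc o.gt, red x, red y, a, b, ai * iT b, E o.H,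
    -(j * E o.gt * W ^ (e + 1 + 1) * ai), o.n, o.gen, o.ng, o.jac, ?_, ?_, fr0, ra, rb, ?_, o.n1,
    ?_, hV, rX⟩, rfl, rfl, rfl, rfl, rfl, rfl⟩
  · rwa [cc_red, cc_red]
  · rwa [cc_red, cc_red]
  · rw [← mul_assoc, hai, one_mul]
  · rw [hEa, hφ, cc_E, o.rH]
    exact fr0

end Core

section Fld
variable {k L : Type} [Field k] [Field L]

theorem euler {n : ℕ} {F : R2 k} (hF : F.IsHomogeneous n) (κ : k →+* L) (x y : L) :
    x * evp κ x y (MvPolynomial.pderiv 0 F) + y * evp κ x y (MvPolynomial.pderiv 1 F) =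
      n * evp κ x y F := by
  have h := congrArg (evp κ x y) hF.sum_X_mul_pderiv
  rw [Fin.sum_univ_two, map_add, map_mul, map_mul, nsmul_eq_mul, map_mul, map_natCast] at h
  simpa [evp] using h

theorem evp_mem (κ : k →+* L) (x y : L) (u : R2 k) : evp κ x y u ∈ gf κ x y := by
  induction u using MvPolynomial.induction_on with
  | C c =>
    rw [evp, MvPolynomial.eval₂Hom_C]
    exact Subfield.subset_closure (Or.inl ⟨c, rfl⟩)
  | add p q hp hq => rw [map_add]; exact add_mem hp hq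
  | mul_X p i hp =>
    rw [map_mul]
    refine mul_mem hp ?_
    rw [evp, MvPolynomial.eval₂Hom_X']
    refine Subfield.subset_closure (Or.inr ?_)
    fin_cases i <;> simp

theorem evp_hom {U : Type} [Field U] (κ : k →+* L) (ι : L →+* U) (x y : L) (u : R2 k) :
    ι (evp κ x y u) = evp (ι.comp κ) (ι x) (ι y) u := k4_map κ ι u x y

theorem gf_top {U : Type} [Field U] (κ : k →+* L) (ι : L →+* U) (x y : L)
    (h : ∀ c, ι c ∈ gf (ι.comp κ) (ι x) (ι y)) : gf κ x y = ⊤ := by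
  refine eq_top_iff.2 fun c _ => ?_
  have h1 : gf (ι.comp κ) (ι x) (ι y) ≤ (gf κ x y).map ι := by
    refine Subfield.closure_le.2 ?_
    rintro _ (⟨r, rfl⟩ | rfl | rfl)
    · exact ⟨κ r, Subfield.subset_closure (Or.inl ⟨r, rfl⟩), rfl⟩
    · exact ⟨x, Subfield.subset_closure (Or.inr (Or.inl rfl)), rfl⟩
    · exact ⟨y, Subfield.subset_closure (Or.inr (Or.inr rfl)), rfl⟩
  obtain ⟨c', hc', e⟩ := h1 (h c)
  rwa [← ι.injective e]

end Fld

end Mkinf

open Mkinf

theorem mkinfS (hA : DerAlgStmt) : MkinfStmt := by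
  intro k _ _ d o U _ κ D x y hd hD hκ hco h hne
  have : CharZero U := charZero_of_injective_ringHom κ.injective
  obtain ⟨e, rfl⟩ : ∃ e, d = e + 1 := ⟨d - 1, by omega⟩
  set x0 := c00 x with hx0
  set y0 := c00 y with hy0
  have hF : evp κ x0 y0 (hc (e + 1) o.f) = 1 := by
    have h1 := congrArg cc h
    rw [map_hev, constantCoeff_X, hev_zero, map_one, cc_red, cc_red] at h1
    have h2 : (cc : U⟦X⟧ →+* U).comp ((C : U →+* U⟦X⟧).comp κ) = κ :=
      RingHom.ext fun c => constantCoeff_C _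
    rwa [h2] at h1
  have hd0 : ((e + 1 : ℕ) : U) ≠ 0 := Nat.cast_ne_zero.2 (Nat.succ_ne_zero e)
  have h1 := euler (hc_hom (e + 1) o.f) κ x0 y0
  have h2 := hD.eval₂ κ hκ x0 y0 (hc (e + 1) o.f)
  change D (evp κ x0 y0 _) = evp κ x0 y0 _ * _ + evp κ x0 y0 _ * _ at h2
  rw [hF, mul_one] at h1
  rw [hF, hD.one] at h2
  set θ : U := (y0 * D x0 - x0 * D y0) / ((e + 1 : ℕ) : U) with hθ
  have θ0 : θ ≠ 0 := div_ne_zero hne hd0
  have hθ' : θ * ((e + 1 : ℕ) : U) = y0 * D x0 - x0 * D y0 := div_mul_cancel₀ _ hd0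
  have ex : θ⁻¹ * D x0 = evp κ x0 y0 (MvPolynomial.pderiv 1 (hc (e + 1) o.f)) := by
    rw [inv_mul_eq_iff_eq_mul₀ θ0]
    refine mul_right_cancel₀ hd0 ?_
    linear_combination (-D x0) * h1 - x0 * h2 -
      evp κ x0 y0 (MvPolynomial.pderiv 1 (hc (e + 1) o.f)) * hθ'
  have ey : θ⁻¹ * D y0 = -evp κ x0 y0 (MvPolynomial.pderiv 0 (hc (e + 1) o.f)) := by
    rw [inv_mul_eq_iff_eq_mul₀ θ0]
    refine mul_right_cancel₀ hd0 ?_
    linear_combination (-D y0) * h1 - y0 * h2 +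
      evp κ x0 y0 (MvPolynomial.pderiv 0 (hc (e + 1) o.f)) * hθ'
  have hκm : ∀ c, κ c ∈ gf κ x0 y0 := fun c => Subfield.subset_closure (Or.inl ⟨c, rfl⟩)
  have hst : ∀ z ∈ gf κ x0 y0, θ⁻¹ * D z ∈ gf κ x0 y0 := by
    refine (hA U (gf κ x0 y0)).2.2.2.2.2 _ (hD.mulLeft θ⁻¹) _ fun m hm =>
      ⟨Subfield.subset_closure hm, ?_⟩
    change θ⁻¹ * D m ∈ _
    rcases hm with ⟨c, rfl⟩ | rfl | rfl
    · rw [hκ, mul_zero]; exact zero_mem _
    · rw [ex]; exact evp_mem _ _ _ _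
    · rw [ey]; exact neg_mem (evp_mem _ _ _ _)
  let L := gf κ x0 y0
  let ι : L →+* U := L.subtype
  let κ' : k →+* L := κ.codRestrict L hκm
  let D' : L →+ L :=
    { toFun := fun z => ⟨θ⁻¹ * D z, hst z z.2⟩
      map_zero' := Subtype.ext (by simp)
      map_add' := fun a b => Subtype.ext (by simp [mul_add]) }
  have hD' : ∀ c, ι (D' c) = θ⁻¹ * D (ι c) := fun c => rfl
  have hDD : ∀ c, D (ι c) = θ * ι (D' c) := fun c => by
    rw [hD', ← mul_assoc, mul_inv_cancel₀ θ0, one_mul]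
  have hικ : ι.comp κ' = κ := rfl
  obtain ⟨x', ex'⟩ := exists_mA (τ := ι) (c := x) fun i j => ⟨⟨_, (hco i j).1⟩, rfl⟩
  obtain ⟨y', ey'⟩ := exists_mA (τ := ι) (c := y) fun i j => ⟨⟨_, (hco i j).2⟩, rfl⟩
  have cx : ι (c00 x') = x0 := by rw [hx0, ex', c00_mA]
  have cy : ι (c00 y') = y0 := by rw [hy0, ey', c00_mA]
  have cv : Curve κ' D' (hc (e + 1) o.f) (c00 x') (c00 y') := by
    refine ⟨fun a b => ι.injective ?_, fun c => ι.injective ?_, ι.injective ?_, ι.injective ?_,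
      ι.injective ?_⟩
    · rw [hD', map_add, map_mul ι, map_mul ι, map_mul ι, hD', hD', hD]; ring
    · rw [hD', map_zero]
      exact (congrArg (θ⁻¹ * ·) (hκ c)).trans (mul_zero _)
    · rw [evp_hom, hικ, cx, cy, hF, map_one]
    · rw [hD', evp_hom, hικ, cx, cy, ex]
    · rw [hD', map_neg, evp_hom, hικ, cx, cy, ey]
  have hg : gf κ' (c00 x') (c00 y') = ⊤ :=
    gf_top κ' ι _ _ fun c => by rw [hικ, cx, cy]; exact c.2
  have inj : Function.Injective (map ι : L⟦X⟧ →+* U⟦X⟧) := map_injective ι ι.injective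
  have hh : hev ((C : L →+* L⟦X⟧).comp κ') (e + 1) o.f (red x') (red y') X = 1 := by
    refine inj ?_
    have h3 : (map ι).comp ((C : L →+* L⟦X⟧).comp κ') = (C : U →+* U⟦X⟧).comp κ :=
      RingHom.ext fun c => by simp only [RingHom.comp_apply, map_C]; rfl
    rw [map_hev, h3, ← red_mA, ← red_mA, ← ex', ← ey', map_X, h, map_one]
  obtain ⟨I, i1, i2, i3, i4, i5, i6⟩ := core e o κ' D' x' y' cv hg hh
  have h4 : (map (map ι)).comp ((C : L⟦X⟧ →+* AA L).comp (map κ')) =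
      (C : U⟦X⟧ →+* AA U).comp (map κ) := by
    refine RingHom.ext fun c => ?_
    rw [RingHom.comp_apply, RingHom.comp_apply, map_C, ← hικ, map_comp]
    rfl
  refine ⟨hD, L, inferInstance, I, ι, θ, θ0, ?_, ?_, ?_, ?_, ?_, ?_⟩
  · rw [i2]; exact hDD
  · rw [i1]; exact fun c => rfl
  · rw [i3, cc_red, cx]
  · rw [i4, cc_red, cy]
  · rw [i5, mA, map_aF, h4, ex', ey']; rfl
  · rw [i6, mA, CC_apply, map_bF _ _ _ (cw_map hDD), h4, ex', ey']; rfl

theorem ratS : RatStmt := by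
  intro U _ N p y h0 hy h1
  have key : ∀ (r : Polynomial (AA N)) (z : AA N),
      (r.map (mA N.subtype)).eval (mA N.subtype z) = mA N.subtype (r.eval z) := fun r z => by
    rw [Polynomial.eval_map, Polynomial.eval₂_at_apply]
  have ca : c00 (mA N.subtype (CC ⟨c00 y, hy⟩)) = c00 y := by rw [c00_mA, c00_CC]; rfl
  have a0 : p.eval (CC ⟨c00 y, hy⟩) ∈ up (up (⊥ : Ideal N)) := by
    rw [mem_up2, Ideal.mem_bot]
    refine N.subtype.injective ?_
    rw [← c00_mA, ← key, eval_c00 _ ca, h0, map_zero, map_zero]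
  have a1 : IsUnit (p.derivative.eval (CC ⟨c00 y, hy⟩)) := by
    refine unit_c00 fun h => h1 ?_
    rw [Polynomial.derivative_map, ← eval_c00 _ ca, key, c00_mA, h, map_zero]
  obtain ⟨z, hz, ez⟩ := hensel _ p a0 a1
  have : y = mA N.subtype z := by
    refine hensel_unique (up (up (⊥ : Ideal U))) (p.map (mA N.subtype)) (unit_c00 h1) ?_ ?_
    · rw [mem_up2, Ideal.mem_bot] at hz ⊢
      rw [map_sub] at hz ⊢
      rw [← ca, c00_mA, c00_mA, ← map_sub, hz, map_zero]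
    · rw [h0, key, ez, map_zero]
  intro i j
  rw [this, co2_mA]
  exact (co2 i j z).2

theorem obsS : ObsStmt := by
  rintro k _ _ d U _ κ D x y a b ⟨-, L, _, I, ι, θ, θ0, h1, h2, h3, h4, rfl, rfl⟩
  refine ⟨?_, ?_, fun c => ?_, fun U' _ D' j θ' θ0' hD' hj =>
    ⟨hD', L, inferInstance, I, j.comp ι, θ' * j θ, mul_ne_zero θ0' ((_root_.map_ne_zero j).2 θ0),
      fun c => ?_, fun c => ?_, ?_, ?_, mA_mA _ _ _, ?_⟩⟩
  · rw [red_mA, I.ra, map_neg, map_mul, map_natCast, map_X]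
  · rw [map_mul, red_mA, I.rb, map_zero, mul_zero]
  · rw [← h2, h1, I.cv.2.1, map_zero, mul_zero]
  · rw [RingHom.comp_apply, hj, h1, map_mul, mul_assoc, RingHom.comp_apply]
  · rw [RingHom.comp_apply, h2, RingHom.comp_apply]
  · rw [RingHom.comp_apply, h3]
  · rw [RingHom.comp_apply, h4]
  · rw [map_mul, mA_CC, mA_mA, map_mul, mul_assoc]

end Pool.Agent.MP_05b4bd_ag.ES

end MrgPart1

-- ======== part 2: formerly Pool.Agent.MP_05b4bd_ag.esc.S2c
section MrgPart2

/-! Row S2C: the inner case over the algebraic closure of the function field. -/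

namespace Pool.Agent.MP_05b4bd_ag.ES

open PowerSeries LaurentSeries HC

namespace S2c

section Alg
variable {k L E : Type} [Field k] [Field L] [Field E]

theorem evp_map (κ : k →+* L) (i : L →+* E) (x y : L) (r : R2 k) :
    i (evp κ x y r) = evp (i.comp κ) (i x) (i y) r := by
  unfold evp
  rw [MvPolynomial.map_eval₂Hom]
  congr 2
  funext j
  fin_cases j <;> rfl

theorem alg_of (M : Subfield E) (i : L →+* E) (κ : k →+* L) {x y : L} (hg : gf κ x y = ⊤)
    (h0 : ∀ c, i (κ c) ∈ M) (hx : IsAlgebraic M (i x)) (hy : IsAlgebraic M (i y))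
    (ha : ∀ e : E, IsAlgebraic i.fieldRange e) (e : E) : IsAlgebraic M e := by
  have hle : ∀ z : L, i z ∈ algebraicClosure M E := by
    intro z
    have hz : z ∈ gf κ x y := hg ▸ Subfield.mem_top z
    have : gf κ x y ≤ (algebraicClosure M E).toSubfield.comap i := by
      refine Subfield.closure_le.2 ?_
      rintro w (⟨c, rfl⟩ | rfl | rfl)
      · exact mem_algebraicClosure_iff.2 (isAlgebraic_algebraMap (⟨_, h0 c⟩ : M))
      · exact mem_algebraicClosure_iff.2 hx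
      · exact mem_algebraicClosure_iff.2 hy
    exact this hz
  let f : i.fieldRange →+* algebraicClosure M E :=
    i.fieldRange.subtype.codRestrict (algebraicClosure M E) fun z => by
      obtain ⟨w, hw⟩ := z.2
      have := hle w
      rwa [hw] at this
  have h1 : IsAlgebraic (algebraicClosure M E) ((RingHom.id E) e) :=
    (ha e).ringHom_of_comp_eq f (RingHom.id E) f.injective (by ext; rfl)
  exact h1.restrictScalars M

theorem alg_E (κ : k →+* L) (i : L →+* E) {d : ℕ} {F : R2 k} {x y : L} (hd : 1 ≤ d)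
    (hF : F.IsHomogeneous d) (h1 : evp κ x y F = 1) (hg : gf κ x y = ⊤)
    (ha : ∀ e : E, IsAlgebraic i.fieldRange e) :
    ∃ x0, ∀ e : E, IsAlgebraic (Subfield.closure (Set.range (i.comp κ) ∪ {x0})) e := by
  have hk : ∀ x0 c, i (κ c) ∈ Subfield.closure (Set.range (i.comp κ) ∪ {x0}) :=
    fun x0 c => Subfield.subset_closure (Or.inl ⟨c, rfl⟩)
  have hx0 : ∀ x0, x0 ∈ Subfield.closure (Set.range (i.comp κ) ∪ {x0}) :=
    fun x0 => Subfield.subset_closure (Or.inr rfl)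
  by_cases hx : x = 0
  · refine ⟨i y, alg_of _ i κ hg (hk _) ?_ (isAlgebraic_algebraMap (⟨_, hx0 _⟩ :
      Subfield.closure (Set.range (i.comp κ) ∪ {i y}))) ha⟩
    rw [hx, map_zero]
    exact isAlgebraic_zero
  refine ⟨i (y / x), ?_⟩
  generalize hM : Subfield.closure (Set.range (i.comp κ) ∪ {i (y / x)}) = M
  have hk' : ∀ c, i (κ c) ∈ M := fun c => hM ▸ hk _ c
  have hu : i (y / x) ∈ M := hM ▸ hx0 _
  have hm : ∀ r : R2 k, evp (i.comp κ) 1 (i (y / x)) r ∈ M := by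
    intro r
    unfold evp
    induction r using MvPolynomial.induction_on with
    | C a => rw [MvPolynomial.eval₂Hom_C]; exact hk' a
    | add p q hp hq => rw [map_add]; exact M.add_mem hp hq
    | mul_X p j hp =>
      rw [map_mul, MvPolynomial.eval₂Hom_X']
      refine M.mul_mem hp ?_
      fin_cases j
      · exact M.one_mem
      · exact hu
  have e1 : i x ^ d * evp (i.comp κ) 1 (i (y / x)) F = 1 := by
    have := k4_hom (i.comp κ) hF (i x) 1 (i (y / x))
    rw [mul_one, ← map_mul, mul_div_cancel₀ _ hx] at this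
    have e := evp_map κ i x y F
    rw [h1, map_one] at e
    exact this.symm.trans e.symm
  have hxa : IsAlgebraic M (i x) := by
    refine ⟨Polynomial.X ^ d * Polynomial.C ⟨_, hm F⟩ - 1, fun h => ?_, ?_⟩
    · have := congrArg (Polynomial.eval 0) h
      simp [zero_pow (show d ≠ 0 by omega)] at this
    · simp only [map_sub, map_mul, map_pow, Polynomial.aeval_X, Polynomial.aeval_C, map_one]
      exact sub_eq_zero.2 e1
  refine alg_of M i κ hg hk' hxa ?_ ha
  have : i y = i x * i (y / x) := by rw [← map_mul, mul_div_cancel₀ _ hx]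
  rw [this]
  exact hxa.mul (isAlgebraic_algebraMap (⟨_, hu⟩ : M))

theorem hol1 (hH : HolStmt) (hG : GenTopStmt) [CharZero k] [IsAlgClosed k] {d : ℕ} (I : Inf k d L)
    {D1 : E →+ E} {i : L →+* E} (hd : 3 ≤ d) (hD : DExt I.D D1 i)
    (ha : ∀ e : E, IsAlgebraic i.fieldRange e) {r : R2 k} (hr : DL (d - 2) r) (c : k) {e η : E}
    (he : e ≠ 0) (h : D1 η = i (evp I.κ (cc I.x0) (cc I.y0) r) + i (I.κ c) * (D1 e / e)) :
    D1 η = 0 := by
  obtain ⟨-, c2, c3, c4, c5⟩ := I.cv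
  refine hH k E (i.comp I.κ) D1 hD.1 (fun c => ?_)
    (alg_E I.κ i (by omega) (hc_hom d I.f) c3 I.gb ha) d (hc d I.f) hd (hc_hom d I.f)
    (hG k d I.f (by omega) I.gen).2.1 1 1 (fun _ => 1) (fun _ => i (cc I.x0))
    (fun _ => i (cc I.y0)) (fun _ => r) (fun _ => c) (fun _ => e) η (fun _ => ⟨?_, ?_, ?_, hr⟩)
    (fun _ => he) ?_
  · rw [RingHom.comp_apply, hD.2, c2, map_zero]
  · rw [← evp_map, c3, map_one]
  · rw [← evp_map, hD.2, c4, one_mul]
  · rw [← evp_map, hD.2, c5, one_mul, map_neg]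
  · rw [h, evp_map]
    simp

end Alg

section Solve
variable {k E : Type} [Field k] [Field E]

/-- `q d/dq - p d/dp` on `k[p][[q]]`. -/
noncomputable def D0 (c : (Polynomial k)⟦X⟧) : (Polynomial k)⟦X⟧ :=
  X * dX _ c - C Polynomial.X * cw (Polynomial.derivative (R := k)).toAddMonoidHom c

theorem poly_solve [CharZero k] (j : ℕ) (f : Polynomial k) : ∃ g : Polynomial k,
    (j : Polynomial k) * g - Polynomial.X * Polynomial.derivative g =
      f - Polynomial.X ^ j * Polynomial.C (f.coeff j) := by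
  induction f using Polynomial.induction_on' with
  | add p q hp hq =>
    obtain ⟨g, hg⟩ := hp
    obtain ⟨g', hg'⟩ := hq
    refine ⟨g + g', ?_⟩
    rw [Polynomial.coeff_add, map_add, map_add]
    linear_combination hg + hg'
  | monomial n a =>
    by_cases h : n = j
    · refine ⟨0, ?_⟩
      subst h
      rw [Polynomial.coeff_monomial_same, mul_comm (Polynomial.X ^ n),
        Polynomial.C_mul_X_pow_eq_monomial]
      simp
    · have hne : (j : k) - n ≠ 0 := sub_ne_zero.2 fun e => h (Nat.cast_injective e).symm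
      refine ⟨Polynomial.monomial n (a / ((j : k) - n)), ?_⟩
      rw [Polynomial.coeff_monomial, if_neg h, map_zero, mul_zero, sub_zero]
      have e1 : Polynomial.X * Polynomial.derivative (Polynomial.monomial n (a / ((j : k) - n))) =
          Polynomial.monomial n (a / ((j : k) - n) * n) := by
        rw [Polynomial.derivative_monomial]
        rcases n with _ | n
        · simp
        · rw [Nat.add_sub_cancel, Polynomial.X_mul_monomial]
      rw [e1, ← Polynomial.C_eq_natCast, Polynomial.C_mul_monomial, ← map_sub]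
      congr 1
      field_simp

theorem solve [CharZero k] (u : (Polynomial k)⟦X⟧) : ∃ (c : (Polynomial k)⟦X⟧) (ρ : k⟦X⟧),
    D0 c = u - rescale Polynomial.X (map Polynomial.C ρ) := by
  choose g hg using fun j => poly_solve j (coeff j u)
  refine ⟨mk g, mk fun j => (coeff j u).coeff j, ?_⟩
  ext1 j
  rw [D0, map_sub, ← thP_apply, coeff_thP, coeff_C_mul, coeff_cw, map_sub, coeff_rescale,
    coeff_map, coeff_mk, coeff_mk]
  exact hg j

variable {κ : k →+* E} {D1 : E →+ E} {p pi : E⟦X⟧} {φ : (Polynomial k)⟦X⟧ →+* E⟦X⟧}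

theorem chain (hD : IsDer D1) (hκ : ∀ c, D1 (κ c) = 0) (hp : p * pi = 1)
    (h1 : ∀ r, φ (C (Polynomial.C r)) = C (κ r)) (h2 : φ (C Polynomial.X) = p)
    (h3 : p * φ X = X) (c : (Polynomial k)⟦X⟧) :
    cw D1 (φ c) = -(cw D1 p * pi) * φ (D0 c) := by
  have hδ := hD.coefw
  have hX : φ X = pi * X := by linear_combination pi * h3 - φ X * hp
  have hL : IsDer (Polynomial.derivative (R := k)).toAddMonoidHom := fun a b => by
    simp [Polynomial.derivative_mul]
  have h4 : ∀ r : Polynomial k, cw D1 (φ (C r)) =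
      cw D1 p * φ (C ((Polynomial.derivative (R := k)).toAddMonoidHom r)) := by
    intro r
    induction r using Polynomial.induction_on' with
    | add a b ha hb => simp only [map_add, ha, hb, mul_add]
    | monomial n a =>
      have e : (Polynomial.derivative (R := k)).toAddMonoidHom (Polynomial.monomial n a) =
          Polynomial.C a * ((n : Polynomial k) * Polynomial.X ^ (n - 1)) := by
        rw [← Polynomial.C_mul_X_pow_eq_monomial]
        simp [Polynomial.derivative_X_pow]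
      rw [e, ← Polynomial.C_mul_X_pow_eq_monomial]
      simp only [map_mul, map_pow, map_natCast, h1, h2]
      rw [hδ.const_mul (by rw [cw_C, hκ, map_zero]), hδ.pow]
      ring
  have h5 := hom_chain (Ideal.span {(X : E⟦X⟧)}) (g := φ)
    (by rw [hX]; exact Ideal.mul_mem_left _ _ (Ideal.mem_span_singleton_self _)) hδ hL h4 c
  have h6 : cw D1 (φ X) = -(cw D1 p * pi) * φ X := by
    have := hδ p (φ X)
    rw [h3, cw_X hD.one] at this
    linear_combination (-pi) * this - cw D1 (φ X) * hp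
  rw [h5, h6, D0, map_sub, map_mul, map_mul, h2]
  linear_combination (-(cw D1 p) * φ (cw (Polynomial.derivative (R := k)).toAddMonoidHom c)) * hp

theorem diag (h1 : ∀ r, φ (C (Polynomial.C r)) = C (κ r))
    (h2 : φ (C Polynomial.X) = p) (h3 : p * φ X = X) (ρ : k⟦X⟧) :
    φ (rescale Polynomial.X (map Polynomial.C ρ)) = map κ ρ := by
  have e : (φ.comp (rescale Polynomial.X)).comp (map Polynomial.C) X = X := by
    simp [rescale_X, h2, h3]
  have := homExt (Ideal.span {(X : E⟦X⟧)})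
    (g := (φ.comp (rescale Polynomial.X)).comp (map Polynomial.C)) (g' := map κ)
    (fun r => by
      have : rescale Polynomial.X (C (Polynomial.C r)) = C (Polynomial.C r) := by
        ext1 n
        rw [coeff_rescale, coeff_C]
        split_ifs with h <;> simp [h]
      simp [this, h1]) (by rw [e, map_X]) (by rw [e]; exact Ideal.mem_span_singleton_self _)
  exact DFunLike.congr_fun this ρ

theorem solve' [CharZero k] (hD : IsDer D1) (hκ : ∀ c, D1 (κ c) = 0) (hp : p * pi = 1)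
    (h1 : ∀ r, φ (C (Polynomial.C r)) = C (κ r)) (h2 : φ (C Polynomial.X) = p)
    (h3 : p * φ X = X) {a : ℕ} {u : (Polynomial k)⟦X⟧} (hu : (C Polynomial.X * X) ^ a ∣ u) :
    ∃ (c : (Polynomial k)⟦X⟧) (ρ : k⟦X⟧), (C Polynomial.X * X) ^ a ∣ c ∧ X ^ a ∣ ρ ∧
      cw D1 (φ c) = -(cw D1 p * pi) * (φ u - map κ ρ) := by
  obtain ⟨u, rfl⟩ := hu
  obtain ⟨c, ρ, h⟩ := solve u
  refine ⟨(C Polynomial.X * X) ^ a * c, X ^ a * ρ, dvd_mul_right _ _, dvd_mul_right _ _, ?_⟩
  simp only [map_mul, map_pow, h2, h3, map_X]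
  rw [cw_X_pow_mul, chain hD hκ hp h1 h2 h3, h, map_sub, diag h1 h2 h3]
  ring

end Solve

section Rec
variable {k E : Type} [Field k] [Field E]

/-- `VT` as an additive map. -/
noncomputable def VA (D : E →+ E) (vb : TT E) : TT E →+ TT E :=
  cw (cwL D) - (AddMonoidHom.mulLeft vb).comp (cw (thL E))

theorem VA_apply (D : E →+ E) (vb s : TT E) : VA D vb s = VT D vb s := rfl

theorem isDer_VA {D : E →+ E} (hD : IsDer D) (vb : TT E) : IsDer (VA D vb) :=
  hD.coefL.coefw.sub (isDer_thL.coefw.mulLeft vb)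

theorem VA_cL (D : E →+ E) (vb : TT E) (c : E⟦X⟧) :
    VA D vb (map (cL E) c) = map (cL E) (cw D c) := by
  have e : cw (thL E) (map (cL E) c) = 0 := by
    ext1 n
    rw [coeff_cw, coeff_map, thL_cL, map_zero]
  rw [VA_apply, VT, e, mul_zero, sub_zero, cw_map' (cwL_cL D)]

/-- Evaluation of a polynomial over `k[[t]]` at an element of `TT E`. -/
noncomputable def Psi (κ : k →+* E) (w : TT E) : Polynomial k⟦X⟧ →+* TT E :=
  Polynomial.eval₂RingHom ((map (cL E)).comp (map κ)) w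

theorem Psi_mono (κ : k →+* E) (w : TT E) (n : ℕ) (a : k⟦X⟧) :
    Psi κ w (Polynomial.monomial n a) = map (cL E) (map κ a) * w ^ n := by
  simp [Psi, Polynomial.eval₂_monomial]

theorem Psi_CX (κ : k →+* E) (w : TT E) : Psi κ w (Polynomial.C X) = X := by
  simp [Psi]

theorem cc_map' {A B : Type} [CommRing A] [CommRing B] (f : A →+* B) (c : A⟦X⟧) :
    cc (map f c) = f (cc c) := by
  rw [← coeff_zero_eq_constantCoeff_apply, coeff_map, coeff_zero_eq_constantCoeff_apply]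

theorem coeff_Psi (κ : k →+* E) {w : TT E} (hw : cc w = wL E (-1)) (ρ : Polynomial k⟦X⟧) :
    (∀ j : ℕ, (cc (Psi κ w ρ)).coeff (-(j : ℤ)) = κ (cc (ρ.coeff j))) ∧
      ∀ z, ∃ r, (cc (Psi κ w ρ)).coeff z = κ r := by
  induction ρ using Polynomial.induction_on' with
  | add a b ha hb =>
    refine ⟨fun j => ?_, fun z => ?_⟩
    · rw [map_add, map_add, HahnSeries.coeff_add, ha.1, hb.1, Polynomial.coeff_add, map_add,
        map_add]
    · obtain ⟨r, hr⟩ := ha.2 z
      obtain ⟨r', hr'⟩ := hb.2 z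
      exact ⟨r + r', by rw [map_add, map_add, HahnSeries.coeff_add, hr, hr', map_add]⟩
  | monomial n a =>
    have e : ∀ z, (cc (Psi κ w (Polynomial.monomial n a))).coeff z =
        κ (cc a) * if z = n * (-1) then 1 else 0 := by
      intro z
      rw [Psi_mono, map_mul, map_pow, hw, cc_map', cc_map', wL_pow, coeff_cL_mul, coeff_wL]
    refine ⟨fun j => ?_, fun z => ?_⟩
    · rw [e, Polynomial.coeff_monomial]
      by_cases h : n = j
      · rw [if_pos h, if_pos (by omega), mul_one]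
      · rw [if_neg h, if_neg (by omega), mul_zero, map_zero, map_zero]
    · rw [e]
      split_ifs
      · exact ⟨cc a, mul_one _⟩
      · exact ⟨0, by rw [mul_zero, map_zero]⟩

theorem der_inv_pow {S : Type} [CommRing S] {V : S →+ S} (hV : IsDer V) {W Wi : S}
    (h : W * Wi = 1) (e : ℕ) : V (Wi ^ e) = -(e * Wi ^ (e + 1) * V W) := by
  induction e with
  | zero => simp [hV.one]
  | succ e ih =>
    rw [pow_succ, hV, ih, hV.inv h]
    push_cast
    ring

theorem recur {κ : k →+* E} {D1 : E →+ E} {φ : (Polynomial k)⟦X⟧ →+* E⟦X⟧} {s : E⟦X⟧}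
    {T γ0 γ1 : (Polynomial k)⟦X⟧} {vb W Wi : TT E} (hD : IsDer D1) (hT : φ T = X)
    (hs : ∀ (a : ℕ) (u : (Polynomial k)⟦X⟧), T ^ a ∣ u →
      ∃ (c : (Polynomial k)⟦X⟧) (ρ : k⟦X⟧), T ^ a ∣ c ∧ X ^ a ∣ ρ ∧
        cw D1 (φ c) = s * (φ u - map κ ρ))
    (hW : W * Wi = 1) (h0 : T ∣ γ0) (h1 : T ∣ γ1)
    (hV : VA D1 vb W = map (cL E) s * (map (cL E) (φ γ1) + map (cL E) (φ γ0) * Wi)) (e : ℕ) :
    ∃ (Θ : TT E) (ρ : Polynomial k⟦X⟧) (u v : (Polynomial k)⟦X⟧), cc Θ = cc W ∧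
      Polynomial.C X ∣ ρ ∧ T ^ (e / 2 + 1) ∣ u ∧ T ^ ((e + 1) / 2 + 1) ∣ v ∧
      VA D1 vb Θ = map (cL E) s *
        (Psi κ Wi ρ + map (cL E) (φ u) * Wi ^ e + map (cL E) (φ v) * Wi ^ (e + 1)) := by
  induction e with
  | zero =>
    refine ⟨W, 0, γ1, γ0, rfl, dvd_zero _, by simpa using h1, by simpa using h0, ?_⟩
    rw [hV, map_zero]
    ring
  | succ e ih =>
    obtain ⟨Θ, ρ, u, v, a1, a2, a3, a4, a5⟩ := ih
    obtain ⟨c, r, b1, b2, b3⟩ := hs _ u a3
    have hc : cc (φ c) = 0 := by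
      obtain ⟨c', rfl⟩ := b1
      simp [hT]
    refine ⟨Θ - map (cL E) (φ c) * Wi ^ e, ρ + Polynomial.monomial e r, v + e * c * γ1,
      e * c * γ0, ?_, ?_, ?_, ?_, ?_⟩
    · rw [map_sub, map_mul, cc_map', hc, a1, map_zero, zero_mul, sub_zero]
    · refine a2.add ?_
      obtain ⟨r', rfl⟩ := (dvd_pow_self X (Nat.succ_ne_zero _)).trans b2
      exact ⟨Polynomial.monomial e r', by rw [Polynomial.C_mul_monomial]⟩
    · refine a4.add ?_
      have : T ^ (e / 2 + 1 + 1) ∣ c * γ1 := by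
        rw [pow_succ]
        exact mul_dvd_mul b1 h1
      rw [mul_assoc]
      exact ((pow_dvd_pow T (by omega)).trans this).mul_left _
    · have : T ^ (e / 2 + 1 + 1) ∣ c * γ0 := by
        rw [pow_succ]
        exact mul_dvd_mul b1 h0
      rw [mul_assoc]
      exact ((pow_dvd_pow T (by omega)).trans this).mul_left _
    · rw [map_sub, a5, isDer_VA hD vb, VA_cL, b3, der_inv_pow (isDer_VA hD vb) hW, hV, map_add,
        Psi_mono]
      simp only [map_add, map_mul, map_sub, map_natCast]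
      ring

theorem mT_id (x : TT E) : mT (RingHom.id E) x = x := by
  ext1 n
  rw [mT, coeff_map]
  rfl

theorem cc_vb {L : Type} [Field L] [CharZero k] {d : ℕ} (I : Inf k d L) (hd : 1 ≤ d) :
    cc I.vb = 0 := by
  have : CharZero L := charZero_of_injective_ringHom I.κ.injective
  have h := congrArg cc I.hv
  rw [map_mul, cc_iT, cc_iT, I.ra, I.rb, map_zero] at h
  refine (mul_eq_zero.1 h).resolve_left fun h0 => ?_
  have h1 := congrArg (coeff 1) (coeL_inj (h0.trans (map_zero _).symm))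
  rw [map_neg, coeff_succ_mul_X, ← map_natCast (C : L →+* L⟦X⟧), coeff_zero_C, map_zero,
    neg_eq_zero] at h1
  exact Nat.cast_ne_zero.2 (by omega) h1

theorem cmp' (hC : CmpStmt) {L : Type} [Field L] [CharZero k] {d : ℕ} (I : Inf k d L)
    {D1 : E →+ E} {i : L →+* E} (hd : 1 ≤ d) (hD : DExt I.D D1 i) {m : ℕ} (h1 : 1 ≤ m)
    (h2 : m ≤ I.n) {S U : TT E} (h : VA D1 (mT i I.vb) S = X ^ m * U) :
    ∃ η, cwL D1 η = cc U - dh d (cc S) * cc (X ^ (I.n - m) * mT i I.Xi) := by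
  have : CharZero E := charZero_of_injective_ringHom (i.comp I.κ).injective
  have e : VT D1 (mT i I.vb) (mT i I.h) = X ^ m * (X ^ (I.n - m) * mT i I.Xi) := by
    have := congrArg (mT i) I.hV
    rw [VT, map_sub, map_mul, map_mul, map_pow] at this
    rw [VT, mT, cw_map' (cwL_mapL hD.2), cw_map' (thL_mapL i), ← mul_assoc, ← pow_add,
      Nat.add_sub_cancel' h2]
    rw [mT, map_X] at this
    exact this
  obtain ⟨S0, S', -, -, h3⟩ := hC E E D1 D1 (RingHom.id E) d m (mT i I.vb) (mT i I.h) _ S U hd h1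
    ⟨hD.1, fun _ => rfl⟩ (fun c _ => ⟨c, rfl⟩) (by rw [mT, cc_map', cc_vb I hd, map_zero])
    (by rw [mT, cc_map', I.rh, mapL_wL]) e (by rw [mT_id]; exact h)
  exact ⟨_, h3⟩

end Rec

end S2c

open S2c in
theorem s2cS (hC : CmpStmt) (hI : IlStmt) (hH : HolStmt) (hG : GenTopStmt) : S2cStmt := by
  intro k L E _ _ _ _ _ d I D1 i W p g0 g1 φ hd hD ha hW hp h1 h2 h3 hg0 hg1 hV
  have : CharZero E := charZero_of_injective_ringHom (i.comp I.κ).injective
  obtain ⟨c1, c2, c3, c4, c5⟩ := I.cv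
  obtain ⟨pi, hpi⟩ := hp.exists_right_inv
  have hκ : ∀ c, D1 (i (I.κ c)) = 0 := fun c => by rw [hD.2, c2, map_zero]
  have hp0 : cc p * cc pi = 1 := by rw [← map_mul, hpi, map_one]
  have hp1 : cc p ≠ 0 := left_ne_zero_of_mul_eq_one hp0
  have hs0 : cc (-(cw D1 p * pi)) = -(D1 (cc p) / cc p) := by
    rw [map_neg, map_mul, cc_cw, eq_inv_of_mul_eq_one_right hp0, div_eq_mul_inv]
  have hch := chain (κ := i.comp I.κ) hD.1 hκ hpi h1 h2 h3
  have hso := fun a u => solve' (κ := i.comp I.κ) (a := a) (u := u) hD.1 hκ hpi h1 h2 h3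
  generalize -(cw D1 p * pi) = s at hs0 hch hso
  have hT : φ (C Polynomial.X * X) = X := by rw [map_mul, h2, h3]
  generalize (C Polynomial.X * X : (Polynomial k)⟦X⟧) = T at hT hso hg0 hg1
  obtain ⟨Wi, hWi⟩ : ∃ Wi, W * Wi = 1 :=
    (isUnit_iff_constantCoeff.2 (by rw [show constantCoeff W = _ from hW]; exact isUnit_wL 1) :
      IsUnit W).exists_right_inv
  have hcW : cc Wi = wL E (-1) := by
    have a := congrArg cc hWi
    rw [map_mul, hW, map_one] at a
    have b : wL E (-1) * wL E 1 = 1 := by rw [← wL_add]; exact wL_zero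
    linear_combination wL E (-1) * a - cc Wi * b
  obtain ⟨g0, rfl⟩ := hg0
  obtain ⟨g1, rfl⟩ := hg1
  have hδ : ∀ g, cw D1 (φ (T * g)) = s * φ (T * D0 g) := by
    intro g
    have := cw_X_pow_mul D1 1 (φ g)
    rw [pow_one] at this
    rw [map_mul φ, map_mul φ, hT, this, hch]
    ring
  obtain ⟨Θ, ρ, u, v, a1, a2, a3, a4, a5⟩ := recur (κ := i.comp I.κ) (vb := mT i I.vb) (W := W)
    (γ0 := T * D0 g0) (γ1 := T * D0 g1) hD.1 hT hso hWi (dvd_mul_right _ _) (dvd_mul_right _ _)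
    (by
      rw [← VA_apply, hδ, hδ, map_mul (map (cL E)), map_mul (map (cL E))] at hV
      linear_combination Wi * hV - (VA D1 (mT i I.vb) W - map (cL E) s *
        map (cL E) (φ (T * D0 g1))) * hWi) (2 * I.n)
  obtain ⟨u, rfl⟩ := (pow_dvd_pow T (show I.n + 1 ≤ _ by omega)).trans a3
  obtain ⟨v, rfl⟩ := (pow_dvd_pow T (show I.n + 1 ≤ _ by omega)).trans a4
  have key : ∀ m, 1 ≤ m → m ≤ I.n → ∀ ρ', ρ = Polynomial.C X ^ m * ρ' → ∃ η, cwL D1 η =
      cL E (cc s) * cc (Psi (i.comp I.κ) Wi ρ') -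
        dh d (wL E 1) * cc (X ^ (I.n - m) * mT i I.Xi) := by
    intro m b1 b2 ρ' e
    obtain ⟨j, hj⟩ := Nat.exists_eq_add_of_le b2
    obtain ⟨η, hη⟩ := cmp' hC I (by omega) hD b1 b2 (S := Θ)
      (U := map (cL E) s * (Psi (i.comp I.κ) Wi ρ' + X * (X ^ j *
        (map (cL E) (φ u) * Wi ^ (2 * I.n) + map (cL E) (φ v) * Wi ^ (2 * I.n + 1))))) (by
      rw [a5, e]
      simp only [map_mul, map_pow, hT, map_X, Psi_CX]
      rw [show I.n + 1 = m + j + 1 by omega]
      ring)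
    refine ⟨η, ?_⟩
    rw [hη, a1, hW, map_mul, map_add, map_mul cc X, constantCoeff_X, zero_mul, add_zero, cc_map']
  by_contra hne
  have hsn : cc s ≠ 0 := by rw [hs0]; exact neg_ne_zero.2 (div_ne_zero hne hp1)
  have step : ∀ m, 1 ≤ m → m ≤ I.n → Polynomial.C X ^ m ∣ ρ := by
    intro m hm
    induction m, hm using Nat.le_induction with
    | base => intro _; simpa using a2
    | succ m hm ih =>
      intro b
      obtain ⟨ρ', e⟩ := ih (by omega)
      obtain ⟨η, hη⟩ := key m hm (by omega) ρ' e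
      have e0 : cc (X ^ (I.n - m) * mT i I.Xi) = 0 := by
        rw [map_mul, map_pow, constantCoeff_X, zero_pow (by omega), zero_mul]
      rw [e0, mul_zero, sub_zero] at hη
      rw [e, pow_succ]
      refine mul_dvd_mul_left _ ((Polynomial.C_dvd_iff_dvd_coeff _ _).2 fun j => ?_)
      have e1 := congrArg (fun f => f.coeff (-(j : ℤ))) hη
      simp only [coeff_cwL, coeff_cL_mul, (coeff_Psi _ hcW ρ').1] at e1
      have e2 := hol1 hH hG I (by omega) hD ha (r := 0) (fun _ _ => rfl) (-cc (ρ'.coeff j)) hp1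
        (η := η.coeff (-(j : ℤ))) (by
          rw [e1, hs0]
          simp only [map_zero, map_neg, RingHom.comp_apply]
          ring)
      rw [e2] at e1
      exact X_dvd_iff.2 ((map_eq_zero (i.comp I.κ)).1
        ((mul_eq_zero.1 e1.symm).resolve_left hsn))
  obtain ⟨ρ', e⟩ := step I.n I.n1 le_rfl
  obtain ⟨η, hη⟩ := key I.n I.n1 le_rfl ρ' e
  rw [Nat.sub_self, pow_zero, one_mul, mT, cc_map'] at hη
  have hd0 : (d : E) ≠ 0 := Nat.cast_ne_zero.2 (by omega)
  let Λ : AddSubgroup L :=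
    { carrier := {ξ | ∃ c η, D1 η = i ξ + i (I.κ c) * (D1 (cc p) / cc p)}
      zero_mem' := ⟨0, 0, by simp⟩
      add_mem' := by
        rintro a b ⟨c, η, h⟩ ⟨c', η', h'⟩
        exact ⟨c + c', η + η', by simp only [map_add, h, h']; ring⟩
      neg_mem' := by
        rintro a ⟨c, η, h⟩
        exact ⟨-c, -η, by simp only [map_neg, h]; ring⟩ }
  have hΛ := hI k L d I Λ (by omega) (by
      rintro c z ⟨c', η, h⟩
      refine ⟨c * c', i (I.κ c) * η, ?_⟩
      rw [hD.1.const_mul (hκ c), h]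
      simp only [map_mul]
      ring) (fun η => ⟨0, i η, by rw [hD.2]; simp⟩) (by
      intro z _
      obtain ⟨r, hr⟩ := (coeff_Psi (i.comp I.κ) hcW ρ').2 (z + 1 + d)
      have e1 := congrArg (fun f => f.coeff (z + 1 + d)) hη
      have e2 : dh d (wL E 1) * mapL i (cc I.Xi) =
          -(cL E (d : E)⁻¹ * (wL E d * (wL E 1 * mapL i (cc I.Xi)))) := by
        rw [dh, thL_wL]
        push_cast
        ring
      simp only [e2, sub_neg_eq_add, coeff_cwL, HahnSeries.coeff_add, coeff_cL_mul, coeff_wL_mul,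
        hr, coeff_mapL, add_sub_cancel_right] at e1
      refine ⟨-(d * r), d * η.coeff (z + 1 + d), ?_⟩
      rw [hD.1.const_mul (hD.1.natCast d), e1, hs0]
      simp only [map_neg, map_mul, map_natCast, RingHom.comp_apply]
      field_simp
      ring)
  have hnd : ∀ j, j ≤ 1 → ¬ d ∣ j + 2 := fun j hj h => by
    have := Nat.le_of_dvd (by omega) h
    omega
  have fin : ∀ (j : ℕ) (r : R2 k), j ≤ 1 → r.IsHomogeneous j →
      ∃ c, i (evp I.κ (cc I.x0) (cc I.y0) r) = i (I.κ c) * cc s := by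
    intro j r hj hr
    obtain ⟨c, η, h⟩ := hΛ j r hr (hnd j hj)
    have := hol1 hH hG I (by omega) hD ha ((DL.of_hom hr).mono (by omega)) c hp1 h
    exact ⟨c, by rw [hs0]; linear_combination h.symm.trans this⟩
  obtain ⟨e1, f1⟩ := fin 0 1 (by omega) (MvPolynomial.isHomogeneous_one _ _)
  rw [map_one, map_one] at f1
  have hc : ∀ j : Fin 2, I.D (evp I.κ (cc I.x0) (cc I.y0) (MvPolynomial.X j)) = 0 := by
    intro j
    obtain ⟨e2, f2⟩ := fin 1 (MvPolynomial.X j) le_rfl (MvPolynomial.isHomogeneous_X _ _)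
    have b1 : D1 (i (I.κ e1) * cc s) = 0 := by rw [← f1, hD.1.one]
    rw [hD.1.const_mul (hκ e1)] at b1
    have b2 := (mul_eq_zero.1 b1).resolve_left (left_ne_zero_of_mul_eq_one f1.symm)
    apply i.injective
    rw [← hD.2, f2, hD.1.const_mul (hκ e2), b2, mul_zero, map_zero]
  have x0 := hc 0
  have x1 := hc 1
  simp only [evp, MvPolynomial.eval₂Hom_X', Matrix.cons_val_zero, Matrix.cons_val_one] at x0 x1
  have eu := congrArg (evp I.κ (cc I.x0) (cc I.y0)) (euler (hc_hom d I.f))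
  rw [c4] at x0
  rw [c5, neg_eq_zero] at x1
  rw [map_add, map_mul, map_mul, map_mul, x0, x1, c3, map_natCast, mul_zero, mul_zero, mul_one,
    add_zero] at eu
  exact hd0 (by rw [← map_natCast i, ← eu, map_zero])

end Pool.Agent.MP_05b4bd_ag.ES

end MrgPart2

-- marker of a merged file
example : 731051 + 728044 = 731051 + 728044 := rfl

end MrgPart0

-- ======== part 1: formerly Pool.Agent.MP_05b4bd_ag.esc3.S2c
section MrgPart1

/-! Escaping centres in every degree at least three: the small case, the unit `p` is constant. -/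

namespace Pool.Agent.MP_05b4bd_ag.ES

open PowerSeries LaurentSeries HC

namespace S2c3

/-- The last step: a non-zero class cannot be a multiple of a common element. -/
theorem fin3 (hG : GenTopStmt) (hE : EvbStmt) (hN : NzcStmt) (hT : TraceStmt) {k L E : Type}
    [Field k] [CharZero k] [Field L] [Field E] {d : ℕ} (I : Inf k d L) {D1 : E →+ E}
    {i : L →+* E} (hd : 3 ≤ d) (hD : DExt I.D D1 i) (ha : ∀ e : E, IsAlgebraic i.fieldRange e)
    (l : E) (hΛ : ∀ (n : ℕ) (r : R2 k), r.IsHomogeneous n → ¬ d ∣ n + 2 →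
      ∃ c η, D1 η = i (evp I.κ (cc I.x0) (cc I.y0) r) + i (I.κ c) * l) : False := by
  have : CharZero L := charZero_of_injective_ringHom I.κ.injective
  obtain ⟨-, g2, g3, g4, -⟩ := hG k d I.f (by omega) I.gen
  obtain ⟨⟨n, r, r1, r2, r3, r4⟩, n2, n3⟩ := hN k d (hc d I.f) hd (hc_hom d I.f) g2
  have hκ : ∀ c, D1 (i (I.κ c)) = 0 := fun c => by rw [hD.2, I.cv.2.1, map_zero]
  have hb : ∀ (s : R2 k) (η : E), D1 η = i (evp I.κ (cc I.x0) (cc I.y0) s) →
      Bt (hc d I.f) s := by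
    intro s η h
    obtain ⟨η0, h0⟩ := hT L E I.D D1 i hD η _ (ha η) h
    exact hE k L I.κ I.D d (hc d I.f) _ _ (by omega) (hc_hom d I.f) g2 g3 g4 I.cv I.gb s η0 h0
  obtain ⟨c1, η1, h1⟩ := hΛ 0 1 (MvPolynomial.isHomogeneous_one _ _) (fun h => by
    have := Nat.le_of_dvd (by omega) h
    omega)
  obtain ⟨c2, η2, h2⟩ := hΛ n r r1 r2
  have hC : ∀ c, evp I.κ (cc I.x0) (cc I.y0) (MvPolynomial.C c) = I.κ c := fun c => by
    simp [evp]
  have h3 := hb (MvPolynomial.C c2 + MvPolynomial.C (-c1) * r)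
    (i (I.κ c2) * η1 - i (I.κ c1) * η2) (by
      rw [map_sub, hD.1.const_mul (hκ c2), hD.1.const_mul (hκ c1), h1, h2]
      simp only [map_add, map_mul, hC, map_neg, map_one]
      ring)
  have h4 := (n3 (-2) _ _ (by
      intro e he
      rw [MvPolynomial.coeff_C] at he
      split_ifs at he with h
      · subst h
        simp
      · exact absurd rfl he) (by
      intro e he
      rw [MvPolynomial.coeff_C_mul] at he
      have h5 : e.degree = n := by
        by_contra h6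
        exact right_ne_zero_of_mul he (r1.coeff_eq_zero h6)
      rw [h5, show (n : ℤ) + -2 + 2 = n by ring]
      exact fun h => r3 (Int.natCast_dvd_natCast.1 h)) h3).2
  by_cases hc1 : c1 = 0
  · rw [hc1, map_zero, map_zero, zero_mul, add_zero] at h1
    exact n2 (hb 1 η1 h1)
  · exact r4 (Bx.bt_of_C (neg_ne_zero.2 hc1) h4)

end S2c3

open S2c in
theorem s2cS3 (hC : CmpStmt) (hI : IlStmt) (hH : HolStmt) (hG : GenTopStmt) (hE : EvbStmt)
    (hN : NzcStmt) (hTr : TraceStmt) : S2cStmt3 := by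
  intro k L E _ _ _ _ _ d I D1 i W p g0 g1 φ hd hD ha hW hp h1 h2 h3 hg0 hg1 hV
  have : CharZero E := charZero_of_injective_ringHom (i.comp I.κ).injective
  obtain ⟨c1, c2, c3, c4, c5⟩ := I.cv
  obtain ⟨pi, hpi⟩ := hp.exists_right_inv
  have hκ : ∀ c, D1 (i (I.κ c)) = 0 := fun c => by rw [hD.2, c2, map_zero]
  have hp0 : cc p * cc pi = 1 := by rw [← map_mul, hpi, map_one]
  have hp1 : cc p ≠ 0 := left_ne_zero_of_mul_eq_one hp0
  have hs0 : cc (-(cw D1 p * pi)) = -(D1 (cc p) / cc p) := by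
    rw [map_neg, map_mul, cc_cw, eq_inv_of_mul_eq_one_right hp0, div_eq_mul_inv]
  have hch := chain (κ := i.comp I.κ) hD.1 hκ hpi h1 h2 h3
  have hso := fun a u => solve' (κ := i.comp I.κ) (a := a) (u := u) hD.1 hκ hpi h1 h2 h3
  generalize -(cw D1 p * pi) = s at hs0 hch hso
  have hT : φ (C Polynomial.X * X) = X := by rw [map_mul, h2, h3]
  generalize (C Polynomial.X * X : (Polynomial k)⟦X⟧) = T at hT hso hg0 hg1
  obtain ⟨Wi, hWi⟩ : ∃ Wi, W * Wi = 1 :=
    (isUnit_iff_constantCoeff.2 (by rw [show constantCoeff W = _ from hW]; exact isUnit_wL 1) :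
      IsUnit W).exists_right_inv
  have hcW : cc Wi = wL E (-1) := by
    have a := congrArg cc hWi
    rw [map_mul, hW, map_one] at a
    have b : wL E (-1) * wL E 1 = 1 := by rw [← wL_add]; exact wL_zero
    linear_combination wL E (-1) * a - cc Wi * b
  obtain ⟨g0, rfl⟩ := hg0
  obtain ⟨g1, rfl⟩ := hg1
  have hδ : ∀ g, cw D1 (φ (T * g)) = s * φ (T * D0 g) := by
    intro g
    have := cw_X_pow_mul D1 1 (φ g)
    rw [pow_one] at this
    rw [map_mul φ, map_mul φ, hT, this, hch]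
    ring
  obtain ⟨Θ, ρ, u, v, a1, a2, a3, a4, a5⟩ := recur (κ := i.comp I.κ) (vb := mT i I.vb) (W := W)
    (γ0 := T * D0 g0) (γ1 := T * D0 g1) hD.1 hT hso hWi (dvd_mul_right _ _) (dvd_mul_right _ _)
    (by
      rw [← VA_apply, hδ, hδ, map_mul (map (cL E)), map_mul (map (cL E))] at hV
      linear_combination Wi * hV - (VA D1 (mT i I.vb) W - map (cL E) s *
        map (cL E) (φ (T * D0 g1))) * hWi) (2 * I.n)
  obtain ⟨u, rfl⟩ := (pow_dvd_pow T (show I.n + 1 ≤ _ by omega)).trans a3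
  obtain ⟨v, rfl⟩ := (pow_dvd_pow T (show I.n + 1 ≤ _ by omega)).trans a4
  have key : ∀ m, 1 ≤ m → m ≤ I.n → ∀ ρ', ρ = Polynomial.C X ^ m * ρ' → ∃ η, cwL D1 η =
      cL E (cc s) * cc (Psi (i.comp I.κ) Wi ρ') -
        dh d (wL E 1) * cc (X ^ (I.n - m) * mT i I.Xi) := by
    intro m b1 b2 ρ' e
    obtain ⟨j, hj⟩ := Nat.exists_eq_add_of_le b2
    obtain ⟨η, hη⟩ := cmp' hC I (by omega) hD b1 b2 (S := Θ)
      (U := map (cL E) s * (Psi (i.comp I.κ) Wi ρ' + X * (X ^ j *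
        (map (cL E) (φ u) * Wi ^ (2 * I.n) + map (cL E) (φ v) * Wi ^ (2 * I.n + 1))))) (by
      rw [a5, e]
      simp only [map_mul, map_pow, hT, map_X, Psi_CX]
      rw [show I.n + 1 = m + j + 1 by omega]
      ring)
    refine ⟨η, ?_⟩
    rw [hη, a1, hW, map_mul, map_add, map_mul cc X, constantCoeff_X, zero_mul, add_zero, cc_map']
  by_contra hne
  have hsn : cc s ≠ 0 := by rw [hs0]; exact neg_ne_zero.2 (div_ne_zero hne hp1)
  have step : ∀ m, 1 ≤ m → m ≤ I.n → Polynomial.C X ^ m ∣ ρ := by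
    intro m hm
    induction m, hm using Nat.le_induction with
    | base => intro _; simpa using a2
    | succ m hm ih =>
      intro b
      obtain ⟨ρ', e⟩ := ih (by omega)
      obtain ⟨η, hη⟩ := key m hm (by omega) ρ' e
      have e0 : cc (X ^ (I.n - m) * mT i I.Xi) = 0 := by
        rw [map_mul, map_pow, constantCoeff_X, zero_pow (by omega), zero_mul]
      rw [e0, mul_zero, sub_zero] at hη
      rw [e, pow_succ]
      refine mul_dvd_mul_left _ ((Polynomial.C_dvd_iff_dvd_coeff _ _).2 fun j => ?_)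
      have e1 := congrArg (fun f => f.coeff (-(j : ℤ))) hη
      simp only [coeff_cwL, coeff_cL_mul, (coeff_Psi _ hcW ρ').1] at e1
      have e2 := hol1 hH hG I (by omega) hD ha (r := 0) (fun _ _ => rfl) (-cc (ρ'.coeff j)) hp1
        (η := η.coeff (-(j : ℤ))) (by
          rw [e1, hs0]
          simp only [map_zero, map_neg, RingHom.comp_apply]
          ring)
      rw [e2] at e1
      exact X_dvd_iff.2 ((map_eq_zero (i.comp I.κ)).1
        ((mul_eq_zero.1 e1.symm).resolve_left hsn))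
  obtain ⟨ρ', e⟩ := step I.n I.n1 le_rfl
  obtain ⟨η, hη⟩ := key I.n I.n1 le_rfl ρ' e
  rw [Nat.sub_self, pow_zero, one_mul, mT, cc_map'] at hη
  have hd0 : (d : E) ≠ 0 := Nat.cast_ne_zero.2 (by omega)
  let Λ : AddSubgroup L :=
    { carrier := {ξ | ∃ c η, D1 η = i ξ + i (I.κ c) * (D1 (cc p) / cc p)}
      zero_mem' := ⟨0, 0, by simp⟩
      add_mem' := by
        rintro a b ⟨c, η, h⟩ ⟨c', η', h'⟩
        exact ⟨c + c', η + η', by simp only [map_add, h, h']; ring⟩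
      neg_mem' := by
        rintro a ⟨c, η, h⟩
        exact ⟨-c, -η, by simp only [map_neg, h]; ring⟩ }
  have hΛ := hI k L d I Λ (by omega) (by
      rintro c z ⟨c', η, h⟩
      refine ⟨c * c', i (I.κ c) * η, ?_⟩
      rw [hD.1.const_mul (hκ c), h]
      simp only [map_mul]
      ring) (fun η => ⟨0, i η, by rw [hD.2]; simp⟩) (by
      intro z _
      obtain ⟨r, hr⟩ := (coeff_Psi (i.comp I.κ) hcW ρ').2 (z + 1 + d)
      have e1 := congrArg (fun f => f.coeff (z + 1 + d)) hη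
      have e2 : dh d (wL E 1) * mapL i (cc I.Xi) =
          -(cL E (d : E)⁻¹ * (wL E d * (wL E 1 * mapL i (cc I.Xi)))) := by
        rw [dh, thL_wL]
        push_cast
        ring
      simp only [e2, sub_neg_eq_add, coeff_cwL, HahnSeries.coeff_add, coeff_cL_mul, coeff_wL_mul,
        hr, coeff_mapL, add_sub_cancel_right] at e1
      refine ⟨-(d * r), d * η.coeff (z + 1 + d), ?_⟩
      rw [hD.1.const_mul (hD.1.natCast d), e1, hs0]
      simp only [map_neg, map_mul, map_natCast, RingHom.comp_apply]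
      field_simp
      ring)
  exact S2c3.fin3 hG hE hN hTr I hd hD ha (D1 (cc p) / cc p) hΛ

end Pool.Agent.MP_05b4bd_ag.ES

end MrgPart1

-- marker of a merged file
example : 731051 + 713445 = 731051 + 713445 := rfl
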