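import Pool.Agent.MP_05b4bd_ag.esc3.Spec
import Pool.Agent.MP_05b4bd_ag.esc.S2a
import Pool.Agent.MP_05b4bd_ag.esc.Log1
import Pool.Agent.MP_05b4bd_ag.esc.Bfin

/-! Symmetries of the form at infinity in every degree at least three. -/

namespace Pool.Agent.MP_05b4bd_ag.ES

open PowerSeries LaurentSeries HC

open Symb in
theorem symbS3 (h1 : CmpStmt) (h2 : IlStmt) (h3 : HolStmt) (h4 : GenTopStmt) : SymbStmt3 := by
  intro k L E _ _ _ _ _ d I D1 i φ s W hd hE halg hκ hφ hW heq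
  have : CharZero L := charZero_of_injective_ringHom I.κ.injective
  have : CharZero E := charZero_of_injective_ringHom i.injective
  obtain ⟨hD, hDκ, hF, hx, hy⟩ := I.cv
  obtain ⟨-, hCI, -, h0d, -⟩ := h4 k d I.f (by omega) I.gen
  obtain ⟨Ψ, p1, p2, p3, p4, p5⟩ := ext hD hE.1 φ s W hφ hW
  have rW : red W = X := by
    have := red_eq_zero.2 hW
    rwa [map_sub, red_X, sub_eq_zero] at this
  have mW : W ∈ up (up (⊥ : Ideal E)) := by
    rw [mem_up2, ← cc_red, rW]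
    simp
  have nW : iT W ≠ 0 := fun h => by
    have := congrArg cc h
    rw [cc_iT, rW, coeL_X, map_zero] at this
    exact (isUnit_wL 1).ne_zero this
  have ca : cc (iT I.a) ≠ 0 := by
    rw [cc_iT, I.ra, map_neg, map_mul, coeL_X, map_natCast, neg_ne_zero]
    refine mul_ne_zero ?_ (isUnit_wL 1).ne_zero
    rw [← map_natCast (cL L), map_ne_zero]
    exact Nat.cast_ne_zero.2 (by omega)
  have ua : IsUnit (iT I.a) := isUnit_iff_constantCoeff.2 (Ne.isUnit ca)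
  have cv : cc I.vb = 0 := by
    have := congrArg cc I.hv
    rw [map_mul, cc_iT I.b, I.rb, map_zero] at this
    exact (mul_eq_zero.1 this).resolve_left ca
  have key : cw (cwL D1) (iT W) + iT (C s) * (iT W * Ψ I.vb) = cw (thL E) (iT W) * mT i I.vb := by
    have e := congrArg iT heq
    rw [map_mul (ev _ W) X, ev_X _ mW] at e
    simp only [map_mul, map_add] at e
    rw [← p1, ← p1, ← mT_iT, ← mT_iT, ← I.hv, ← cw_iT, map_mul, map_mul] at e
    rw [th_iT, thP_apply, map_mul]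
    refine mul_left_cancel₀ (mul_ne_zero (ua.map (mT i)).ne_zero (ua.map Ψ).ne_zero) ?_
    linear_combination e
  have hV : VT D1 (mT (RingHom.id E) (mT i I.vb)) (Ψ I.h) = X ^ I.n * (iT (C s) * Ψ I.Xi) := by
    have e := congrArg Ψ I.hV
    rw [VT, map_sub, map_mul, map_mul, map_pow, p2] at e
    rw [mT_id, VT]
    refine mul_left_cancel₀ nW ?_
    linear_combination p4 I.h - mT i I.vb * p5 I.h + Ψ (cw (thL L) I.h) * key +
      iT W * iT (C s) * e
  obtain ⟨S0, S', -, -, q⟩ := h1 E E D1 D1 (RingHom.id E) d I.n (mT i I.vb) (mT i I.h) (mT i I.Xi)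
    (Ψ I.h) _ (by omega) I.n1 ⟨hE.1, fun _ => rfl⟩ (fun c _ => ⟨c, rfl⟩)
    (by rw [mT, K3.cc_map, cv, map_zero]) (by rw [mT, K3.cc_map, I.rh, mapL_wL])
    (by rw [VT_mT hE.2, I.hV, map_mul, map_pow, mT, map_X]) hV
  rw [p3, I.rh, mapL_wL, dh_wL (by omega), one_mul, mapL_id, map_mul, p3, cc_iT, red_C, coeL_C, mT,
    K3.cc_map] at q
  generalize hφ0 : cc.comp φ = φ0 at q
  have f0 : ∀ c, cc (φ c) = φ0 c := fun c => RingHom.congr_fun hφ0 c
  have fκ : φ0.comp I.κ = i.comp I.κ := RingHom.ext fun c => by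
    rw [RingHom.comp_apply, ← f0, hκ]
    simp
  have fD : ∀ c, D1 (φ0 c) = cc s * φ0 (I.D c) := fun c => by
    rw [← f0, ← f0, ← cc_cw, hφ, map_mul]
  have Dκ : ∀ c, D1 (i (I.κ c)) = 0 := fun c => by rw [hE.2, hDκ, map_zero]
  let Λ : AddSubgroup L := D1.range.comap
    ((AddMonoidHom.mulLeft (cc s)).comp φ0.toAddMonoidHom - i.toAddMonoidHom)
  have mΛ : ∀ z, z ∈ Λ ↔ ∃ η, D1 η = cc s * φ0 z - i z := fun z => Iff.rfl
  have il := h2 k L d I Λ (by omega) (fun c z hz => by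
      obtain ⟨η, e⟩ := (mΛ z).1 hz
      refine (mΛ _).2 ⟨i (I.κ c) * η, ?_⟩
      rw [hE.1.const_mul (Dκ c), e, map_mul, map_mul,
        show φ0 (I.κ c) = i (I.κ c) from RingHom.congr_fun fκ c]
      ring)
    (fun η => (mΛ _).2 ⟨φ0 η - i η, by rw [map_sub, fD, hE.2]⟩)
    (fun m _ => (mΛ _).2 ⟨(cc S').coeff m, by
      rw [← coeff_cwL, q, HahnSeries.coeff_sub, coeff_cL_mul, coeff_mapL, coeff_mapL]⟩)
  have fin : ∀ (n : ℕ) (r : R2 k), r.IsHomogeneous n → n + 3 ≤ d →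
      cc s * φ0 (evp I.κ (cc I.x0) (cc I.y0) r) = i (evp I.κ (cc I.x0) (cc I.y0) r) := by
    intro n r hr hn
    obtain ⟨η, e⟩ := (mΛ _).1 (il n r hr fun t => by have := Nat.le_of_dvd (by omega) t; omega)
    have dl : DL (d - 2) r := fun m hm => hr.coeff_eq_zero (by omega)
    have z := h3 k E (i.comp I.κ) D1 hE.1 Dκ
      ⟨_, alg I.κ i (by omega) (hc_hom d I.f) h0d hF I.gb halg⟩ d (hc d I.f) (by omega)
      (hc_hom d I.f) hCI 2 0 ![cc s, 1] ![φ0 (cc I.x0), i (cc I.x0)] ![φ0 (cc I.y0), i (cc I.y0)]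
      ![r, -r] Fin.elim0 Fin.elim0 η (fun j => by
        fin_cases j
        · refine ⟨?_, ?_, ?_, dl⟩
          · show evp _ (φ0 _) (φ0 _) _ = 1
            rw [← fκ, ← map_evp, hF, map_one]
          · show D1 (φ0 _) = cc s * evp _ (φ0 _) (φ0 _) _
            rw [← fκ, ← map_evp, fD, hx]
          · show D1 (φ0 _) = -(cc s * evp _ (φ0 _) (φ0 _) _)
            rw [← fκ, ← map_evp, fD, hy, map_neg, mul_neg]
        · refine ⟨?_, ?_, ?_, fun m hm => ?_⟩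
          · show evp _ (i _) (i _) _ = 1
            rw [← map_evp, hF, map_one]
          · show D1 (i _) = 1 * evp _ (i _) (i _) _
            rw [← map_evp, hE.2, hx, one_mul]
          · show D1 (i _) = -(1 * evp _ (i _) (i _) _)
            rw [← map_evp, hE.2, hy, map_neg, one_mul]
          · show MvPolynomial.coeff m (-r) = 0
            rw [MvPolynomial.coeff_neg, dl m hm, neg_zero])
      (fun j => j.elim0) (by
        rw [Fin.sum_univ_two, Fin.sum_univ_zero, add_zero, e]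
        show _ = cc s * evp _ (φ0 _) (φ0 _) r + 1 * evp _ (i _) (i _) (-r)
        rw [map_evp, map_evp, fκ, map_neg]
        ring)
    rw [e] at z
    exact sub_eq_zero.1 z
  have s1 : cc s = 1 := by simpa using fin 0 1 (MvPolynomial.isHomogeneous_one _ _) (by omega)
  refine ⟨s1, fun h4 => ?_⟩
  have sx := fin 1 _ (MvPolynomial.isHomogeneous_X k 0) h4
  have sy := fin 1 _ (MvPolynomial.isHomogeneous_X k 1) h4
  rw [s1, one_mul] at sx sy
  rw [f0, f0]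
  exact ⟨by simpa [evp] using sx, by simpa [evp] using sy⟩

namespace S2a

theorem descend3 (hB : SymbStmt3) (hA : DerAlgStmt) {k L U : Type} [Field k] [CharZero k]
    [IsAlgClosed k] [Field L] [Field U] [CharZero U] {d : ℕ} (I : Inf k d L) {D1 : U →+ U}
    {i : L →+* U} {φ : L →+* U⟦X⟧} {s : U⟦X⟧} {W : AA U} (hd : 3 ≤ d) (hD : DExt I.D D1 i)
    (hκ : ∀ c, φ (I.κ c) = C (i (I.κ c))) (hs : ∀ c, cw D1 (φ c) = s * φ (I.D c))
    (hW : C X ∣ W - X)
    (he : mA i I.a * (Ph φ W I.a * cw (cw D1) W + C s * Ph φ W (X * I.b)) =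
      Ph φ W I.a * dX _ W * (X * mA i I.b))
    (h0 : ∀ δ : U →+ U, IsDer δ → (∀ c, δ (i c) = 0) →
      cw (cw δ) W = 0 ∧ cw δ s = 0 ∧ ∀ c, cw δ (φ c) = 0) :
    cc s = 1 ∧ (4 ≤ d → cc (φ (cc I.x0)) = i (cc I.x0) ∧ cc (φ (cc I.y0)) = i (cc I.y0)) := by
  obtain ⟨-, a2, a3, ⟨N, hN⟩, -⟩ := hA U i.fieldRange
  have hm : ∀ z, (∀ δ : U →+ U, IsDer δ → (∀ c, δ (i c) = 0) → δ z = 0) → z ∈ N := fun z hz =>
    (hN z).2 (a3 z fun δ hδ h => hz δ hδ fun c => h _ ⟨c, rfl⟩)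
  have hi : ∀ c, i c ∈ N := fun c => hm _ fun δ _ h => h c
  have hMN : i.fieldRange ≤ N := by
    rintro _ ⟨c, rfl⟩
    exact hi c
  have hDN : ∀ z ∈ N, D1 z ∈ N := fun z hz =>
    a2 D1 hD.1 N hMN (by rintro _ ⟨c, rfl⟩; rw [hD.2]; exact hi _) z hz ((hN z).1 hz)
  let j : N →+* U := N.subtype
  have hj : Function.Injective j := Subtype.val_injective
  have hjm : Function.Injective (map j) := map_injective j hj
  let i' : L →+* N := i.codRestrict N hi
  have hi' : ∀ c, j (i' c) = i c := fun _ => rfl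
  let D' : N →+ N := AddMonoidHom.mk' (fun z => ⟨D1 z, hDN z z.2⟩) fun a b =>
    Subtype.ext (map_add D1 _ _)
  have hD' : ∀ z, D1 (j z) = j (D' z) := fun _ => rfl
  obtain ⟨W', rfl⟩ : ∃ W', W = mA j W' := exists_mA fun a b => ⟨⟨co2 a b W, hm _ fun δ hδ h => by
    have := congrArg (co2 a b) (h0 δ hδ h).1
    simpa only [co2, coeff_cw, map_zero] using this⟩, rfl⟩
  obtain ⟨s', rfl⟩ : ∃ s', s = map j s' := exists_map_of_coeff fun n =>
    ⟨⟨coeff n s, hm _ fun δ hδ h => by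
      have := congrArg (coeff n) (h0 δ hδ h).2.1
      simpa only [coeff_cw, map_zero] using this⟩, rfl⟩
  obtain ⟨φ', hφ'⟩ := exists_lift (map j) hjm φ fun c => exists_map_of_coeff fun n =>
    ⟨⟨coeff n (φ c), hm _ fun δ hδ h => by
      have := congrArg (coeff n) ((h0 δ hδ h).2.2 c)
      simpa only [coeff_cw, map_zero] using this⟩, rfl⟩
  have eφ : (map j).comp φ' = φ := RingHom.ext hφ'
  have ei : j.comp i' = i := RingHom.ext hi'
  have hW' : C X ∣ W' - X := by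
    rw [← red_eq_zero] at hW ⊢
    apply hjm
    rw [← red_mA, map_sub, mA_X, hW, map_zero]
  have key := hB k L N d I D' i' φ' s' W' hd
    ⟨fun a b => hj (by
        rw [map_add j, map_mul j, map_mul j, ← hD', ← hD', ← hD', map_mul j, hD.1]),
      fun c => hj (by rw [← hD', hi', hi', hD.2])⟩
    (fun e => by
      let f : i'.fieldRange →+* i.fieldRange :=
        (j.comp i'.fieldRange.subtype).codRestrict i.fieldRange (by
          rintro ⟨_, c, rfl⟩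
          exact ⟨c, rfl⟩)
      refine IsAlgebraic.of_ringHom_of_comp_eq f j ((hN e).1 e.2) ?_ hj rfl
      rintro ⟨_, c, rfl⟩
      exact ⟨⟨i' c, c, rfl⟩, rfl⟩)
    (fun c => hjm (by rw [hφ', hκ, map_C, hi']))
    (fun c => hjm (by rw [← cw_map' hD', map_mul, hφ', hφ', hs]))
    hW'
    (mA_inj hj (by
      have e1 : mA j (cw (cw D') W') = cw (cw D1) (mA j W') :=
        (cw_map' (fun c => cw_map' hD' c) W').symm
      have e2 : mA j (dX _ W') = dX _ (mA j W') := (dX_map _ _).symm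
      simp only [map_mul (mA j), map_add (mA j)]
      rw [mA_mA, mA_mA, ei, mA_Ph hW', mA_Ph hW', eφ, e1, e2, mA_C, mA_X]
      exact he))
  have hc : ∀ c, cc (φ c) = j (cc (φ' c)) := fun c => by
    rw [← hφ', ← coeff_zero_eq_constantCoeff_apply, coeff_map, coeff_zero_eq_constantCoeff_apply]
  refine ⟨by rw [K3.cc_map, key.1, map_one], fun h4 => ?_⟩
  rw [hc, hc, (key.2 h4).1, (key.2 h4).2]
  exact ⟨rfl, rfl⟩

end S2a

open S2a in
theorem s2aS3 (hSa : SymaStmt3) (hSb : SymbStmt3) (hA : DerAlgStmt) : S2aStmt3 := by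
  intro k U _ _ _ _ d κ D x y a b Wt lam G0 G1 φ s hd hO hL h0 hκ hs e0 e1
  obtain ⟨hD, L, _, I, ι, θ, hθ, hι, hk, hx, hy, ha, hb⟩ := hO
  have : CharZero U := (RingHom.charZero_iff κ.injective).1 inferInstance
  let D1 : U →+ U := (AddMonoidHom.mulLeft θ⁻¹).comp D
  have hD1 : DExt I.D D1 ι := ⟨hD.mulLeft _, fun c => by
    change θ⁻¹ * D (ι c) = _
    rw [hι, inv_mul_cancel_left₀ hθ]⟩
  have c1 : ∀ c, cw D1 c = C θ⁻¹ * cw D c := cw_mulLeft _ _
  have c2 : ∀ c : AA U, cw (cw D1) c = CC θ⁻¹ * cw (cw D) c := fun c => by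
    ext1 n
    rw [coeff_cw, c1, CC_apply, coeff_C_mul, coeff_cw]
  have hθ' : (CC θ⁻¹ : AA U) * CC θ = 1 := by rw [← map_mul, inv_mul_cancel₀ hθ, map_one]
  obtain ⟨W, hW, hΦ⟩ := exists_W φ hL.w
  obtain ⟨m, hm⟩ := (hL.u.map (Ph φ W)).exists_left_inv
  have nd : ¬ I.a ∣ X * I.b := fun h => hL.nd h0 (by
    have := map_dvd (mA ι) h
    rw [map_mul, mA_X, ← ha] at this
    rw [hb, mul_left_comm]
    exact this.mul_left _)
  have pa : Ph φ W a = Ph (φ.comp ι) W I.a := by rw [ha, Ph_mA hW]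
  have pb : Ph φ W (X * b) = C (φ θ) * Ph (φ.comp ι) W (X * I.b) := by
    rw [hb, mul_left_comm, map_mul, CC_apply, Ph_C hW, hat_C, ← Ph_mA hW, map_mul (mA ι), mA_X]
  have q1 := congrArg (Ph φ W) hL.ea
  rw [map_mul, map_mul, hΦ, pa] at q1
  have q2 := congrArg (Ph φ W) hL.eb
  rw [map_sub, map_sub, map_mul, map_mul, map_mul (Ph φ W) lam, hΦ, pb, Ph_C hW, Ph_C hW] at q2
  have r1 := dX_Ph (φ := φ) hW Wt
  have r2 := cw_Ph hW hD hD hs Wt
  have r3 := congrArg (C : U⟦X⟧ →+* AA U) (cw_hat hD hD hs G0)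
  have r4 := congrArg (C : U⟦X⟧ →+* AA U) (cw_hat hD hD hs G1)
  rw [hΦ] at r1 r2
  rw [e0, map_mul] at r3
  rw [e1, map_mul] at r4
  have ea := hL.ea
  have eb := hL.eb
  have E1 : Ph (φ.comp ι) W I.a * dX _ W = m * lam * mA ι I.a := by
    rw [← ha]
    linear_combination (-(Ph (φ.comp ι) W I.a * dX _ W)) * hm - m * dX _ W * q1 + m * ea -
      m * Wt * r1
  have E2 : Ph (φ.comp ι) W I.a * cw (cw D1) W + C (C θ⁻¹ * s * φ θ) * Ph (φ.comp ι) W (X * I.b) =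
      m * lam * (X * mA ι I.b) := by
    rw [c2, map_mul, map_mul, ← CC_apply]
    rw [hb] at eb
    linear_combination
      (-(CC θ⁻¹ * (Ph (φ.comp ι) W I.a * cw (cw D) W +
        C s * C (φ θ) * Ph (φ.comp ι) W (X * I.b)))) * hm -
      CC θ⁻¹ * m * (cw (cw D) W * q1 + C s * q2 - eb + Wt * r2 - r3 - Wt * r4) +
      m * lam * (X * mA ι I.b) * hθ'
  have hκ' : ∀ c, (φ.comp ι) (I.κ c) = C (ι (I.κ c)) := fun c => by
    rw [RingHom.comp_apply, hk, hκ]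
  have hs' : ∀ c, cw D1 ((φ.comp ι) c) = C θ⁻¹ * s * φ θ * (φ.comp ι) (I.D c) := fun c => by
    rw [c1, RingHom.comp_apply, RingHom.comp_apply, hs, hι, map_mul]
    ring
  have hl : IsUnit (m * lam) := (IsUnit.of_mul_eq_one _ hm).mul hL.u
  have key := descend3 hSb hA I hd hD1 hκ' hs' hW (by rw [E1, E2]; ring)
    (hSa k L U d I D1 ι (φ.comp ι) _ W (m * lam) hd nd hD1 hκ' hs' hW hl E1 E2)
  rw [RingHom.comp_apply, RingHom.comp_apply, hx, hy] at key
  refine ⟨?_, key.2⟩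
  obtain ⟨-, -, hF, cx, cy⟩ := I.cv
  have s1 : cc s * cc (φ θ) = θ := by
    have := key.1
    rw [map_mul, map_mul, constantCoeff_C] at this
    linear_combination θ * this - cc s * cc (φ θ) * mul_inv_cancel₀ hθ
  have fD : ∀ c, D (cc (φ (ι c))) = θ * cc (φ (ι (I.D c))) := fun c => by
    rw [← cc_cw, hs, hι, map_mul, map_mul, map_mul, ← mul_assoc, s1]
  have eu := congrArg (evp I.κ (cc I.x0) (cc I.y0)) (euler (hc_hom d I.f))
  rw [map_add, map_mul, map_mul, map_mul, hF, map_natCast, mul_one] at eu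
  have ex : evp I.κ (cc I.x0) (cc I.y0) (MvPolynomial.X 0) = cc I.x0 := by simp [evp]
  have ey : evp I.κ (cc I.x0) (cc I.y0) (MvPolynomial.X 1) = cc I.y0 := by simp [evp]
  rw [ex, ey] at eu
  have u1 := congrArg ι eu
  have u2 := congrArg (fun z => cc (φ (ι z))) eu
  simp only [map_add, map_mul, map_natCast] at u1 u2
  rw [← hx, ← hy, fD, fD, hι, hι, cx, cy]
  simp only [map_neg]
  linear_combination θ * u2 - θ * u1

/-- The curve at infinity of an observed field. -/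
theorem obsF (h : GenTopStmt) {k U : Type} [Field k] [CharZero k] [Field U] {d : ℕ} {κ : k →+* U}
    {D : U →+ U} {x y : U} {a b : AA U} (hd : 2 ≤ d) (hO : Obs k d κ D x y a b) :
    ∃ F : R2 k, F.IsHomogeneous d ∧ CI (MvPolynomial.pderiv 0 F) (MvPolynomial.pderiv 1 F) ∧
      HC.co 0 d F ≠ 0 ∧ evp κ x y F = 1 := by
  obtain ⟨-, L, _, I, ι, θ, -, -, hk, hx, hy, -, -⟩ := hO
  obtain ⟨-, hCI, -, h0d, -⟩ := h k d I.f hd I.gen
  refine ⟨hc d I.f, hc_hom d I.f, hCI, h0d, ?_⟩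
  have := congrArg ι I.cv.2.2.1
  rwa [Symb.map_evp, map_one, hx, hy, show ι.comp I.κ = κ from RingHom.ext hk] at this

theorem dfinS3 (h1 : LienStmt) (h2 : ObsStmt) (h3 : SymStmt) (h4 : ReflStmt) (h5 : DiscStmt)
    (h6 : S2aStmt3) (h7 : GenTopStmt) (h8 : Loc0Stmt) : DfinStmt3 := by
  intro k _ _ _ d hd x y a b u W hO hu hW hC
  have := K3.charL (κ := k)
  have mu : u ∈ K3.JX k := K3.mem_JX' hu
  obtain ⟨ra, rb, -, -⟩ := h2 k d _ _ _ _ _ _ _ hO
  obtain ⟨J, j1, j2, j3⟩ := exists_int (R := k⟦X⟧)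
  have dk : (d : k) ≠ 0 := Nat.cast_ne_zero.2 (by omega)
  have ud : IsUnit (-(d : AA k)) := by
    have := (IsUnit.mk0 _ dk).map (CC : k →+* AA k)
    rw [map_natCast] at this
    exact this.neg
  have ta : C (C X) ∣ a - C (-(d : AA k)) * X := Dfin.dvd_of_red (by
    rw [map_sub, map_sub, ra, map_mul, map_mul, map_X, red_X, map_neg, map_neg, map_neg,
      map_natCast, map_natCast, map_natCast]
    ring)
  obtain ⟨Wt, lam, G0, G1, hL, -, g0, -⟩ := h1 (AA k) (C X) (dX k⟦X⟧) J (-(d : AA k)) a b isDer_dX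
    (dX_C _) j1 (j3 X) ud (by rw [map_neg, isDer_dX.natCast, neg_zero]) ta (Dfin.dvd_of_red rb)
  have hL1 := hL.push' (sb (X + C u)) (t' := C X) (D' := dX k⟦X⟧) (by rw [sh_C _ mu]) (dX_sh _ mu)
  obtain ⟨n0, S, _, _, ψ1, ψ2, hR, hv, e0, e1⟩ :=
    h3 k (C X) _ _ _ _ _ _ W dvd_rfl hL1 hW (Dfin.cen_shift hu hW hC)
  have n1 : dX _ G0 ≠ 0 := fun z => n0 (by rw [dX_sh _ mu, z, map_zero])
  have hR' := (h4 k k⸨X⸩ (coeL k) X coeL_inj (by simp) (by simp)).2.2 S ψ1 ψ2 u hu hR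
  have hne : ψ1.comp (sb (X + C u)) ≠ ψ2.comp (sb (X + C u)) := fun z =>
    hv (X + C u) (by simp) (by simpa [sh_X _ mu] using RingHom.congr_fun z X)
  obtain ⟨Φ, σ, o, s0, s1, s2, s3⟩ := Dfin.deck h5 hR' hne (G := G0)
    (fun z => n1 (by rw [z, map_zero])) (by rw [g0, j2]) e0
  obtain ⟨φ, p1, p2, p3, -⟩ := o.ext s0 (fun z => s1 (by rw [z, map_zero]))
  rw [out_zero] at p2
  have pX : φ (wL k (-1)) * Φ X = 1 := by
    rw [← map_X (C : k →+* k⟦X⟧), ← p1, coeL_X, ← map_mul, mul_comm, wL_mul_neg, map_one]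
  have pκ : ∀ c, φ (cL k c) = C (cL k c) := fun c => by
    rw [← coeL_C, p1, map_C]
    exact (o.map_CC c).trans (by rw [RingHom.comp_apply, sb_C s0])
  have key := h6 k k⸨X⸩ d (cL k) (dL k) (coeL k x) (coeL k y) _ _ _ _ _ _ φ
    (C (wL k (-1)) * cw (thL k) (Φ X)) hd hO
    (hL.push' iT (t' := X) (D' := cw (dL k)) (by rw [iT_CX]) dL_iT)
    (fun z => n1 (iT_inj (by rw [← dL_iT, z, map_zero])))
    pκ
    (fun c => by
      rw [dL_apply, map_mul, dL, cw_mulLeft]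
      linear_combination C (wL k (-1)) * φ (wL k (-1)) * p3 c -
        C (wL k (-1)) * cw (thL k) (φ c) * pX)
    (by rw [p2, (s3 G0).2 e0]) (by rw [p2, (s3 G1).2 e1])
  obtain ⟨F, F1, -, -, F2⟩ := obsF h7 (by omega) hO
  have F3 := congrArg (cc.comp φ) F2
  have fκ : (cc.comp φ).comp (cL k) = cL k := RingHom.ext fun c => by
    rw [RingHom.comp_apply, RingHom.comp_apply, pκ, constantCoeff_C]
  rw [Symb.map_evp, map_one, fκ, RingHom.comp_apply, RingHom.comp_apply, p1, p1, o.ccC,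
    o.ccC] at F3
  replace key := key.1
  rw [p1, p1, o.ccC, o.ccC, RingHom.comp_apply, RingHom.comp_apply] at key
  simp only [dL_coeL, ← map_mul, ← map_sub] at key
  obtain ⟨e1, e2⟩ := h8 k d F x y (sb σ x) (sb σ y) (by omega) F1 F2 F3 (cc_sb s0 x) (cc_sb s0 y)
    (coeL_inj key)
  exact ⟨σ, s0, s1, fun z => s2 (by rw [z, coeff_one_X]), e1, e2⟩

namespace Bfin

variable {k : Type} [Field k]

theorem outer3 [CharZero k] [IsAlgClosed k] (hS : S2aStmt3) (hG : GenTopStmt) (hI : LocIStmt)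
    {d ε N : ℕ} (hd : 3 ≤ d) (hN : 1 ≤ N)
    {a b Wt lam : (AA k)⟦X⟧} {G0 G1 y : AA k} {yl : k⸨X⸩}
    (ho : Obs k d (cL k) (thL k) (wL k (-(N : ℤ))) yl (map (out ε) a) (map (out ε) b))
    (hl : LD (tA k ε) (DA k ε) a b Wt lam G0 G1) (h0 : DA k ε G0 ≠ 0) {Φ : AA k →+* TT k}
    {σ : k⟦X⟧} (hΦ : IsOut ε Φ ((coeL k).comp (sb σ))) (s0 : cc σ = 0) (s1 : σ ≠ 0)
    (e0 : Φ G0 = out ε G0) (e1 : Φ G1 = out ε G1) (ey : Φ y = out ε y)
    (hy : thP k (red y) ≠ 0) (hm : ∀ ζ : k, ζ ≠ 0 → ζ ^ N = 1 → mu ε ζ y = y) :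
    Φ (X ^ N) = out ε (X ^ N) := by
  have := K3.charL (κ := k)
  have n0 := K3.ne0 s0 s1
  obtain ⟨φ, f1, f2, f3, -⟩ := hΦ.ext s0 s1
  obtain ⟨v, hv⟩ := (hΦ.unit n0).1.exists_left_inv
  have pκ : ∀ c, φ (cL k c) = C (cL k c) := fun c => by
    rw [← coeL_C, f1, map_C, ← CC_apply, hΦ.map_CC, RingHom.comp_apply, sb_C s0]
  have key := hS k k⸨X⸩ d (cL k) (thL k) _ _ _ _ _ _ _ _ φ (v * cw (thL k) (Φ X)) hd ho
    (hl.push' (out ε) (t' := X) (by rw [out_tA]) (th_out ε)) (by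
      rw [th_out]
      exact fun e => h0 (out_inj ε (by rw [e, map_zero]))) pκ
    (fun c => by linear_combination v * f3 c - cw (thL k) (φ c) * hv)
    (by rw [f2, e0]) (by rw [f2, e1])
  have b1 : cc (φ (wL k N)) = coeL k (σ ^ N) := by
    rw [← coeL_X_pow, f1, hΦ.ccC, RingHom.comp_apply, map_pow (sb σ), sb_X s0]
  have b2 : σ ^ N = X ^ N := by
    rcases Nat.eq_or_lt_of_le hd with rfl | h4
    · obtain ⟨F, F1, F2, F3, F4⟩ := obsF hG (by omega) ho
      exact hI k F N yl σ (cc.comp φ) hN F1 F2 F3 F4 s0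
        (fun c => by rw [RingHom.comp_apply, f1, hΦ.ccC, RingHom.comp_apply]) key.1
    refine coeL_inj ?_
    have b3 : cc (φ (wL k N)) * cc (φ (wL k (-(N : ℤ)))) = 1 := by
      rw [← map_mul, ← map_mul, wL_mul_neg, map_one, map_one]
    rw [b1, (key.2 h4).1] at b3
    rw [coeL_X_pow]
    linear_combination wL k N * b3 - coeL k (σ ^ N) * wL_mul_neg (R := k) (N : ℤ)
  obtain ⟨ζ, z0, z1, rfl⟩ := root_one hN s0 b2
  have b4 : Φ = (out ε).comp (mu ε ζ) := by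
    refine hΦ.deck_unique (isOut_mu ε z0) n0 (y := y) (fun e => hy ?_) ?_
    · have : dX k (red y) = 0 := sb_inj s0 s1 (coeL_inj (by simpa using e))
      rw [thP_apply, this, mul_zero]
    · rw [RingHom.comp_apply, hm ζ z0 z1, ey]
  rw [b4, RingHom.comp_apply, map_pow (mu ε ζ), mu_X, mul_pow, ← map_pow, z1, map_one, one_mul]

theorem inner3 [CharZero k] [IsAlgClosed k] (hS : S2bStmt3) (hO : ObsStmt) {d M : ℕ} (hd : 3 ≤ d)
    (hM : 1 ≤ M) {a b Wt lam : (AA k)⟦X⟧} {G0 G1 : AA k} {xl yl : k⸨X⸩}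
    (ho : Obs k d (cL k) (thL k) xl yl (map (out 1) a) (map (out 1) b))
    (hl : LD (tA k 1) (DA k 1) a b Wt lam G0 G1) (h0 : DA k 1 G0 ≠ 0) (p0 : PolyP G0)
    (p1 : PolyP G1) (t0 : tA k 1 ∣ G0) (t1 : tA k 1 ∣ G1) {ρ : k⸨X⸩ →+* k⸨X⸩}
    (r1 : ∀ c, ρ (coeL k c) = coeL k (ram k M c)) (r2 : ∀ c, thL k (ρ c) = M * ρ (thL k c))
    {Φ : AA k →+* TT k} {π : k⟦X⟧} (f1 : ∀ r, Φ (CC r) = C (cL k r)) (s0 : cc π = 0) (s1 : π ≠ 0)
    (f2 : cc (Φ (C X)) = coeL k π) (f3 : Φ (C X) * Φ X = X) (e0 : Φ G0 = map ρ (out 1 G0))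
    (e1 : Φ G1 = map ρ (out 1 G1)) : False := by
  have := K3.charL (κ := k)
  have m0 : (M : k⸨X⸩) ≠ 0 := Nat.cast_ne_zero.2 (by omega)
  have ho' := (hO k d _ _ _ _ _ _ _ ho).2.2.2 k⸨X⸩ (thL k) ρ M m0 isDer_thL r2
  have hD : ∀ c, cw (thL k) (((map ρ).comp (out 1)) c) =
      C (M : k⸨X⸩) * ((map ρ).comp (out 1)) (DA k 1 c) := fun c => by
    rw [RingHom.comp_apply, RingHom.comp_apply, cw_map r2, th_out]
  have hl' := hl.push ((map ρ).comp (out 1)) (t' := X)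
    (by rw [RingHom.comp_apply, out_tA, map_X]) hD
  rw [RingHom.comp_apply, RingHom.comp_apply, ← e0, ← e1, map_comp] at hl'
  have key := hS k k⸨X⸩ d (ρ.comp (cL k)) (thL k) _ _ _ _ _ _ G0 G1 Φ hd ho' hl' (by
      rw [e0, ← RingHom.comp_apply (map ρ), hD]
      refine mul_ne_zero (fun e => m0 (by simpa using congrArg cc e)) fun e => h0 (out_inj 1 ?_)
      rw [map_zero]
      exact map_injective ρ ρ.injective (by rw [map_zero]; exact e)) p0 p1 t0 t1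
    (fun r => by rw [f1, RingHom.comp_apply, ← coeL_C, r1, ram_C hM])
    (isUnit_iff_constantCoeff.2 (by
      change IsUnit (cc (Φ (C X)))
      rw [f2]
      exact Ne.isUnit fun e => s1 (coeL_inj (by rw [e, map_zero])))) f3
  rw [f2, thL_coeL] at key
  exact s1 (by rw [const_thP (coeL_inj (key.trans (map_zero _).symm)), s0, map_zero])

end Bfin

open Bfin in
theorem bfinS3 (hB : BlogStmt3) (hD : DiscStmt) (hA : AnnStmt) (ha : S2aStmt3) (hb : S2bStmt3)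
    (hP : PsiStmt) (hO : ObsStmt) (hG : GenTopStmt) (hI : LocIStmt) : BfinStmt3 := by
  intro k _ _ _ d ε N e a b a0 b0 yl n ps qs W hd h
  obtain ⟨Wt, lam, G0, G1, hl, hL, s0, s1, ⟨g0, rfl⟩, ⟨g1, rfl⟩, h0, S, _, _, ψ1, ψ2, hR, hv,
    e0, e1⟩ := hB k d ε N e a b a0 b0 yl n ps qs W hd h
  have pn : ps ≠ 0 := fun c => by
    have := h.pq
    rw [c, zero_mul] at this
    exact pow_ne_zero n X_ne_zero this.symm
  obtain ⟨q1, q2, -, q3, -⟩ := hP k ε ps qs h.e1 h.p0 h.q0 pn h.qn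
  have pinj : Function.Injective (psi0 ε ps qs) := fun c c' k =>
    mA_inj Polynomial.C_injective (q1 (by rw [q2, q2, k]))
  have pt : psi0 ε ps qs (tA k ε) = C (X ^ n) := by
    rw [← q2, ← h.pq, ← q3]
    simp only [tA, map_mul, map_pow, mA_CX, mA_X]
  rw [h.ha, h.hb] at hL
  obtain ⟨l1, l0⟩ := lead_div (isDer_DA ε) (DA_tA ε) (tA_ne ε) hL
  have a00 := supp_c00 h.N1 (by omega) h.pa
  have o1 : thP k (red g0) = 0 → thP k (red g1) ≠ 0 := by
    refine not_both (c := -(d : k⟦X⟧)) (s := 1) one_ne_zero (by rw [cc_red, a00]) h.outer ?_ ?_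
    · have := map_dvd red l1
      rw [red_tA, zero_dvd_iff] at this
      simpa [red_DA] using this
    · have := map_dvd red l0
      rw [red_tA, zero_dvd_iff] at this
      simpa [red_DA] using this
  obtain ⟨i, i1, i2⟩ : ∃ i : ℕ, thP k (red g0) + i * thP k (red g1) ≠ 0 ∧
      (ε = 1 → thP k (cc g0) + i * thP k (cc g1) ≠ 0) := by
    by_cases c : ε = 1
    · subst c
      have o2 : thP k (cc g0) = 0 → thP k (cc g1) ≠ 0 := by
        refine not_both (c := -(d : k⟦X⟧)) (s := -1) (a := cc a0) (neg_ne_zero.2 one_ne_zero) a00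
          (h.inner rfl) ?_ ?_
        · have := map_dvd cc l1
          rw [cc_tA, zero_dvd_iff] at this
          simpa [cc_DA] using this
        · have := map_dvd cc l0
          rw [cc_tA, zero_dvd_iff] at this
          simpa [cc_DA] using this
      obtain ⟨i, i1, i2⟩ := pick o1 o2
      exact ⟨i, i1, fun _ => i2⟩
    · obtain ⟨i, i1, -⟩ := pick o1 o1
      exact ⟨i, i1, fun d => absurd d c⟩
  obtain ⟨y, hy⟩ : ∃ y : AA k, y = g0 + (i : AA k) * g1 - CC (c00 (g0 + (i : AA k) * g1)) := ⟨_, rfl⟩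
  have y0 : c00 y = 0 := by rw [hy, map_sub, c00_apply (CC _), CC_apply]; simp
  have y1 : thP k (red y) = thP k (red g0) + i * thP k (red g1) := by
    rw [hy, map_sub, map_sub, CC_apply, red_C, thP_apply (C _), dX_C, mul_zero, sub_zero, map_add,
      map_add, map_mul, map_natCast, isDer_thP.const_mul (isDer_thP.natCast i)]
  have y2 : thP k (cc y) = thP k (cc g0) + i * thP k (cc g1) := by
    rw [hy, map_sub, map_sub, CC_apply, constantCoeff_C, thP_apply (C _), dX_C, mul_zero, sub_zero,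
      map_add, map_add, map_mul, map_natCast, isDer_thP.const_mul (isDer_thP.natCast i)]
  have yr : red y ≠ 0 := fun c => i1 (by rw [← y1, c, map_zero])
  have inj : Function.Injective (ψ1.comp (psi0 ε ps qs)) := hR.1.comp pinj
  have ct : ψ1 (psi0 ε ps qs (tA k ε)) = ψ2 (psi0 ε ps qs (tA k ε)) := by rw [pt, hR.2.1]
  have cn : ψ1 (psi0 ε ps qs (tA k ε)) ≠ 0 := fun c => tA_ne ε (inj (by rw [map_zero]; exact c))
  have can : ∀ m g, ψ1 (psi0 ε ps qs (tA k ε ^ m * g)) = ψ2 (psi0 ε ps qs (tA k ε ^ m * g)) →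
      ψ1 (psi0 ε ps qs g) = ψ2 (psi0 ε ps qs g) := fun m g c => by
    simp only [map_mul, map_pow, ← ct] at c
    exact mul_left_cancel₀ (pow_ne_zero m cn) c
  have ey : ψ1 (psi0 ε ps qs y) = ψ2 (psi0 ε ps qs y) := by
    rw [hy]
    simp only [map_sub, map_add (psi0 ε ps qs), map_mul (psi0 ε ps qs), map_natCast, map_add ψ1,
      map_add ψ2, map_mul ψ1, map_mul ψ2, can _ _ e0, can _ _ e1, psi_CC h.p0 h.q0]
    rw [CC_apply, hR.2.1]
  have eg : ∀ g : AA k, (ψ1.comp (psi0 ε ps qs)) (ev2 CC (tA k ε) y g) =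
      (ψ2.comp (psi0 ε ps qs)) (ev2 CC (tA k ε) y g) := fun g => by
    rw [RingHom.comp_apply, RingHom.comp_apply, psi_ev h.p0 h.q0 h.n1 pt y0]
    exact hR.2.2 _ (by rw [psi_c00 h.p0 h.q0, y0]) ey _
  have nv := hv _ (psi_v (ε := ε) (ps := ps) h.q0 h.qn h.N1)
  have out' : ∀ (Φ : AA k →+* TT k) (σ : k⟦X⟧), IsOut ε Φ ((coeL k).comp (sb σ)) → cc σ = 0 →
      coeff 1 σ ≠ 0 → (∀ c, Φ c = out ε c ↔
        (ψ1.comp (psi0 ε ps qs)) c = (ψ2.comp (psi0 ε ps qs)) c) → False := by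
    intro Φ σ f1 f2 f3 f4
    refine nv ((f4 _).1 (outer3 ha hG hI hd h.N1 h.obs hl h0 f1 f2 (fun c => f3 (by rw [c, map_zero]))
      ((f4 _).2 e0) ((f4 _).2 e1) ((f4 _).2 ey) (y1 ▸ i1) fun ζ z0 z1 => ?_))
    have mc : ∀ m g, Supp ε 0 N (tA k ε ^ m * g) → mu ε ζ g = g := fun m g c => by
      have := mu_fix z0 z1 c
      rw [map_mul, map_pow, mu_tA ε z0] at this
      exact mul_left_cancel₀ (pow_ne_zero m (tA_ne ε)) this
    rw [hy, map_sub, mu_CC, map_add, map_mul, map_natCast, mc _ _ s0.1, mc _ _ s1.1]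
  rcases Nat.le_one_iff_eq_zero_or_eq_one.1 h.e1 with rfl | rfl
  · obtain ⟨ν, hν⟩ := exists_ordIs yr
    have n1 : 1 ≤ ν := Nat.one_le_iff_ne_zero.2 fun c => hν.1 (by
      rw [c, coeff_zero_eq_constantCoeff_apply]
      exact (cc_red y).trans y0)
    have : NeZero ν := ⟨by omega⟩
    obtain ⟨ω, hω⟩ := HasEnoughRootsOfUnity.exists_primitiveRoot k ν
    obtain ⟨Φ, σ, f1, f2, f3, -, -, f4⟩ := hD k S ν ω y _ (ψ2.comp (psi0 0 ps qs)) n1 hω hν inj
      (fun g => by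
        have := eg g
        rwa [ev2, RingHom.ext ev_CX] at this)
      fun c => nv (RingHom.congr_fun c (X ^ N))
    refine out' Φ σ f1 f2 (fun c => ?_) (by rwa [out_zero])
    rw [c, zero_pow (by omega)] at f3
    exact zero_ne_one f3
  · rcases hA k S y _ (ψ2.comp (psi0 1 ps qs)) y0 (fun c => i2 rfl (by rw [← y2, c, map_zero]))
      yr inj eg with ⟨Φ, σ, f1, f2, f3, f4⟩ | ⟨M, ρ, Φ, π, m1, r1, r2, f1, f2, f3, f4, f5, f6⟩
    · exact out' Φ σ f1 f2 f3 f4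
    · have ee := h.ee
      exact inner3 hb hO hd m1 h.obs hl h0 (s0.2 rfl) (s1.2 rfl)
        ((dvd_pow_self _ (by omega)).mul_right _) ((dvd_pow_self _ (by omega)).mul_right _)
        r1 r2 f1 f2 f3 f4 f5 ((f6 _).2 e0) ((f6 _).2 e1)

end Pool.Agent.MP_05b4bd_ag.ES
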